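import Pool.Agent.Y943.Fu.Dim2

/-!
# A lower bound of the dimension of orbit closures from fractions with many different multiples
-/

set_option autoImplicit false

namespace Pool.Agent.Y943.Fu

open Finset Filter MeasureTheory Measure
open scoped ENNReal NNReal

/-- many words from a fraction -/
theorem le_wds {b : ℕ} (hb : 2 ≤ b) {x : ℝ} {q N L : ℕ} (hq : 1 ≤ q) (c : ℤ)
    (hinj : ∀ i j : ℕ, i < j → j < N → ¬ (q : ℤ) ∣ c * b ^ j - c * b ^ i)
    (hx : (b : ℝ) ^ N * |x - c / q| ≤ 1 / (4 * q)) (hL : 2 * q ≤ b ^ L) :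
    N ≤ (wds b x L).ncard := by
  have hb1 : (1 : ℝ) ≤ b := by exact_mod_cast (by omega : 1 ≤ b)
  have hb0 : (0 : ℝ) < b := by linarith
  have hq0 : (0 : ℝ) < q := by exact_mod_cast hq
  have hLr : 2 * (q : ℝ) ≤ (b : ℝ) ^ L := by exact_mod_cast hL
  have hbL : (0 : ℝ) < (b : ℝ) ^ L := by positivity
  have key : ∀ i j : ℕ, i < j → j < N → ⌊(b : ℝ) ^ L * Int.fract ((b : ℝ) ^ i * x)⌋ ≠
      ⌊(b : ℝ) ^ L * Int.fract ((b : ℝ) ^ j * x)⌋ := by
    intro i j hij hj heq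
    have h1 : |(b : ℝ) ^ L * Int.fract ((b : ℝ) ^ i * x) -
        (b : ℝ) ^ L * Int.fract ((b : ℝ) ^ j * x)| < 1 := Int.abs_sub_lt_one_of_floor_eq_floor heq
    rw [← mul_sub, abs_mul, abs_of_pos hbL] at h1
    have h2 : |Int.fract ((b : ℝ) ^ i * x) - Int.fract ((b : ℝ) ^ j * x)| < 1 / (2 * q) := by
      rw [lt_div_iff₀ (by positivity)]
      have h3 := abs_nonneg (Int.fract ((b : ℝ) ^ i * x) - Int.fract ((b : ℝ) ^ j * x))
      nlinarith
    have h4 : ∀ k : ℕ, k ≤ N → (b : ℝ) ^ k * |x - c / q| ≤ 1 / (4 * q) := by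
      intro k hk
      refine le_trans ?_ hx
      have : (b : ℝ) ^ k ≤ (b : ℝ) ^ N := pow_le_pow_right₀ hb1 hk
      have := abs_nonneg (x - c / q)
      gcongr
    have h5 := h4 i (by omega)
    have h6 := h4 j (by omega)
    apply hinj i j hij hj
    set z : ℤ := ⌊(b : ℝ) ^ j * x⌋ - ⌊(b : ℝ) ^ i * x⌋ with hz
    have h7 : |(((c * b ^ j - c * b ^ i) - z * q : ℤ) : ℝ)| < 1 := by
      have h8 : (((c * b ^ j - c * b ^ i) - z * q : ℤ) : ℝ) =
          q * (-(Int.fract ((b : ℝ) ^ i * x) - Int.fract ((b : ℝ) ^ j * x)) +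
            ((b : ℝ) ^ i * (x - c / q) - (b : ℝ) ^ j * (x - c / q))) := by
        rw [hz, Int.fract, Int.fract]
        push_cast
        field_simp
        ring
      rw [h8, abs_mul, abs_of_pos hq0]
      have h9 : |-(Int.fract ((b : ℝ) ^ i * x) - Int.fract ((b : ℝ) ^ j * x)) +
            ((b : ℝ) ^ i * (x - c / q) - (b : ℝ) ^ j * (x - c / q))| < 1 / q := by
        have h10 := abs_add_le (-(Int.fract ((b : ℝ) ^ i * x) - Int.fract ((b : ℝ) ^ j * x)))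
          ((b : ℝ) ^ i * (x - c / q) - (b : ℝ) ^ j * (x - c / q))
        rw [abs_neg] at h10
        have h11 := abs_sub ((b : ℝ) ^ i * (x - c / q)) ((b : ℝ) ^ j * (x - c / q))
        rw [abs_mul, abs_mul, abs_of_pos (by positivity : (0 : ℝ) < (b : ℝ) ^ i),
          abs_of_pos (by positivity : (0 : ℝ) < (b : ℝ) ^ j)] at h11
        have h12 : 1 / (2 * (q : ℝ)) + (1 / (4 * q) + 1 / (4 * q)) = 1 / q := by
          field_simp
          norm_num
        linarith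
      calc (q : ℝ) * |-(Int.fract ((b : ℝ) ^ i * x) - Int.fract ((b : ℝ) ^ j * x)) +
            ((b : ℝ) ^ i * (x - c / q) - (b : ℝ) ^ j * (x - c / q))| < q * (1 / q) := by gcongr
        _ = 1 := by field_simp
    have h13 : (c * b ^ j - c * b ^ i) - z * q = 0 := by
      have h14 : |(c * b ^ j - c * b ^ i) - z * q| < 1 := by exact_mod_cast h7
      exact Int.abs_lt_one_iff.1 h14
    exact ⟨z, by linarith⟩
  have hinjOn : Set.InjOn (fun i : ℕ => ⌊(b : ℝ) ^ L * Int.fract ((b : ℝ) ^ i * x)⌋)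
      (Finset.range N : Set ℕ) := by
    intro i hi j hj heq
    simp only [coe_range, Set.mem_Iio] at hi hj
    rcases lt_trichotomy i j with h | h | h
    · exact absurd heq (key i j h hj)
    · exact h
    · exact absurd heq.symm (key j i h hi)
  have hsub : ((Finset.range N).image
      (fun i : ℕ => ⌊(b : ℝ) ^ L * Int.fract ((b : ℝ) ^ i * x)⌋) : Set ℤ) ⊆ wds b x L := by
    intro w hw
    simp only [coe_image, coe_range, Set.mem_image, Set.mem_Iio] at hw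
    obtain ⟨i, _, rfl⟩ := hw
    exact ⟨i, rfl⟩
  have hcard := Set.ncard_le_ncard hsub (wds_finite hb x L).1
  rw [Set.ncard_coe_finset, Finset.card_image_of_injOn hinjOn, Finset.card_range] at hcard
  exact hcard

/-- **The lower bound.** -/
theorem le_dimH_of_fractions {b : ℕ} (hb : 2 ≤ b) {x : ℝ} {s : ℝ≥0}
    (h : ∀ Q : ℕ, ∃ q N : ℕ, Q ≤ q ∧ ∃ c : ℤ, (q : ℝ) ^ (s : ℝ) ≤ N ∧
      (∀ i j : ℕ, i < j → j < N → ¬ (q : ℤ) ∣ c * b ^ j - c * b ^ i) ∧
      (b : ℝ) ^ N * |x - c / q| ≤ 1 / (4 * q)) :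
    (s : ℝ≥0∞) ≤ dimH (orb b x) := by
  by_contra hcon
  push Not at hcon
  obtain ⟨s', hs'1, hs'2⟩ := ENNReal.lt_iff_exists_nnreal_btwn.1 hcon
  have hs'0 : 0 < s' := by
    have : (0 : ℝ≥0∞) < s' := lt_of_le_of_lt zero_le hs'1
    exact_mod_cast this
  have hss : (s' : ℝ) < s := by exact_mod_cast hs'2
  have hs'r : (0 : ℝ) < s' := hs'0
  obtain ⟨C, hC, hw⟩ := wds_of_dimH hb x hs'0 hs'1
  have hb1 : (1 : ℝ) < b := by exact_mod_cast (by omega : 1 < b)
  have hb0 : (0 : ℝ) < b := by linarith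
  -- choose a large denominator
  have ht : Tendsto (fun q : ℕ => (q : ℝ) ^ ((s : ℝ) - s')) atTop atTop :=
    (tendsto_rpow_atTop (sub_pos.2 hss)).comp tendsto_natCast_atTop_atTop
  obtain ⟨Q, hQ⟩ := eventually_atTop.1 (ht.eventually_gt_atTop (C * (2 * b : ℝ) ^ (s' : ℝ)))
  obtain ⟨q, N, hqQ, c, hN, hinj, hx⟩ := h (max Q 1)
  have hq1 : 1 ≤ q := (le_max_right _ _).trans hqQ
  have hq0 : (0 : ℝ) < q := by exact_mod_cast hq1
  have hL := Nat.le_pow_clog (by omega : 1 < b) (2 * q)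
  have hL2 := Nat.pow_pred_clog_lt_self (by omega : 1 < b) (by omega : 1 < 2 * q)
  set L := Nat.clog b (2 * q) with hLdef
  have hL1 : 1 ≤ L := Nat.clog_pos (by omega) (by omega)
  have h1 := le_wds hb hq1 c hinj hx hL
  have h2 := hw L
  have h3 : (b : ℝ) ^ L ≤ 2 * b * q := by
    have h4 : b ^ L = b * b ^ (L - 1) := by
      rw [← pow_succ']
      congr 1
      omega
    have h5 : b ^ L ≤ b * (2 * q) := by
      rw [h4]
      exact Nat.mul_le_mul_left _ hL2.le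
    have h6 : ((b ^ L : ℕ) : ℝ) ≤ ((b * (2 * q) : ℕ) : ℝ) := by exact_mod_cast h5
    push_cast at h6
    linarith
  have h7 : (b : ℝ) ^ ((s' : ℝ) * L) ≤ (2 * b * q : ℝ) ^ (s' : ℝ) := by
    rw [mul_comm, Real.rpow_mul hb0.le, Real.rpow_natCast]
    exact Real.rpow_le_rpow (by positivity) h3 hs'r.le
  have h8 : (q : ℝ) ^ (s : ℝ) ≤ C * ((2 * b : ℝ) ^ (s' : ℝ) * (q : ℝ) ^ (s' : ℝ)) := by
    have h9 : (N : ℝ) ≤ (wds b x L).ncard := by exact_mod_cast h1
    calc (q : ℝ) ^ (s : ℝ) ≤ C * (b : ℝ) ^ ((s' : ℝ) * L) := hN.trans (h9.trans h2)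
      _ ≤ C * (2 * b * q : ℝ) ^ (s' : ℝ) := by gcongr
      _ = C * ((2 * b : ℝ) ^ (s' : ℝ) * (q : ℝ) ^ (s' : ℝ)) := by
          rw [Real.mul_rpow (by positivity) hq0.le]
  have h10 := hQ q ((le_max_left _ _).trans hqQ)
  rw [Real.rpow_sub hq0, lt_div_iff₀ (by positivity)] at h10
  linarith

end Pool.Agent.Y943.Fu
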