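import Pool.Agent.Y943.Fu.NT3
import Pool.Agent.Y943.Fu.Low

/-!
# Generic denominators
-/

set_option autoImplicit false

namespace Pool.Agent.Y943.Fu

open Finset Filter Topology
open scoped ENNReal NNReal

theorem cnt_compl (X : ℕ) (P : ℕ → Prop) : cnt X (fun q => ¬ P q) = X - cnt X P := by
  have h1 : cnt X P + cnt X (fun q => ¬ P q) = X := by
    unfold cnt
    rw [← Nat.cast_add, ← Set.ncard_union_eq ?_ (fin_cnt X P) (fin_cnt X _)]
    · have h2 : ({q : ℕ | 1 ≤ q ∧ q ≤ X ∧ P q} ∪ {q : ℕ | 1 ≤ q ∧ q ≤ X ∧ ¬ P q} : Set ℕ) =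
          ((Icc 1 X : Finset ℕ) : Set ℕ) := by
        ext q
        simp only [coe_Icc, Set.mem_union, Set.mem_ofPred_eq, Set.mem_Icc]
        tauto
      rw [h2, Set.ncard_coe_finset, Nat.card_Icc]
      simp
    · rw [Set.disjoint_left]
      rintro q ⟨_, _, h3⟩ ⟨_, _, h4⟩
      exact h4 h3
  linarith

theorem density_one {W : ℕ → Prop} (hW : DZ W) :
    Tendsto (fun X : ℕ => cnt X (fun q => ¬ W q) / X) atTop (𝓝 1) := by
  rw [Metric.tendsto_atTop]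
  intro ε hε
  obtain ⟨X₀, hX₀⟩ := hW (ε / 2) (by linarith)
  refine ⟨max X₀ 1, fun X hX => ?_⟩
  have h1 := hX₀ X ((le_max_left _ _).trans hX)
  have hX1 : (1 : ℝ) ≤ X := by exact_mod_cast (le_max_right _ _).trans hX
  have hX0 : (0 : ℝ) < X := by linarith
  have h2 := cnt_nonneg X W
  rw [cnt_compl, Real.dist_eq, sub_div, div_self hX0.ne', sub_right_comm, sub_self, zero_sub,
    abs_neg, abs_of_nonneg (by positivity), div_lt_iff₀ hX0]
  nlinarith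

/-- small order for infinitely many pairs `(b, θ)` simultaneously -/
theorem generic_set : ∃ W : ℕ → Prop, DZ W ∧ ∀ b : ℕ, 2 ≤ b → ∀ θ : ℝ, θ < 1 / 2 →
    ∃ Q₀ : ℕ, ∀ q, Q₀ ≤ q → ¬ W q →
      ∀ i k : ℕ, 1 ≤ k → q ∣ b ^ i * (b ^ k - 1) → (q : ℝ) ^ θ ≤ k := by
  obtain ⟨W, hW, hdiag⟩ := DZ.diag
    (fun n q => ¬ ∀ i k : ℕ, 1 ≤ k → q ∣ ((Nat.unpair n).1 + 2) ^ i *
      (((Nat.unpair n).1 + 2) ^ k - 1) → (q : ℝ) ^ (1 / 2 - 1 / ((Nat.unpair n).2 + 3 : ℝ)) ≤ k)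
    (fun n => dz_bad (by omega)
      (by
        have : (1 : ℝ) / ((Nat.unpair n).2 + 3 : ℝ) < 1 / 2 := by
          apply one_div_lt_one_div_of_lt (by norm_num)
          have : (0 : ℝ) ≤ (Nat.unpair n).2 := Nat.cast_nonneg _
          linarith
        linarith)
      (by
        have : (0 : ℝ) < 1 / ((Nat.unpair n).2 + 3 : ℝ) := by positivity
        linarith))
  refine ⟨W, hW, fun b hb θ hθ => ?_⟩
  obtain ⟨m, hm⟩ := exists_nat_gt (1 / (1 / 2 - θ))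
  obtain ⟨Q₀, hQ₀⟩ := hdiag (Nat.pair (b - 2) m)
  refine ⟨max Q₀ 1, fun q hq hWq => ?_⟩
  have h1 : ∀ i k : ℕ, 1 ≤ k → q ∣ b ^ i * (b ^ k - 1) →
      (q : ℝ) ^ (1 / 2 - 1 / ((m : ℝ) + 3)) ≤ k := by
    by_contra hcon
    refine hWq (hQ₀ q ((le_max_left _ _).trans hq) ?_)
    simp only [Nat.unpair_pair]
    rw [show b - 2 + 2 = b by omega]
    exact hcon
  intro i k hk hdvd
  refine le_trans ?_ (h1 i k hk hdvd)
  have hq1 : (1 : ℝ) ≤ q := by exact_mod_cast (le_max_right _ _).trans hq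
  apply Real.rpow_le_rpow_of_exponent_le hq1
  have h2 : 0 < 1 / 2 - θ := by linarith
  have h3 : 1 / ((m : ℝ) + 3) ≤ 1 / 2 - θ := by
    rw [div_le_iff₀ (by positivity)]
    rw [div_lt_iff₀ h2] at hm
    nlinarith
  linarith

theorem growth {s δ : ℝ} (hs : 0 < s) (hsδ : s < δ) (B : ℝ) :
    ∀ᶠ q : ℕ in atTop, B * ((q : ℝ) ^ s + 1) + Real.log (4 * q) ≤ (q : ℝ) ^ δ := by
  have hδ : 0 < δ := hs.trans hsδ
  have h1 : Tendsto (fun q : ℕ => (q : ℝ) ^ (δ - s)) atTop atTop :=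
    (tendsto_rpow_atTop (sub_pos.2 hsδ)).comp tendsto_natCast_atTop_atTop
  have h2 : Tendsto (fun q : ℕ => (q : ℝ) ^ s) atTop atTop :=
    (tendsto_rpow_atTop hs).comp tendsto_natCast_atTop_atTop
  have h3 : ∀ᶠ q : ℕ in atTop, Real.log q ≤ (q : ℝ) ^ s / s := by
    filter_upwards with q
    exact Real.log_le_rpow_div (Nat.cast_nonneg _) hs
  filter_upwards [h1.eventually_ge_atTop (2 * |B| + 1 / s + Real.log 4), h3,
    h2.eventually_ge_atTop 1, eventually_ge_atTop 1] with q e1 e2 e3 e4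
  have hq1 : (1 : ℝ) ≤ q := by exact_mod_cast e4
  have hq0 : (0 : ℝ) < q := by linarith
  have e5 : (q : ℝ) ^ δ = (q : ℝ) ^ (δ - s) * (q : ℝ) ^ s := by
    rw [← Real.rpow_add hq0]
    congr 1
    ring
  have e6 : B * ((q : ℝ) ^ s + 1) ≤ 2 * |B| * (q : ℝ) ^ s := by
    have h4 : B * ((q : ℝ) ^ s + 1) ≤ |B| * ((q : ℝ) ^ s + 1) := by
      have := le_abs_self B
      gcongr
    have h5 : 0 ≤ |B| := abs_nonneg B
    nlinarith
  have e7 : Real.log (4 * q) = Real.log 4 + Real.log q := Real.log_mul (by norm_num) hq0.ne'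
  have e8 : Real.log 4 ≤ Real.log 4 * (q : ℝ) ^ s := by
    have : 0 ≤ Real.log 4 := Real.log_nonneg (by norm_num)
    nlinarith
  rw [e5, e7]
  have e9 : (2 * |B| + 1 / s + Real.log 4) * (q : ℝ) ^ s ≤ (q : ℝ) ^ (δ - s) * (q : ℝ) ^ s := by
    gcongr
  have e10 : (q : ℝ) ^ s / s = 1 / s * (q : ℝ) ^ s := by ring
  rw [e10] at e2
  linarith

/-- **the dimension for generic denominators** -/
theorem generic_dim : ∃ W : ℕ → Prop, DZ W ∧ ∀ b : ℕ, 2 ≤ b → ∀ δ : ℝ, 0 < δ → δ ≤ 1 / 2 →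
    ∀ x : ℝ, (∀ K : ℕ, ∃ q : ℕ, K ≤ q ∧ ¬ W q ∧ ∃ c : ℤ, IsCoprime c q ∧
      |x - c / q| ≤ Real.exp (-(q : ℝ) ^ δ)) →
    ENNReal.ofReal δ ≤ dimH (orb b x) := by
  obtain ⟨W, hW, hgen⟩ := generic_set
  refine ⟨W, hW, fun b hb δ hδ0 hδ x hx => ?_⟩
  refine ENNReal.le_of_forall_nnreal_lt fun s hs => ?_
  rw [ENNReal.ofReal, ENNReal.coe_lt_coe, ← NNReal.coe_lt_coe, Real.coe_toNNReal _ hδ0.le] at hs
  rcases eq_or_lt_of_le (zero_le : (0 : ℝ≥0) ≤ s) with h0 | hs0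
  · rw [← h0]
    simp
  have hs0' : (0 : ℝ) < s := hs0
  refine le_dimH_of_fractions hb fun Q => ?_
  set θ : ℝ := ((s : ℝ) + 1 / 2) / 2 with hθ
  have hθ1 : (s : ℝ) < θ := by rw [hθ]; linarith
  have hθ2 : θ < 1 / 2 := by rw [hθ]; linarith
  obtain ⟨Q₀, hQ₀⟩ := hgen b hb θ hθ2
  have hb1 : (1 : ℝ) < b := by exact_mod_cast (by omega : 1 < b)
  have hb0 : (0 : ℝ) < b := by linarith
  have hlb : 0 < Real.log b := Real.log_pos hb1
  obtain ⟨Q₁, hQ₁⟩ := eventually_atTop.1 (growth hs0' hs (Real.log b))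
  obtain ⟨Q₂, hQ₂⟩ := eventually_atTop.1 (growth hs0' hθ1 1)
  obtain ⟨q, hq, hWq, c, hc, hclose⟩ := hx (max (max Q Q₀) (max (max Q₁ Q₂) 1))
  have g1 : Q ≤ q := ((le_max_left _ _).trans (le_max_left _ _)).trans hq
  have g2 : Q₀ ≤ q := ((le_max_right _ _).trans (le_max_left _ _)).trans hq
  have g3 : Q₁ ≤ q := (((le_max_left _ _).trans (le_max_left _ _)).trans (le_max_right _ _)).trans hq
  have g4 : Q₂ ≤ q := (((le_max_right _ _).trans (le_max_left _ _)).trans (le_max_right _ _)).trans hq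
  have g5 : 1 ≤ q := ((le_max_right _ _).trans (le_max_right _ _)).trans hq
  have hq1 : (1 : ℝ) ≤ q := by exact_mod_cast g5
  have hq0 : (0 : ℝ) < q := by linarith
  have hN1 := Nat.le_ceil ((q : ℝ) ^ (s : ℝ))
  have hN2 := (Nat.ceil_lt_add_one (by positivity : 0 ≤ (q : ℝ) ^ (s : ℝ))).le
  set N := ⌈(q : ℝ) ^ (s : ℝ)⌉₊ with hN
  refine ⟨q, N, g1, c, hN1, ?_, ?_⟩
  · intro i j hij hj hdvd
    have h1 : (q : ℤ) ∣ (b : ℤ) ^ i * ((b : ℤ) ^ (j - i) - 1) := by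
      have h2 : c * (b : ℤ) ^ j - c * (b : ℤ) ^ i = c * ((b : ℤ) ^ i * ((b : ℤ) ^ (j - i) - 1)) := by
        have : (b : ℤ) ^ j = (b : ℤ) ^ i * (b : ℤ) ^ (j - i) := by
          rw [← pow_add]
          congr 1
          omega
        rw [this]
        ring
      rw [h2] at hdvd
      exact hc.symm.dvd_of_dvd_mul_left hdvd
    have h3 : q ∣ b ^ i * (b ^ (j - i) - 1) := by
      have h4 : ((b ^ i * (b ^ (j - i) - 1) : ℕ) : ℤ) = (b : ℤ) ^ i * ((b : ℤ) ^ (j - i) - 1) := by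
        rw [Nat.cast_mul, Nat.cast_sub (Nat.one_le_pow _ _ (by omega))]
        push_cast
        rfl
      rw [← h4] at h1
      exact_mod_cast h1
    have h5 := hQ₀ q g2 hWq i (j - i) (by omega) h3
    have h6 := hQ₂ q g4
    rw [one_mul] at h6
    have h7 : 0 < Real.log (4 * q) := Real.log_pos (by linarith)
    have h8 : ((j - i : ℕ) : ℝ) ≤ N := by
      exact_mod_cast (by omega : j - i ≤ N)
    linarith
  · have h9 := hQ₁ q g3
    have h10 : (b : ℝ) ^ N = Real.exp (Real.log b * N) := by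
      rw [mul_comm, Real.exp_nat_mul, Real.exp_log hb0]
    calc (b : ℝ) ^ N * |x - c / q| ≤ Real.exp (Real.log b * N) * Real.exp (-(q : ℝ) ^ δ) := by
          rw [h10]
          gcongr
      _ = Real.exp (Real.log b * N - (q : ℝ) ^ δ) := by rw [← Real.exp_add, sub_eq_add_neg]
      _ ≤ Real.exp (-Real.log (4 * q)) := by
          apply Real.exp_le_exp.2
          have : Real.log b * N ≤ Real.log b * ((q : ℝ) ^ (s : ℝ) + 1) := by gcongr
          linarith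
      _ = 1 / (4 * q) := by
          rw [Real.exp_neg, Real.exp_log (by positivity), one_div]

end Pool.Agent.Y943.Fu
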