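import Pool.Agent.Y943.Fu.NT4

/-!
# Almost all integers have a good prime factor, continued
-/

set_option autoImplicit false

namespace Pool.Agent.Y943.Fu

open Finset Filter Topology

/-- `q = p r` with a prime `p` modulo which a power `b ^ D`, with exponent adapted to `r`, has a large
order -/
def PP (b q : ℕ) : Prop := ∃ p r D n₀ : ℕ, p.Prime ∧ q = p * r ∧ 1 ≤ r ∧ ¬ p ∣ r ∧ ¬ p ∣ b ∧
  Real.log q ≤ p ∧ 1 ≤ D ∧ D ≤ r ∧ n₀ ≤ r ∧ r ∣ b ^ n₀ * (b ^ D - 1) ∧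
  (p : ℝ) ^ (0.45 : ℝ) ≤ orderOf ((b : ZMod p) ^ D)

/-- the deterministic part -/
theorem pp_of {b y q G W : ℕ} {Z Y : ℝ} (hb : 2 ≤ b) (hy : b ≤ y) (hq : 1 ≤ q) (hG : 1 ≤ G)
    (hZ : 1 ≤ Z) (hY : 1 ≤ Y)
    (h1 : ∀ p : ℕ, p.Prime → p ≤ y → ((p ^ q.factorization p : ℕ) : ℝ) ≤ Z)
    (h2 : ∀ p : ℕ, p.Prime → y < p → ¬ p ^ 2 ∣ q)
    (h3 : ∀ p : ℕ, p.Prime → y < p → p ∣ q → (p : ℝ) ^ (0.48 : ℝ) ≤ orderOf (b : ZMod p))
    (h4 : q.primeFactors.card ≤ W)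
    (h5 : ∀ p p' : ℕ, p.Prime → p'.Prime → p ≠ p' → p ∣ q → p' ∣ q →
      Nat.gcd (p - 1) (p' - 1) ≤ G)
    (h6 : ∀ p : ℕ, p.Prime → p ∣ q → ∀ d : ℕ, d ∣ p - 1 → p * d ∣ q → d ≤ G)
    (h7 : Y ^ W * Z ^ y < q) (h8 : Real.log q ≤ Y) (h9 : ((G ^ (W + 1) : ℕ) : ℝ) ≤ Y ^ (0.03 : ℝ)) :
    PP b q := by
  obtain ⟨p, hp, hpy, hpq, hYp⟩ := exists_large_prime hq hZ hY h1 h2 h4 h7
  obtain ⟨r, hr⟩ := hpq
  have hp0 : (0 : ℝ) < p := by exact_mod_cast hp.pos
  have hr1 : 1 ≤ r := by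
    rcases Nat.eq_zero_or_pos r with h | h
    · subst h
      omega
    · exact h
  have hpr : ¬ p ∣ r := by
    intro hd
    apply h2 p hp hpy
    rw [hr, pow_two]
    exact Nat.mul_dvd_mul_left _ hd
  have hpb : ¬ p ∣ b := fun hd => by
    have := Nat.le_of_dvd (by omega) hd
    omega
  have hpq : p ∣ q := ⟨r, hr⟩
  set D := ∏ l ∈ r.primeFactors.filter (fun l => ¬ l ∣ b), Nat.totient (l ^ r.factorization l)
    with hD
  have hD1 := exponent_le (b := b) hr1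
  rw [← hD] at hD1
  refine ⟨p, r, D, Nat.log 2 r + 1, hp, hr, hr1, hpr, hpb, h8.trans hYp.le, hD1.1, hD1.2, ?_, ?_, ?_⟩
  · have := Nat.log_lt_self 2 (by omega : r ≠ 0)
    omega
  · exact dvd_exponent (by omega) hr1 (Nat.lt_pow_succ_log_self (by norm_num) r)
  · have e1 : orderOf ((b : ZMod p) ^ D) = orderOf (b : ZMod p) / Nat.gcd (orderOf (b : ZMod p)) D :=
      orderOf_pow' _ (by omega)
    have e2 : orderOf (b : ZMod p) = orderOf ((b : ZMod p) ^ D) *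
        Nat.gcd (orderOf (b : ZMod p)) D := by
      rw [e1]
      exact (Nat.div_mul_cancel (Nat.gcd_dvd_left _ _)).symm
    have e3 : Nat.gcd (orderOf (b : ZMod p)) D ≤ G ^ (W + 1) := by
      refine le_trans ?_ (gcd_exponent_le (b := b) hp hr1 hr h4 hG hpr h5 (h6 p hp hpq))
      rw [← hD]
      refine Nat.le_of_dvd (Nat.gcd_pos_of_pos_left _ (Nat.sub_pos_of_lt hp.one_lt)) ?_
      exact Nat.dvd_gcd ((Nat.gcd_dvd_left _ _).trans (order_dvd hp hpb)) (Nat.gcd_dvd_right _ _)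
    have e4 := h3 p hp hpy hpq
    have e5 : ((G ^ (W + 1) : ℕ) : ℝ) ≤ (p : ℝ) ^ (0.03 : ℝ) :=
      h9.trans (Real.rpow_le_rpow (by linarith) hYp.le (by norm_num))
    have e6 : (p : ℝ) ^ (0.48 : ℝ) = (p : ℝ) ^ (0.45 : ℝ) * (p : ℝ) ^ (0.03 : ℝ) := by
      rw [← Real.rpow_add hp0]
      norm_num
    have e7 : (orderOf (b : ZMod p) : ℝ) ≤ orderOf ((b : ZMod p) ^ D) * (p : ℝ) ^ (0.03 : ℝ) := by
      have e8 : ((Nat.gcd (orderOf (b : ZMod p)) D : ℕ) : ℝ) ≤ (p : ℝ) ^ (0.03 : ℝ) := by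
        refine le_trans ?_ e5
        exact_mod_cast e3
      calc (orderOf (b : ZMod p) : ℝ) = ((orderOf ((b : ZMod p) ^ D) *
        Nat.gcd (orderOf (b : ZMod p)) D : ℕ) : ℝ) := by rw [← e2]
        _ = (orderOf ((b : ZMod p) ^ D) : ℝ) * ((Nat.gcd (orderOf (b : ZMod p)) D : ℕ) : ℝ) := by
          push_cast
          rfl
        _ ≤ _ := by gcongr
    rw [e6] at e4
    exact le_of_mul_le_mul_right (e4.trans e7) (by positivity)

/-- **almost all integers have a good prime factor** -/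
theorem dz_prime {b : ℕ} (hb : 2 ≤ b) : DZ (fun q => ¬ PP b q) := by
  intro ε hε
  -- the exceptional primes
  obtain ⟨s0, hs0⟩ := summable_iff_vanishing_norm.1
    (ex_summable hb (by norm_num : (0 : ℝ) < 0.48) (by norm_num)) (ε / 8) (by linarith)
  obtain ⟨m, hm⟩ := exists_nat_gt (16 / ε)
  set y : ℕ := b + s0.sup id + m with hy
  have hyb : b ≤ y := by omega
  have hys : ∀ p ∈ s0, p ≤ y := fun p hp => by
    have : p ≤ s0.sup id := Finset.le_sup (f := id) hp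
    omega
  have hym : (m : ℝ) ≤ y := by exact_mod_cast (by omega : m ≤ y)
  have hy0 : (0 : ℝ) < y := by exact_mod_cast (by omega : 0 < y)
  have hη : ∀ F : Finset ℕ, (∀ p ∈ F, y < p) → ∑ p ∈ F, ex b 0.48 p ≤ ε / 8 := by
    intro F hF
    have h1 := hs0 F (Finset.disjoint_left.2 fun p hp hp2 => by
      have := hF p hp
      have := hys p hp2
      omega)
    exact (le_abs_self _).trans h1.le
  -- the asymptotic conditions
  have hLt : Tendsto (fun X : ℕ => Real.log X) atTop atTop :=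
    Real.tendsto_log_atTop.comp tendsto_natCast_atTop_atTop
  have hut : Tendsto (fun X : ℕ => Real.log X ^ (1 / 4 : ℝ)) atTop atTop :=
    (tendsto_rpow_atTop (by norm_num)).comp hLt
  have c0 : ∀ᶠ X : ℕ in atTop, 8 / ε ≤ Real.sqrt X :=
    (Real.tendsto_sqrt_atTop.comp tendsto_natCast_atTop_atTop).eventually_ge_atTop _
  have c1 : ∀ᶠ X : ℕ in atTop, 8 * y / ε + 1 ≤ (X : ℝ) ^ ((1 / 8 : ℝ) / y) :=
    ((tendsto_rpow_atTop (by positivity)).comp tendsto_natCast_atTop_atTop).eventually_ge_atTop _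
  have c4 : ∀ᶠ X : ℕ in atTop, 64 / ε + 8 ≤ Real.log X := hLt.eventually_ge_atTop _
  have c6 : ∀ᶠ X : ℕ in atTop,
      256 * Real.log (Real.log X ^ (1 / 4 : ℝ)) ^ 2 ≤ 0.03 * Real.log X ^ (1 / 4 : ℝ) := by
    have h1 := (Real.isLittleO_pow_log_id_atTop (n := 2)).comp_tendsto hut
    have h2 := h1.bound (by norm_num : (0 : ℝ) < 0.03 / 256)
    filter_upwards [h2, hut.eventually_ge_atTop 1] with X hX hX2
    simp only [Function.comp, id] at hX
    rw [Real.norm_eq_abs, Real.norm_eq_abs,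
      abs_of_nonneg (by linarith : 0 ≤ Real.log X ^ (1 / 4 : ℝ))] at hX
    have := (le_abs_self _).trans hX
    linarith
  have c7 : ∀ᶠ X : ℕ in atTop, 7 ≤ Real.log X ^ (1 / 4 : ℝ) := hut.eventually_ge_atTop _
  obtain ⟨X₀, hX₀⟩ := eventually_atTop.1 (c0.and (c1.and (c4.and (c6.and c7))))
  refine ⟨max X₀ 1, fun X hX => ?_⟩
  obtain ⟨d0, d1, d4, d6, d7⟩ := hX₀ X ((le_max_left _ _).trans hX)
  have hX1 : 1 ≤ X := (le_max_right _ _).trans hX
  have hXr : (1 : ℝ) ≤ X := by exact_mod_cast hX1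
  have hX0 : (0 : ℝ) < X := by linarith
  set L := Real.log X with hL
  set u := L ^ (1 / 4 : ℝ) with hu
  have hL8 : 8 ≤ L := by
    have : 0 < 64 / ε := by positivity
    linarith
  have hLε : 64 / ε ≤ L := by linarith
  have hu4 : u ^ 4 = L := by
    rw [hu, ← Real.rpow_natCast, ← Real.rpow_mul (by linarith)]
    norm_num
  have hlogu : Real.log L = 4 * Real.log u := by
    rw [← hu4, Real.log_pow]
    norm_num
  have hlogu0 : 1 ≤ Real.log u := by
    rw [Real.le_log_iff_exp_le (by linarith)]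
    have := Real.exp_one_lt_d9
    linarith
  set Z : ℝ := (X : ℝ) ^ ((1 / 8 : ℝ) / y) with hZ
  have hZ1 : 1 ≤ Z := by
    have : 0 < 8 * y / ε := by positivity
    linarith
  have hZy : Z ^ y = (X : ℝ) ^ (1 / 8 : ℝ) := by
    rw [hZ, ← Real.rpow_natCast, ← Real.rpow_mul hX0.le]
    congr 1
    field_simp
  set G : ℕ := ⌈L ^ 3⌉₊ with hG
  have hG1 : 1 ≤ G := Nat.one_le_ceil_iff.2 (by positivity)
  have hGL : L ^ 3 ≤ G := Nat.le_ceil _
  have hGL2 : (G : ℝ) ≤ L ^ 4 := by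
    have h1 := (Nat.ceil_lt_add_one (by positivity : 0 ≤ L ^ 3)).le
    have h2 : (1 : ℝ) ≤ L ^ 3 := one_le_pow₀ (by linarith)
    have h3 : L ^ 4 = L * L ^ 3 := by ring
    nlinarith
  set W : ℕ := ⌊3 * Real.log L⌋₊ with hW
  have hlogL : 0 ≤ Real.log L := Real.log_nonneg (by linarith)
  have hW1 : (W : ℝ) ≤ 3 * Real.log L := Nat.floor_le (by positivity)
  set Y : ℝ := Real.exp u with hY
  have hY1 : 1 ≤ Y := Real.one_le_exp (by linarith)
  have hYlog : L ≤ Y := by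
    have h1 : Real.log u * 1 ≤ Real.log u * Real.log u :=
      mul_le_mul_of_nonneg_left hlogu0 (by linarith)
    have h2 : Real.log L ≤ u := by
      rw [hlogu]
      have h3 : Real.log u ^ 2 = Real.log u * Real.log u := by ring
      rw [h3] at d6
      linarith
    calc L = Real.exp (Real.log L) := (Real.exp_log (by linarith)).symm
      _ ≤ Real.exp u := Real.exp_le_exp.2 h2
  have hGW : ((G ^ (W + 1) : ℕ) : ℝ) ≤ Y ^ (0.03 : ℝ) := by
    have hG0 : (0 : ℝ) < G := by exact_mod_cast hG1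
    have h2 : Real.log G ≤ 4 * Real.log L := by
      have := Real.log_le_log hG0 hGL2
      rw [Real.log_pow] at this
      exact_mod_cast this
    have h3 : Real.log ((G : ℝ) ^ (W + 1)) ≤ Real.log (Y ^ (0.03 : ℝ)) := by
      rw [Real.log_pow, Real.log_rpow (by positivity), hY, Real.log_exp]
      push_cast
      have h4 : 0 ≤ Real.log G := Real.log_nonneg (by exact_mod_cast hG1)
      calc ((W : ℝ) + 1) * Real.log G ≤ (3 * Real.log L + 1) * (4 * Real.log L) := by gcongr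
        _ ≤ (4 * Real.log L) * (4 * Real.log L) := by
            have : 1 ≤ Real.log L := by linarith
            gcongr
            linarith
        _ = 256 * Real.log u ^ 2 := by
            rw [hlogu]
            ring
        _ ≤ 0.03 * u := d6
    push_cast
    exact (Real.log_le_log_iff (by positivity) (by positivity)).1 h3
  have hYW : Y ^ W ≤ (X : ℝ) ^ (1 / 4 : ℝ) := by
    have h3 : Real.log (Y ^ W) ≤ Real.log ((X : ℝ) ^ (1 / 4 : ℝ)) := by
      rw [Real.log_pow, Real.log_rpow hX0, hY, Real.log_exp, ← hL]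
      have h4 : Real.log u ≤ u := (Real.log_le_sub_one_of_pos (by linarith)).trans (by linarith)
      have h5 : (W : ℝ) ≤ 12 * u := by linarith
      calc (W : ℝ) * u ≤ 12 * u * u := by gcongr
        _ ≤ 1 / 4 * L := by
            rw [← hu4]
            have h6 : 49 ≤ u * u := by nlinarith
            have h7 : u ^ 4 = (u * u) * (u * u) := by ring
            rw [h7]
            nlinarith
    exact (Real.log_le_log_iff (by positivity) (by positivity)).1 h3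
  -- the exceptional events
  have key : ∀ q, 1 ≤ q → q ≤ X → (¬ PP b q) →
      (q ^ 2 ≤ X ∨ (∃ p ∈ Icc 1 y, p.Prime ∧ Z < ((p ^ q.factorization p : ℕ) : ℝ))) ∨
      ((∃ p ∈ Ioo y (X + 1), p ^ 2 ∣ q) ∨ (∃ p ∈ Ioc y X, (p.Prime ∧ ¬ p ∣ b ∧
        (orderOf (b : ZMod p) : ℝ) < (p : ℝ) ^ (0.48 : ℝ)) ∧ p ∣ q)) ∨
      ((L ^ 2 < (q.divisors.card : ℝ) ∨ (∃ d ∈ Icc G X,
        ∃ n ∈ (Icc 2 X).filter (fun n => d ∣ n - 1),
        ∃ n' ∈ (Icc 2 X).filter (fun n => d ∣ n - 1), n * n' ∣ q)) ∨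
        (∃ d ∈ Icc G X, ∃ n ∈ (Icc 2 X).filter (fun n => d ∣ n - 1), n * d ∣ q)) := by
    intro q hq1 hqX hbad
    by_contra hcon
    push Not at hcon
    obtain ⟨⟨e0, e1⟩, ⟨e2, e3⟩, ⟨e4, e5⟩, e6⟩ := hcon
    apply hbad
    have hqr : (1 : ℝ) ≤ q := by exact_mod_cast hq1
    have hq0 : (0 : ℝ) < q := by linarith
    have hle : ∀ p : ℕ, p ∣ q → p ≤ X := fun p hp => (Nat.le_of_dvd hq1 hp).trans hqX
    refine pp_of (b := b) (y := y) (q := q) (G := G) (W := W) (Z := Z) (Y := Y) hb hyb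
      hq1 hG1 hZ1 hY1
      (fun p hp hpy => not_lt.1 fun hlt => by
        have := e1 p (mem_Icc.2 ⟨hp.one_lt.le, hpy⟩) hp
        linarith)
      (fun p hp hpy hdv => e2 p (mem_Ioo.2 ⟨hpy, by
        have := hle p ((dvd_pow_self p two_ne_zero).trans hdv)
        omega⟩) hdv)
      (fun p hp hpy hdv => not_lt.1 fun hlt =>
        e3 p (mem_Ioc.2 ⟨hpy, hle p hdv⟩) ⟨hp, fun hpb => by
          have := Nat.le_of_dvd (by omega) hpb
          omega, hlt⟩ hdv)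
      ?_ ?_ ?_ ?_ ?_ hGW
    · rw [hW]
      apply Nat.le_floor
      have h1 : ((2 ^ q.primeFactors.card : ℕ) : ℝ) ≤ q.divisors.card := by
        exact_mod_cast two_pow_omega (by omega : q ≠ 0)
      have h2 := h1.trans e4
      push_cast at h2
      have h3 := Real.log_le_log (by positivity) h2
      rw [Real.log_pow, Real.log_pow] at h3
      push_cast at h3
      have h4 := Real.log_two_gt_d9
      have h5 : (0 : ℝ) ≤ q.primeFactors.card := Nat.cast_nonneg _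
      nlinarith
    · intro p p' hp hp' hne hpq hpq'
      by_contra hlt
      push Not at hlt
      have hg := Nat.gcd_dvd_left (p - 1) (p' - 1)
      have hg' := Nat.gcd_dvd_right (p - 1) (p' - 1)
      have hp2 := hp.two_le
      have hp2' := hp'.two_le
      have hpX := hle p hpq
      have hpX' := hle p' hpq'
      have hgle := Nat.le_of_dvd (by omega) hg
      refine e5 _ (mem_Icc.2 ⟨hlt.le, by omega⟩) p
        (mem_filter.2 ⟨mem_Icc.2 ⟨hp2, hpX⟩, hg⟩) p'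
        (mem_filter.2 ⟨mem_Icc.2 ⟨hp2', hpX'⟩, hg'⟩) ?_
      exact ((Nat.coprime_primes hp hp').2 hne).mul_dvd_of_dvd_of_dvd hpq hpq'
    · intro p hp hpq d hd hdq
      by_contra hlt
      push Not at hlt
      have hp2 := hp.two_le
      have hpX := hle p hpq
      have hdle := Nat.le_of_dvd (by omega) hd
      exact e6 d (mem_Icc.2 ⟨hlt.le, by omega⟩) p (mem_filter.2 ⟨mem_Icc.2 ⟨hp2, hpX⟩, hd⟩) hdq
    · rw [hZy]
      have h1 : (X : ℝ) < (q : ℝ) ^ 2 := by exact_mod_cast e0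
      have h2 : (X : ℝ) ^ (1 / 2 : ℝ) < q := by
        have h3 := Real.rpow_lt_rpow hX0.le h1 (by norm_num : (0 : ℝ) < 1 / 2)
        rw [← Real.rpow_natCast, ← Real.rpow_mul hq0.le] at h3
        norm_num at h3
        norm_num
        exact h3
      refine lt_of_le_of_lt ?_ h2
      calc Y ^ W * (X : ℝ) ^ (1 / 8 : ℝ) ≤ (X : ℝ) ^ (1 / 4 : ℝ) * (X : ℝ) ^ (1 / 8 : ℝ) := by gcongr
        _ = (X : ℝ) ^ (3 / 8 : ℝ) := by
            rw [← Real.rpow_add hX0]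
            norm_num
        _ ≤ (X : ℝ) ^ (1 / 2 : ℝ) := Real.rpow_le_rpow_of_exponent_le hXr (by norm_num)
    · refine le_trans ?_ hYlog
      exact Real.log_le_log hq0 (by exact_mod_cast hqX)
  refine (cnt_mono key).trans ?_
  have b1 := cnt_or X (fun q => q ^ 2 ≤ X ∨
    (∃ p ∈ Icc 1 y, p.Prime ∧ Z < ((p ^ q.factorization p : ℕ) : ℝ)))
    (fun q => ((∃ p ∈ Ioo y (X + 1), p ^ 2 ∣ q) ∨ (∃ p ∈ Ioc y X, (p.Prime ∧ ¬ p ∣ b ∧
        (orderOf (b : ZMod p) : ℝ) < (p : ℝ) ^ (0.48 : ℝ)) ∧ p ∣ q)) ∨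
      ((L ^ 2 < (q.divisors.card : ℝ) ∨ (∃ d ∈ Icc G X,
        ∃ n ∈ (Icc 2 X).filter (fun n => d ∣ n - 1),
        ∃ n' ∈ (Icc 2 X).filter (fun n => d ∣ n - 1), n * n' ∣ q)) ∨
        (∃ d ∈ Icc G X, ∃ n ∈ (Icc 2 X).filter (fun n => d ∣ n - 1), n * d ∣ q)))
  have b2 := cnt_or X (fun q => q ^ 2 ≤ X)
    (fun q => ∃ p ∈ Icc 1 y, p.Prime ∧ Z < ((p ^ q.factorization p : ℕ) : ℝ))
  have b3 := cnt_or X (fun q => (∃ p ∈ Ioo y (X + 1), p ^ 2 ∣ q) ∨ (∃ p ∈ Ioc y X, (p.Prime ∧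
        ¬ p ∣ b ∧ (orderOf (b : ZMod p) : ℝ) < (p : ℝ) ^ (0.48 : ℝ)) ∧ p ∣ q))
    (fun q => (L ^ 2 < (q.divisors.card : ℝ) ∨ (∃ d ∈ Icc G X,
        ∃ n ∈ (Icc 2 X).filter (fun n => d ∣ n - 1),
        ∃ n' ∈ (Icc 2 X).filter (fun n => d ∣ n - 1), n * n' ∣ q)) ∨
        (∃ d ∈ Icc G X, ∃ n ∈ (Icc 2 X).filter (fun n => d ∣ n - 1), n * d ∣ q))
  have b4 := cnt_or X (fun q => ∃ p ∈ Ioo y (X + 1), p ^ 2 ∣ q)
    (fun q => ∃ p ∈ Ioc y X, (p.Prime ∧ ¬ p ∣ b ∧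
        (orderOf (b : ZMod p) : ℝ) < (p : ℝ) ^ (0.48 : ℝ)) ∧ p ∣ q)
  have b5 := cnt_or X (fun q => L ^ 2 < (q.divisors.card : ℝ) ∨ (∃ d ∈ Icc G X,
        ∃ n ∈ (Icc 2 X).filter (fun n => d ∣ n - 1),
        ∃ n' ∈ (Icc 2 X).filter (fun n => d ∣ n - 1), n * n' ∣ q))
    (fun q => ∃ d ∈ Icc G X, ∃ n ∈ (Icc 2 X).filter (fun n => d ∣ n - 1), n * d ∣ q)
  have b6 := cnt_or X (fun q => L ^ 2 < (q.divisors.card : ℝ))
    (fun q => ∃ d ∈ Icc G X, ∃ n ∈ (Icc 2 X).filter (fun n => d ∣ n - 1),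
        ∃ n' ∈ (Icc 2 X).filter (fun n => d ∣ n - 1), n * n' ∣ q)
  have u0 : cnt X (fun q => q ^ 2 ≤ X) ≤ ε / 8 * X := by
    refine (cnt_sq X).trans ?_
    have h1 : Real.sqrt X * Real.sqrt X = X := Real.mul_self_sqrt hX0.le
    have h2 : 1 ≤ ε / 8 * Real.sqrt X := by
      rw [div_le_iff₀ hε] at d0
      linarith
    calc Real.sqrt X = 1 * Real.sqrt X := (one_mul _).symm
      _ ≤ ε / 8 * Real.sqrt X * Real.sqrt X := by gcongr
      _ = ε / 8 * X := by rw [mul_assoc, h1]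
  have u1 : cnt X (fun q => ∃ p ∈ Icc 1 y, p.Prime ∧ Z < ((p ^ q.factorization p : ℕ) : ℝ)) ≤
      ε / 8 * X := by
    refine (cnt_small X y (by linarith)).trans ?_
    have h1 : (y : ℝ) / Z ≤ ε / 8 := by
      rw [div_le_iff₀ (by linarith)]
      have h2 : 8 * (y : ℝ) / ε ≤ Z := by linarith
      rw [div_le_iff₀ hε] at h2
      linarith
    gcongr
  have u2 : cnt X (fun q => ∃ p ∈ Ioo y (X + 1), p ^ 2 ∣ q) ≤ ε / 8 * X := by
    refine (cnt_square X y).trans ?_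
    have h1 : 2 / ((y : ℝ) + 1) ≤ ε / 8 := by
      rw [div_le_iff₀ (by positivity)]
      rw [div_lt_iff₀ hε] at hm
      have h2 := mul_le_mul_of_nonneg_left hym hε.le
      linarith
    gcongr
  have u3 := cnt_ex X y b 0.48 hη
  have u4 : cnt X (fun q => L ^ 2 < (q.divisors.card : ℝ)) ≤ ε / 8 * X := by
    refine (cnt_tau X hX1 (by positivity)).trans ?_
    have h1 : (1 + L) / L ^ 2 ≤ ε / 8 := by
      rw [div_le_iff₀ (by positivity)]
      rw [div_le_iff₀ hε] at hLε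
      have h2 := mul_le_mul_of_nonneg_right hLε (by linarith : (0 : ℝ) ≤ L)
      have h3 : ε / 8 * L ^ 2 = L * ε * L / 8 := by ring
      rw [h3]
      linarith
    gcongr
  have hG0 : (0 : ℝ) < G := by exact_mod_cast hG1
  have u5 : cnt X (fun q => ∃ d ∈ Icc G X, ∃ n ∈ (Icc 2 X).filter (fun n => d ∣ n - 1),
        ∃ n' ∈ (Icc 2 X).filter (fun n => d ∣ n - 1), n * n' ∣ q) ≤ ε / 8 * X := by
    refine (cnt_pairs X G hG1).trans ?_
    have h1 : 2 * (1 + L) ^ 2 / G ≤ ε / 8 := by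
      have h2 : 2 * (1 + L) ^ 2 / G ≤ 2 * (1 + L) ^ 2 / L ^ 3 :=
        div_le_div_of_nonneg_left (by positivity) (by positivity) hGL
      refine h2.trans ?_
      rw [div_le_iff₀ (by positivity)]
      rw [div_le_iff₀ hε] at hLε
      have h3 : (1 + L) ^ 2 ≤ 2 * L ^ 2 := by nlinarith
      have h4 : ε / 8 * L ^ 3 = (L * ε) / 8 * L ^ 2 := by ring
      rw [h4]
      have h5 : 0 < L ^ 2 := by positivity
      have h6 := mul_le_mul_of_nonneg_right hLε h5.le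
      linarith
    gcongr
  have u6 : cnt X (fun q => ∃ d ∈ Icc G X, ∃ n ∈ (Icc 2 X).filter (fun n => d ∣ n - 1),
      n * d ∣ q) ≤ ε / 8 * X := by
    refine (cnt_dp X G hG1).trans ?_
    have h1 : 2 * (1 + L) / G ≤ ε / 8 := by
      have h2 : 2 * (1 + L) / G ≤ 2 * (1 + L) / L ^ 3 :=
        div_le_div_of_nonneg_left (by positivity) (by positivity) hGL
      refine h2.trans ?_
      rw [div_le_iff₀ (by positivity)]
      rw [div_le_iff₀ hε] at hLε
      have h4 : ε / 8 * L ^ 3 = (L * ε) / 8 * L ^ 2 := by ring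
      rw [h4]
      have h5 : 0 < L ^ 2 := by positivity
      have h6 := mul_le_mul_of_nonneg_right hLε h5.le
      have h7 : 8 * L ≤ L ^ 2 := by nlinarith
      linarith
    gcongr
  have h8 : 0 ≤ ε / 8 * X := by positivity
  linarith

end Pool.Agent.Y943.Fu
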