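import Pool.Agent.Y943.Fu.Dens

/-!
# Orbits modulo one: density of the closure, and irrational numbers near fractions
-/

set_option autoImplicit false

namespace Pool.Agent.Y943.Fu

open Finset Filter Pool.Agent.H332R2.Lit

/-- if the numbers `b ^ n x` come arbitrarily close to all reals modulo one, the closure of the orbit
is the unit interval -/
theorem orb_eq_Icc {b : ℕ} {x : ℝ}
    (h : ∀ ε : ℝ, 0 < ε → ∀ y : ℝ, ∃ n : ℕ, ∃ z : ℤ, |(b : ℝ) ^ n * x - y - z| < ε) :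
    orb b x = Set.Icc 0 1 := by
  apply Set.Subset.antisymm
  · refine closure_minimal ?_ isClosed_Icc
    rintro _ ⟨n, rfl⟩
    exact ⟨Int.fract_nonneg _, (Int.fract_lt_one _).le⟩
  · rw [← closure_Ioo (show (0:ℝ) ≠ 1 by norm_num)]
    refine closure_minimal ?_ isClosed_closure
    intro y hy
    rw [orb, Metric.mem_closure_iff]
    intro ε hε
    obtain ⟨n, z, hn⟩ := h (min ε (min y (1 - y))) (lt_min hε (lt_min hy.1 (by linarith [hy.2]))) y
    have h1 : |(b : ℝ) ^ n * x - y - z| < ε := hn.trans_le (min_le_left _ _)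
    have h2 : |(b : ℝ) ^ n * x - y - z| < y :=
      hn.trans_le ((min_le_right _ _).trans (min_le_left _ _))
    have h3 : |(b : ℝ) ^ n * x - y - z| < 1 - y :=
      hn.trans_le ((min_le_right _ _).trans (min_le_right _ _))
    have h4 : Int.fract ((b : ℝ) ^ n * x) = (b : ℝ) ^ n * x - z := by
      rw [Int.fract_eq_iff]
      rw [abs_lt] at h2 h3
      exact ⟨by linarith [h2.1], by linarith [h3.2], ⟨z, by ring⟩⟩
    refine ⟨_, ⟨n, rfl⟩, ?_⟩
    simp only
    rw [h4, Real.dist_eq, abs_sub_comm]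
    have h5 : (b : ℝ) ^ n * x - z - y = (b : ℝ) ^ n * x - y - z := by ring
    rw [h5]
    exact h1

/-- density from fractions `c / q` close to `x` whose orbits are nearly dense -/
theorem orb_of_fractions {b : ℕ} {x : ℝ}
    (h : ∀ ε : ℝ, 0 < ε → ∃ (c : ℤ) (q N : ℕ),
      (∀ n, n ≤ N → |(b : ℝ) ^ n * (x - c / q)| < ε) ∧
      ∀ y : ℝ, ∃ n : ℕ, n ≤ N ∧ ∃ z : ℤ, |(b : ℝ) ^ n * (c / q) - y - z| < ε) :
    orb b x = Set.Icc 0 1 := by
  refine orb_eq_Icc fun ε hε y => ?_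
  obtain ⟨c, q, N, h1, h2⟩ := h (ε / 2) (by linarith)
  obtain ⟨n, hn, z, hz⟩ := h2 y
  refine ⟨n, z, ?_⟩
  have h3 := h1 n hn
  have h4 : (b : ℝ) ^ n * x - y - z =
      (b : ℝ) ^ n * (x - c / q) + ((b : ℝ) ^ n * (c / q) - y - z) := by ring
  rw [h4]
  refine (abs_add_le _ _).trans_lt ?_
  linarith

/-- an irrational number is not too close to fractions with a small denominator -/
theorem away {x : ℝ} (hx : Irrational x) (Q : ℕ) :
    ∃ η : ℝ, 0 < η ∧ ∀ m : ℕ, 1 ≤ m → m ≤ Q → ∀ p : ℤ, η < |x - p / m| := by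
  induction Q with
  | zero => exact ⟨1, one_pos, fun m h1 h2 => by omega⟩
  | succ Q ih =>
    obtain ⟨η, hη, h⟩ := ih
    have hQ : (0:ℝ) < ((Q + 1 : ℕ) : ℝ) := by positivity
    have hirr : Irrational ((Q + 1 : ℕ) * x) := hx.natCast_mul (by omega)
    have hpos : 0 < |((Q + 1 : ℕ) : ℝ) * x - round (((Q + 1 : ℕ) : ℝ) * x)| := by
      rw [abs_pos, sub_ne_zero]
      exact hirr.ne_int _
    refine ⟨min η (|((Q + 1 : ℕ) : ℝ) * x - round (((Q + 1 : ℕ) : ℝ) * x)| / (Q + 1 : ℕ) / 2),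
      lt_min hη (by positivity), fun m h1 h2 p => ?_⟩
    rcases Nat.lt_or_ge m (Q + 1) with h3 | h3
    · exact (min_le_left _ _).trans_lt (h m h1 (by omega) p)
    · have : m = Q + 1 := by omega
      subst this
      refine (min_le_right _ _).trans_lt ?_
      have h4 := round_le (((Q + 1 : ℕ) : ℝ) * x) p
      have h5 : |x - p / ((Q + 1 : ℕ) : ℝ)| = |((Q + 1 : ℕ) : ℝ) * x - p| / (Q + 1 : ℕ) := by
        rw [eq_div_iff hQ.ne', ← abs_of_pos hQ, ← abs_mul, abs_of_pos hQ]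
        congr 1
        field_simp
      rw [h5]
      have h6 : |((Q + 1 : ℕ) : ℝ) * x - round (((Q + 1 : ℕ) : ℝ) * x)| / (Q + 1 : ℕ) ≤
          |((Q + 1 : ℕ) : ℝ) * x - p| / (Q + 1 : ℕ) := div_le_div_of_nonneg_right h4 hQ.le
      have h7 : 0 < |((Q + 1 : ℕ) : ℝ) * x - round (((Q + 1 : ℕ) : ℝ) * x)| / (Q + 1 : ℕ) := by
        positivity
      linarith

/-- the dimension of a full orbit closure -/
theorem dimH_orb {b : ℕ} {x : ℝ} (h : orb b x = Set.Icc 0 1) : dimH (orb b x) = 1 := by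
  rw [h]
  have h1 : (interior (Set.Icc (0:ℝ) 1)).Nonempty := by
    rw [interior_Icc]
    exact ⟨1 / 2, by norm_num, by norm_num⟩
  have := Real.dimH_of_nonempty_interior h1
  simpa using this

end Pool.Agent.Y943.Fu
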