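import Pool.Agent.Y943.Fu.Sum
import Pool.Agent.Y943.Fu.NT5
import Pool.Agent.Y943.Fu.Gen
import Pool.Agent.Y943.Fu.Orb

/-!
# Dense orbits of fractions with generic denominators
-/

set_option autoImplicit false

namespace Pool.Agent.Y943.Fu

open Finset Filter Topology Pool.Agent.H332R2.Lit

theorem e_frac (p : ℕ) [NeZero p] (j : ℤ) : e ((j : ℝ) / p) = ZMod.stdAddChar ((j : ℤ) : ZMod p) := by
  rw [ZMod.stdAddChar_coe]
  unfold e
  congr 1
  push_cast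
  ring

/-- the exponential sum along the orbit of a fraction -/
theorem orbit_sum {b p r D n₀ h t : ℕ} (hb : 1 ≤ b) [hp : Fact p.Prime] (hr : 1 ≤ r)
    (hpr : ¬ p ∣ r) (hdvd : r ∣ b ^ n₀ * (b ^ D - 1)) (c : ℤ) (hh : ((h : ℤ) : ZMod p) ≠ 0) :
    ‖∑ l ∈ range t, e ((h : ℝ) * ((b : ℝ) ^ (n₀ + D * l) * (c / ((p * r : ℕ) : ℝ))))‖ =
      ‖∑ l ∈ range t, ZMod.stdAddChar (N := p)
        ((h : ZMod p) * c * (b : ZMod p) ^ n₀ * (r : ZMod p)⁻¹ * ((b : ZMod p) ^ D) ^ l)‖ := by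
  have hp0 : (0 : ℝ) < p := by exact_mod_cast hp.out.pos
  have hr0 : (0 : ℝ) < r := by exact_mod_cast hr
  have hrp : (r : ZMod p) ≠ 0 := by
    rwa [ne_eq, ZMod.natCast_eq_zero_iff]
  -- the integers `u l`
  have hu : ∀ l : ℕ, ∃ u : ℤ, (b : ℤ) ^ n₀ * ((b : ℤ) ^ (D * l) - 1) = r * u := by
    intro l
    have h1 : r ∣ b ^ n₀ * (b ^ (D * l) - 1) := by
      refine hdvd.trans (Nat.mul_dvd_mul_left _ ?_)
      have := Nat.sub_dvd_pow_sub_pow (b ^ D) 1 l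
      rwa [one_pow, ← pow_mul] at this
    obtain ⟨u, hu⟩ := h1
    refine ⟨u, ?_⟩
    have h2 : ((b ^ n₀ * (b ^ (D * l) - 1) : ℕ) : ℤ) = ((r * u : ℕ) : ℤ) := by rw [hu]
    rw [Nat.cast_mul, Nat.cast_sub (Nat.one_le_pow _ _ hb)] at h2
    push_cast at h2
    exact h2
  choose u hu using hu
  have hterm : ∀ l ∈ range t, e ((h : ℝ) * ((b : ℝ) ^ (n₀ + D * l) * (c / ((p * r : ℕ) : ℝ)))) =
      (e ((h : ℝ) * ((b : ℝ) ^ n₀ * (c / ((p * r : ℕ) : ℝ)))) *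
        ZMod.stdAddChar (N := p) (-((h : ZMod p) * c * (b : ZMod p) ^ n₀ * (r : ZMod p)⁻¹))) *
      ZMod.stdAddChar (N := p)
        ((h : ZMod p) * c * (b : ZMod p) ^ n₀ * (r : ZMod p)⁻¹ * ((b : ZMod p) ^ D) ^ l) := by
    intro l _
    have h1 : (h : ℝ) * ((b : ℝ) ^ (n₀ + D * l) * (c / ((p * r : ℕ) : ℝ))) =
        (h : ℝ) * ((b : ℝ) ^ n₀ * (c / ((p * r : ℕ) : ℝ))) + ((h * c * u l : ℤ) : ℝ) / p := by
      have h2 : (b : ℝ) ^ n₀ * ((b : ℝ) ^ (D * l) - 1) = r * u l := by exact_mod_cast hu l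
      have h3 : (b : ℝ) ^ (n₀ + D * l) = (b : ℝ) ^ n₀ + r * u l := by
        rw [← h2, pow_add]
        ring
      rw [h3]
      push_cast
      field_simp
    have h4 : ((h * c * u l : ℤ) : ZMod p) =
        -((h : ZMod p) * c * (b : ZMod p) ^ n₀ * (r : ZMod p)⁻¹) +
        (h : ZMod p) * c * (b : ZMod p) ^ n₀ * (r : ZMod p)⁻¹ * ((b : ZMod p) ^ D) ^ l := by
      have h5 : (b : ZMod p) ^ n₀ * ((b : ZMod p) ^ (D * l) - 1) = r * u l := by
        have := congrArg (fun z : ℤ => (z : ZMod p)) (hu l)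
        push_cast at this
        exact this
      have h6 : (u l : ZMod p) = (b : ZMod p) ^ n₀ * ((b : ZMod p) ^ (D * l) - 1) *
          (r : ZMod p)⁻¹ := by
        rw [h5, mul_comm (r : ZMod p), mul_assoc, mul_inv_cancel₀ hrp, mul_one]
      push_cast
      rw [h6, ← pow_mul]
      ring
    rw [h1, e_add', e_frac, h4, AddChar.map_add_eq_mul]
    ring
  rw [sum_congr rfl hterm, ← mul_sum, norm_mul, norm_mul, norm_e', AddChar.norm_apply, one_mul,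
    one_mul]

/-- **dense orbits of fractions** -/
theorem dense_frac {b : ℕ} (hb : 2 ≤ b) {ε : ℝ} (hε : 0 < ε) : ∃ Q₀ : ℕ, ∀ q : ℕ, Q₀ ≤ q →
    PP b q → ∀ c : ℤ, IsCoprime c q → ∀ y : ℝ, ∃ n : ℕ, n ≤ q ∧ ∃ z : ℤ,
      |(b : ℝ) ^ n * (c / q) - y - z| < ε := by
  obtain ⟨K, η, hη, _, hdense⟩ := dense_of_sums ε hε
  obtain ⟨P₀, hP₀⟩ := sum_small η hη
  have hLt : Tendsto (fun q : ℕ => Real.log q) atTop atTop :=
    Real.tendsto_log_atTop.comp tendsto_natCast_atTop_atTop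
  obtain ⟨Q₀, hQ₀⟩ := eventually_atTop.1 (hLt.eventually_ge_atTop ((max P₀ (K + 1) : ℕ) : ℝ))
  refine ⟨Q₀, fun q hq hPP c hc y => ?_⟩
  obtain ⟨p, r, D, n₀, hp, hqpr, hr, hpr, hpb, hlog, hD1, hDr, hn₀, hdvd, hord⟩ := hPP
  have := Fact.mk hp
  have hbig : max P₀ (K + 1) ≤ p := by
    have := (hQ₀ q hq).trans hlog
    exact_mod_cast this
  have hpP : P₀ ≤ p := (le_max_left _ _).trans hbig
  have hpK : K + 1 ≤ p := (le_max_right _ _).trans hbig
  have hp0 : (0 : ℝ) < p := by exact_mod_cast hp.pos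
  set g : ZMod p := (b : ZMod p) ^ D with hg
  have hb0 : (b : ZMod p) ≠ 0 := by rwa [ne_eq, ZMod.natCast_eq_zero_iff]
  have hg0 : g ≠ 0 := pow_ne_zero _ hb0
  have ht1 : 1 ≤ orderOf g := by
    by_contra hcon
    have h0 : orderOf g = 0 := by omega
    rw [h0] at hord
    have : 0 < (p : ℝ) ^ (0.45 : ℝ) := by positivity
    norm_num at hord
    linarith
  have htp : orderOf g ≤ p - 1 := by
    refine Nat.le_of_dvd (Nat.sub_pos_of_lt hp.one_lt) ?_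
    rw [orderOf_dvd_iff_pow_eq_one]
    exact ZMod.pow_card_sub_one_eq_one hg0
  have hcp : ((c : ℤ) : ZMod p) ≠ 0 := by
    rw [ne_eq, ZMod.intCast_zmod_eq_zero_iff_dvd]
    intro hd
    have h1 : IsCoprime (p : ℤ) (p : ℤ) := by
      refine hc.of_isCoprime_of_dvd_left hd |>.of_isCoprime_of_dvd_right ?_
      rw [hqpr]
      push_cast
      exact dvd_mul_right _ _
    rw [isCoprime_self, Int.isUnit_iff] at h1
    have := hp.two_le
    omega
  have hrp : (r : ZMod p) ≠ 0 := by rwa [ne_eq, ZMod.natCast_eq_zero_iff]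
  obtain ⟨l, hl, z, hz⟩ := hdense (orderOf g)
    (fun l => (b : ℝ) ^ (n₀ + D * l) * (c / ((p * r : ℕ) : ℝ))) ht1
    (fun h h1 h2 => by
      have hh : ((h : ℤ) : ZMod p) ≠ 0 := by
        rw [Int.cast_natCast, ne_eq, ZMod.natCast_eq_zero_iff]
        intro hd
        have := Nat.le_of_dvd h1 hd
        omega
      have hh' : (h : ZMod p) ≠ 0 := by
        rwa [Int.cast_natCast] at hh
      rw [orbit_sum (by omega) hr hpr hdvd c hh]
      refine hP₀ p hpP g hg0 ht1 hord _ ?_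
      exact mul_ne_zero (mul_ne_zero (mul_ne_zero hh' hcp) (pow_ne_zero _ hb0)) (inv_ne_zero hrp)) y
  refine ⟨n₀ + D * l, ?_, z, ?_⟩
  · have h1 : D * l ≤ r * (p - 1) := Nat.mul_le_mul hDr (by omega)
    have h2 : r * (p - 1) + r = p * r := by
      have := hp.one_lt
      have h3 : p - 1 + 1 = p := by omega
      calc r * (p - 1) + r = r * (p - 1 + 1) := by ring
        _ = p * r := by rw [h3, mul_comm]
    rw [hqpr]
    omega
  · rw [hqpr]
    exact hz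

/-- **dense orbits of Liouville numbers with generic denominators** -/
theorem generic_dense : ∃ W : ℕ → Prop, DZ W ∧ ∀ x : ℝ,
    (∀ K : ℕ, ∃ q : ℕ, K ≤ q ∧ ¬ W q ∧ ∃ c : ℤ, IsCoprime c q ∧ |x - c / q| ≤ 1 / (q : ℝ) ^ q) →
    ∀ b : ℕ, 2 ≤ b → orb b x = Set.Icc 0 1 := by
  obtain ⟨W, hW, hdiag⟩ := DZ.diag (fun n q => ¬ PP (n + 2) q) (fun n => dz_prime (by omega))
  refine ⟨W, hW, fun x hx b hb => ?_⟩
  obtain ⟨Q₁, hQ₁⟩ := hdiag (b - 2)
  refine orb_of_fractions fun ε hε => ?_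
  obtain ⟨Q₀, hQ₀⟩ := dense_frac hb hε
  -- the closeness
  obtain ⟨m, hm⟩ := exists_nat_gt (1 / ε)
  obtain ⟨q, hq, hWq, c, hc, hclose⟩ := hx (max (max Q₀ Q₁) (b * (m + 2)))
  have g1 : Q₀ ≤ q := ((le_max_left _ _).trans (le_max_left _ _)).trans hq
  have g2 : Q₁ ≤ q := ((le_max_right _ _).trans (le_max_left _ _)).trans hq
  have g3 : b * (m + 2) ≤ q := (le_max_right _ _).trans hq
  have hPP : PP b q := by
    by_contra hcon
    refine hWq (hQ₁ q g2 ?_)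
    rwa [show b - 2 + 2 = b by omega]
  have hq1 : 1 ≤ q := by
    have : 1 ≤ b * (m + 2) := Nat.mul_pos (by omega) (by omega)
    omega
  have hb0 : (0 : ℝ) < b := by exact_mod_cast (by omega : 0 < b)
  have hb1 : (1 : ℝ) ≤ b := by exact_mod_cast (by omega : 1 ≤ b)
  have hq0 : (0 : ℝ) < q := by exact_mod_cast hq1
  refine ⟨c, q, q, fun n hn => ?_, fun y => hQ₀ q g1 hPP c hc y⟩
  rw [abs_mul, abs_of_pos (by positivity : (0 : ℝ) < (b : ℝ) ^ n)]
  have g4 : (b : ℝ) * (m + 2) ≤ q := by exact_mod_cast g3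
  have g5 : ((b : ℝ) * (m + 2)) ^ q ≤ (q : ℝ) ^ q := by gcongr
  calc (b : ℝ) ^ n * |x - c / q| ≤ (b : ℝ) ^ q * (1 / (q : ℝ) ^ q) := by
        gcongr
    _ ≤ (b : ℝ) ^ q * (1 / ((b : ℝ) * (m + 2)) ^ q) := by gcongr
    _ = 1 / ((m : ℝ) + 2) ^ q := by
        rw [mul_pow]
        field_simp
    _ ≤ 1 / ((m : ℝ) + 2) ^ 1 := by
        apply one_div_le_one_div_of_le (by positivity)
        exact pow_le_pow_right₀ (by linarith [(Nat.cast_nonneg m : (0 : ℝ) ≤ m)]) hq1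
    _ < ε := by
        rw [pow_one, div_lt_iff₀ (by positivity)]
        rw [div_lt_iff₀ hε] at hm
        nlinarith

end Pool.Agent.Y943.Fu
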