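import Pool.Agent.Y943.Fu.SmoothCore

/-!
# Orbits of numbers with good approximations by fractions with smooth denominators
-/

set_option autoImplicit false

namespace Pool.Agent.Y943.Fu

open Finset Filter Topology

/-- `exp (C q ^ α - q ^ δ)` is small for `α < δ` -/
theorem exp_small {α δ : ℝ} (hα : 0 < α) (hαδ : α < δ) (C ε : ℝ) (hε : 0 < ε) :
    ∀ᶠ q : ℕ in atTop, Real.exp (C * (q : ℝ) ^ α - (q : ℝ) ^ δ) < ε := by
  have h1 : Tendsto (fun q : ℕ => (q : ℝ) ^ (δ - α)) atTop atTop :=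
    (tendsto_rpow_atTop (by linarith)).comp tendsto_natCast_atTop_atTop
  have h2 : Tendsto (fun q : ℕ => Real.exp (-((q : ℝ) ^ α))) atTop (𝓝 0) :=
    Real.tendsto_exp_neg_atTop_nhds_zero.comp
      ((tendsto_rpow_atTop hα).comp tendsto_natCast_atTop_atTop)
  filter_upwards [h1.eventually (eventually_ge_atTop (C + 1)), h2.eventually (gt_mem_nhds hε),
    eventually_ge_atTop 1] with q hq1 hq2 hq3
  refine lt_of_le_of_lt (Real.exp_le_exp.2 ?_) hq2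
  have hq0 : (0:ℝ) < q := by exact_mod_cast hq3
  have h3 : (q : ℝ) ^ δ = (q : ℝ) ^ (δ - α) * (q : ℝ) ^ α := by
    rw [← Real.rpow_add hq0]; congr 1; ring
  rw [h3]
  have h4 : 0 < (q : ℝ) ^ α := Real.rpow_pos_of_pos hq0 _
  nlinarith

/-- approximations in lowest terms -/
theorem lowest {x : ℝ} (hx : Irrational x) (S : ℕ → Prop)
    (hS : ∀ q q' : ℕ, q' ∣ q → S q → S q') (f : ℕ → ℝ) (hf : Antitone f)
    (hf0 : Tendsto f atTop (𝓝 0))
    (h : ∀ Q : ℕ, ∃ q : ℕ, Q ≤ q ∧ S q ∧ ∃ c : ℤ, |x - c / q| ≤ f q) (Q : ℕ) :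
    ∃ q : ℕ, Q ≤ q ∧ 1 ≤ q ∧ S q ∧ ∃ c : ℤ, IsCoprime c (q : ℤ) ∧ |x - c / q| ≤ f q := by
  obtain ⟨η, hη, haw⟩ := away hx Q
  obtain ⟨Q1, hQ1⟩ := eventually_atTop.1 (hf0.eventually (gt_mem_nhds hη))
  obtain ⟨q, hq, hqs, p, hp⟩ := h (max Q1 1)
  have hq1 : 1 ≤ q := (le_max_right _ _).trans hq
  set d : ℕ := Int.gcd p q with hd
  have hd0 : 0 < d := Int.gcd_pos_of_ne_zero_right _ (by exact_mod_cast (by omega : q ≠ 0))
  obtain ⟨q', hq'⟩ : d ∣ q := by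
    have := Int.gcd_dvd_right p (q : ℤ)
    exact_mod_cast this
  obtain ⟨p', hp'⟩ : (d : ℤ) ∣ p := Int.gcd_dvd_left p (q : ℤ)
  have hq'1 : 1 ≤ q' := by
    rcases Nat.eq_zero_or_pos q' with h0 | h0
    · rw [h0] at hq'; omega
    · exact h0
  have hdr : (0:ℝ) < d := by exact_mod_cast hd0
  have hq'r : (0:ℝ) < q' := by exact_mod_cast hq'1
  have heq : (p : ℝ) / q = p' / q' := by
    rw [hp', hq']
    push_cast
    field_simp
  have hqq : q' ≤ q := by rw [hq']; exact Nat.le_mul_of_pos_left _ hd0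
  rw [heq] at hp
  refine ⟨q', ?_, hq'1, hS q q' ⟨d, by rw [hq']; ring⟩ hqs, p', ?_, hp.trans (hf hqq)⟩
  · by_contra hlt
    push Not at hlt
    have h1 := haw q' hq'1 hlt.le p'
    have h2 := hQ1 q ((le_max_left _ _).trans hq)
    linarith
  · rw [Int.isCoprime_iff_gcd_eq_one]
    have h1 : Int.gcd p q = d * Int.gcd p' q' := by
      rw [hp', hq']; push_cast
      rw [Int.gcd_mul_left]; simp
    have h2 : d * 1 = d * Int.gcd p' q' := by rw [mul_one, ← h1]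
    exact (Nat.eq_of_mul_eq_mul_left hd0 h2).symm

/-- the powers of `b` modulo a smooth number `q`: exponents up to `R q ^ (2 / (d + 2))` -/
theorem smooth_core {b s : ℕ} (hb : 2 ≤ b) (hs1 : 1 ≤ s) (hsb : Nat.Coprime b s) (d : ℕ) (ε : ℝ)
    (hε : 0 < ε) : ∃ (R : ℝ) (Q : ℕ), 0 ≤ R ∧ ∀ q : ℕ, Q ≤ q → 1 ≤ q →
      (∀ p : ℕ, p.Prime → p ∣ q → p ∣ s) → ∀ c : ℤ, IsCoprime c (q : ℤ) →
      ∃ N : ℕ, (N : ℝ) ≤ R * (q : ℝ) ^ (2 / ((d : ℝ) + 2)) ∧ ∀ y : ℝ, ∃ n : ℕ, n ≤ N ∧ ∃ z : ℤ,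
        |(b : ℝ) ^ n * (c / q) - y - z| < ε := by
  obtain ⟨T, hT1, hT⟩ := one_modulus d ε hε
  set t : ℕ := Nat.totient (s ^ 2) with ht
  have ht0 : 0 < t := Nat.totient_pos.2 (by positivity)
  set B : ℕ := b ^ t with hBdef
  have hB2 : 2 ≤ B := hb.trans (Nat.le_self_pow ht0.ne' b)
  have hdvd : s ^ 2 ∣ B - 1 := by
    have h1 : b ^ t ≡ 1 [MOD s ^ 2] := Nat.ModEq.pow_totient (hsb.pow_right 2)
    exact (Nat.modEq_iff_dvd' (by omega)).1 h1.symm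
  have hcast : ((B - 1 : ℕ) : ℤ) = (B : ℤ) - 1 := by
    rw [Nat.cast_sub (by omega)]; push_cast; ring
  have hBp : ∀ p : ℕ, p.Prime → p ∣ s → (p : ℤ) ∣ (B : ℤ) - 1 := by
    intro p _ hps
    rw [← hcast]
    exact Int.natCast_dvd_natCast.2 ((hps.trans (dvd_pow_self s two_ne_zero)).trans hdvd)
  have hB4 : 2 ∣ s → (4 : ℤ) ∣ (B : ℤ) - 1 := by
    intro h2
    rw [← hcast]
    have : 4 ∣ s ^ 2 := by
      obtain ⟨u, rfl⟩ := h2
      exact ⟨u ^ 2, by ring⟩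
    exact_mod_cast this.trans hdvd
  have hBB : (2 : ℤ) ≤ (B : ℤ) := by exact_mod_cast hB2
  refine ⟨t * T * (s : ℝ) ^ 2, T ^ (d + 2) * (B - 1) ^ ((d + 1) * (d + 2)) * s ^ ((d + 2) * (d + 1)) + 1,
    by positivity, fun q hqQ hq1 hqs c hco => ?_⟩
  obtain ⟨M, hM1, hM2, hM3⟩ := exists_root (d + 2) s (by omega) hs1 q hq1 hqs
  set A : ℤ := (B : ℤ) ^ M - 1 with hA
  have hqA : (q : ℤ) ∣ A ^ (d + 2) := by
    rw [hA, dvd_iff_smooth hBB hBp hB4 hqs, mul_pow]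
    exact (by exact_mod_cast hM2 : (q : ℤ) ∣ (M : ℤ) ^ (d + 2)).mul_left _
  set g : ℕ := Int.gcd q (A ^ (d + 1)) with hg
  have hg0 : 0 < g := Int.gcd_pos_of_ne_zero_left _ (by exact_mod_cast (by omega : q ≠ 0))
  obtain ⟨D, hD⟩ : g ∣ q := by
    have := Int.gcd_dvd_left (q : ℤ) (A ^ (d + 1))
    exact_mod_cast this
  have hgA : (g : ℤ) ∣ A ^ (d + 1) := Int.gcd_dvd_right (q : ℤ) (A ^ (d + 1))
  have hgs : ∀ p : ℕ, p.Prime → p ∣ g → p ∣ s := fun p hp hpg =>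
    hqs p hp (hpg.trans ⟨D, hD⟩)
  have hD1 : 1 ≤ D := by
    rcases Nat.eq_zero_or_pos D with h0 | h0
    · rw [h0] at hD; omega
    · exact h0
  -- the size of `g`
  have hgle : g ≤ ((B - 1) * M) ^ (d + 1) := by
    have h1 : (g : ℤ) ∣ (((B : ℤ) - 1) * M) ^ (d + 1) := by
      rw [← dvd_iff_smooth hBB hBp hB4 hgs]; exact hgA
    rw [← hcast] at h1
    have h2 : g ∣ ((B - 1) * M) ^ (d + 1) := by exact_mod_cast h1
    refine Nat.le_of_dvd ?_ h2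
    have : 0 < B - 1 := by omega
    positivity
  have hTD : T ≤ D := by
    by_contra hlt
    push Not at hlt
    have h1 : q ^ (d + 2) ≤ (T * ((B - 1) * M) ^ (d + 1)) ^ (d + 2) := by
      refine Nat.pow_le_pow_left ?_ _
      rw [hD, mul_comm g D]
      exact Nat.mul_le_mul hlt.le hgle
    have h2 : (T * ((B - 1) * M) ^ (d + 1)) ^ (d + 2) =
        T ^ (d + 2) * (B - 1) ^ ((d + 1) * (d + 2)) * (M ^ (d + 2)) ^ (d + 1) := by
      rw [mul_pow, ← pow_mul, mul_pow, ← pow_mul M]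
      ring_nf
    have h3 : (M ^ (d + 2)) ^ (d + 1) ≤ (q * s ^ (d + 2)) ^ (d + 1) := Nat.pow_le_pow_left hM3 _
    have h4 : (q * s ^ (d + 2)) ^ (d + 1) = q ^ (d + 1) * s ^ ((d + 2) * (d + 1)) := by
      rw [mul_pow, ← pow_mul]
    have h5 : q ^ (d + 1) * q ≤ q ^ (d + 1) *
        (T ^ (d + 2) * (B - 1) ^ ((d + 1) * (d + 2)) * s ^ ((d + 2) * (d + 1))) := by
      calc q ^ (d + 1) * q = q ^ (d + 2) := by ring
        _ ≤ _ := h1
        _ = _ := h2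
        _ ≤ T ^ (d + 2) * (B - 1) ^ ((d + 1) * (d + 2)) *
            (q ^ (d + 1) * s ^ ((d + 2) * (d + 1))) := by
            rw [← h4]; exact Nat.mul_le_mul_left _ h3
        _ = _ := by ring
    have h6 := Nat.le_of_mul_le_mul_left h5 (by positivity)
    omega
  have hDM : D ≤ M := by
    have h1 : Nat.gcd q (M ^ (d + 1)) ∣ g := by
      have h2 : ((Nat.gcd q (M ^ (d + 1)) : ℕ) : ℤ) ∣ A ^ (d + 1) := by
        rw [hA, dvd_iff_smooth hBB hBp hB4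
          (fun p hp hpg => hqs p hp (hpg.trans (Nat.gcd_dvd_left _ _))), mul_pow]
        exact (by exact_mod_cast Nat.gcd_dvd_right q (M ^ (d + 1)) :
          ((Nat.gcd q (M ^ (d + 1)) : ℕ) : ℤ) ∣ (M : ℤ) ^ (d + 1)).mul_left _
      have h3 : ((Nat.gcd q (M ^ (d + 1)) : ℕ) : ℤ) ∣ (q : ℤ) := by
        exact_mod_cast Nat.gcd_dvd_left q (M ^ (d + 1))
      have h4 := Int.dvd_coe_gcd h3 h2
      exact_mod_cast h4
    have h2 : q ∣ M * Nat.gcd q (M ^ (d + 1)) := by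
      rw [← Nat.gcd_mul_left]
      refine Nat.dvd_gcd (Dvd.intro_left M rfl) ?_
      have : M * M ^ (d + 1) = M ^ (d + 2) := by ring
      rw [this]
      exact hM2
    have h3 : g * D ∣ M * g := by
      rw [← hD]
      exact h2.trans (Nat.mul_dvd_mul_left _ h1)
    have h4 : g * D ≤ M * g := Nat.le_of_dvd (Nat.mul_pos hM1 hg0) h3
    rw [mul_comm M g] at h4
    exact Nat.le_of_mul_le_mul_left h4 hg0
  have hgz : (g : ℤ) ≠ 0 := by exact_mod_cast hg0.ne'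
  have hcop : IsCoprime (c * (A ^ (d + 1) / (g : ℤ))) (D : ℤ) := by
    refine IsCoprime.mul_left ?_ ?_
    · have h1 : (q : ℤ) = D * g := by rw [hD]; push_cast; ring
      rw [h1] at hco
      exact hco.of_mul_right_left
    · rw [Int.isCoprime_iff_gcd_eq_one]
      have h1 : (D : ℤ) = (q : ℤ) / g := by
        rw [hD]; push_cast
        rw [Int.mul_ediv_cancel_left _ hgz]
      rw [h1, Int.gcd_comm]
      exact Int.gcd_ediv_gcd_ediv_gcd (by exact_mod_cast hg0)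
  have hfinal := hT A q D c g hq1 hTD hqA (by rw [hD]; push_cast; ring) hgA hcop
  refine ⟨t * M * (T * D), ?_, fun y => ?_⟩
  · -- size of `N`
    have hk : (0:ℝ) < (d:ℝ) + 2 := by positivity
    have hMr : (M:ℝ) ≤ s * (q:ℝ) ^ (1 / ((d:ℝ) + 2)) := by
      have h1 : ((M:ℝ) ^ (d + 2)) ≤ q * (s:ℝ) ^ (d + 2) := by exact_mod_cast hM3
      have h2 : ((M:ℝ) ^ (d + 2)) ^ (1 / ((d:ℝ) + 2)) = M := by
        rw [← Real.rpow_natCast, ← Real.rpow_mul (Nat.cast_nonneg M)]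
        push_cast
        rw [mul_one_div, div_self hk.ne', Real.rpow_one]
      have h3 : ((s:ℝ) ^ (d + 2)) ^ (1 / ((d:ℝ) + 2)) = s := by
        rw [← Real.rpow_natCast, ← Real.rpow_mul (Nat.cast_nonneg s)]
        push_cast
        rw [mul_one_div, div_self hk.ne', Real.rpow_one]
      calc (M:ℝ) = ((M:ℝ) ^ (d + 2)) ^ (1 / ((d:ℝ) + 2)) := h2.symm
        _ ≤ (q * (s:ℝ) ^ (d + 2)) ^ (1 / ((d:ℝ) + 2)) :=
            Real.rpow_le_rpow (by positivity) h1 (by positivity)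
        _ = s * (q:ℝ) ^ (1 / ((d:ℝ) + 2)) := by
            rw [Real.mul_rpow (by positivity) (by positivity), h3, mul_comm]
    have hsq : (q:ℝ) ^ (2 / ((d:ℝ) + 2)) = ((q:ℝ) ^ (1 / ((d:ℝ) + 2))) ^ 2 := by
      rw [← Real.rpow_natCast, ← Real.rpow_mul (Nat.cast_nonneg q)]
      congr 1
      push_cast
      ring
    rw [hsq]
    push_cast
    have hDM' : (D:ℝ) ≤ M := by exact_mod_cast hDM
    have hM0 : (0:ℝ) ≤ M := Nat.cast_nonneg _
    calc (t:ℝ) * M * (T * D) ≤ t * M * (T * M) := by gcongr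
      _ = t * T * (M:ℝ) ^ 2 := by ring
      _ ≤ t * T * (s * (q:ℝ) ^ (1 / ((d:ℝ) + 2))) ^ 2 := by gcongr
      _ = _ := by ring
  · obtain ⟨l, hl, z, hz⟩ := hfinal y
    refine ⟨t * M * l, Nat.mul_le_mul_left _ hl.le, z, ?_⟩
    have h1 : (b : ℝ) ^ (t * M * l) = ((1 + A : ℤ) : ℝ) ^ l := by
      rw [hA]
      push_cast
      rw [add_sub_cancel, pow_mul, pow_mul, hBdef]
      push_cast
      ring
    rw [h1]
    exact hz

/-- **Smooth denominators.** -/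
theorem smooth_orbit {b s : ℕ} (hb : 2 ≤ b) (hs1 : 1 ≤ s) (hsb : Nat.Coprime b s) {x : ℝ}
    (hx : Irrational x) {δ : ℝ} (hδ : 0 < δ)
    (h : ∀ Q : ℕ, ∃ q : ℕ, Q ≤ q ∧ (∀ p : ℕ, p.Prime → p ∣ q → p ∣ s) ∧
      ∃ c : ℤ, |x - c / q| ≤ Real.exp (-(q : ℝ) ^ δ)) :
    orb b x = Set.Icc 0 1 := by
  obtain ⟨d, hd⟩ := exists_nat_gt (2 / δ)
  have hd2 : 2 / ((d:ℝ) + 2) < δ := by
    rw [div_lt_iff₀ (by positivity)]
    rw [div_lt_iff₀ hδ] at hd
    nlinarith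
  have hα : 0 < 2 / ((d:ℝ) + 2) := by positivity
  have hlow := lowest hx (fun q => ∀ p : ℕ, p.Prime → p ∣ q → p ∣ s)
    (fun q q' hqq hq p hp hpq => hq p hp (hpq.trans hqq)) (fun q => Real.exp (-(q : ℝ) ^ δ))
    (fun m n hmn => Real.exp_le_exp.2 (neg_le_neg
      (Real.rpow_le_rpow (Nat.cast_nonneg _) (by exact_mod_cast hmn) hδ.le)))
    (Real.tendsto_exp_neg_atTop_nhds_zero.comp
      ((tendsto_rpow_atTop hδ).comp tendsto_natCast_atTop_atTop)) h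
  refine orb_of_fractions fun ε hε => ?_
  obtain ⟨R, Q, hR, hcore⟩ := smooth_core hb hs1 hsb d ε hε
  obtain ⟨Q2, hQ2⟩ := eventually_atTop.1 (exp_small hα hd2 (R * Real.log b) ε hε)
  obtain ⟨q, hq, hq1, hqs, c, hco, hc⟩ := hlow (max Q Q2)
  obtain ⟨N, hN, hN2⟩ := hcore q ((le_max_left _ _).trans hq) hq1 hqs c hco
  refine ⟨c, q, N, fun n hn => ?_, hN2⟩
  have hbr : (1:ℝ) ≤ b := by exact_mod_cast (by omega : 1 ≤ b)
  have hb0 : (0:ℝ) < b := by linarith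
  rw [abs_mul, abs_of_pos (by positivity : (0:ℝ) < (b:ℝ) ^ n)]
  calc (b:ℝ) ^ n * |x - c / q| ≤ (b:ℝ) ^ N * Real.exp (-(q : ℝ) ^ δ) := by
        gcongr
    _ = Real.exp (Real.log b * N - (q:ℝ) ^ δ) := by
        rw [sub_eq_add_neg, Real.exp_add, ← Real.exp_log hb0, ← Real.exp_nat_mul, Real.log_exp]
        ring_nf
    _ ≤ Real.exp (R * Real.log b * (q:ℝ) ^ (2 / ((d:ℝ) + 2)) - (q:ℝ) ^ δ) := by
        apply Real.exp_le_exp.2
        have hl : 0 ≤ Real.log b := Real.log_nonneg hbr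
        have := mul_le_mul_of_nonneg_left hN hl
        linarith
    _ < ε := hQ2 q ((le_max_right _ _).trans hq)

end Pool.Agent.Y943.Fu
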