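import Pool.Agent.H332R2.Lit.Glas

/-!
# Density of a sequence modulo one from exponential sums, and orbits modulo one
-/

set_option autoImplicit false

namespace Pool.Agent.Y943.Fu

open Finset Pool.Agent.H332R2.Lit

/-- the closure of the orbit of `x` under `x ↦ b x mod 1` -/
def orb (b : ℕ) (x : ℝ) : Set ℝ :=
  closure (Set.range (fun n : ℕ => Int.fract ((b : ℝ) ^ n * x)))

theorem e_add' (x y : ℝ) : e (x + y) = e x * e y := by
  unfold e
  rw [← Complex.exp_add]
  congr 1
  push_cast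
  ring

theorem norm_e' (x : ℝ) : ‖e x‖ = 1 := by
  unfold e
  have : (2 * Real.pi * x * Complex.I : ℂ) = ((2 * Real.pi * x : ℝ) : ℂ) * Complex.I := by
    push_cast; ring
  rw [this, Complex.norm_exp_ofReal_mul_I]

theorem conj_e' (x : ℝ) : (starRingEnd ℂ) (e x) = e (-x) := by
  unfold e
  rw [← Complex.exp_conj]
  congr 1
  rw [map_mul, map_mul, map_mul, Complex.conj_ofReal, Complex.conj_ofReal, Complex.conj_I,
    Complex.conj_ofNat]
  push_cast
  ring

theorem e_int' (k : ℤ) : e k = 1 := by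
  unfold e
  rw [Complex.exp_eq_one_iff]
  exact ⟨k, by push_cast; ring⟩

theorem e_nat_mul' (n : ℕ) (x : ℝ) : e (n * x) = e x ^ n := by
  unfold e
  rw [← Complex.exp_nat_mul]
  congr 1
  push_cast
  ring

theorem e_eq_of_int (x y : ℝ) (z : ℤ) (h : x = y + z) : e x = e y := by
  rw [h, e_add', e_int', mul_one]

theorem e_periodic {x y : ℝ} (h : ∃ z : ℤ, x - y = z) : e x = e y := by
  obtain ⟨z, hz⟩ := h
  exact e_eq_of_int x y z (by linarith)

/-- `|1 + e x|² = 4 cos² (π x)` is at most `4 (1 - 4 ε²)` if `x` is at distance at least `ε` from the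
integers -/
theorem norm_one_add_e {x ε : ℝ} (hε : 0 ≤ ε) (h : ∀ z : ℤ, ε ≤ |x - z|) :
    ‖1 + e x‖ ^ 2 ≤ 4 * (1 - 4 * ε ^ 2) := by
  set y : ℝ := x - round x with hy
  have h1 : e x = e y := e_eq_of_int x y (round x) (by rw [hy]; ring)
  have h2 : ε ≤ |y| := h (round x)
  have h3 : |y| ≤ 1 / 2 := abs_sub_round x
  have h4 : ‖1 + e y‖ ^ 2 = 4 * Real.cos (Real.pi * y) ^ 2 := by
    rw [← Complex.normSq_eq_norm_sq]
    unfold e
    have h5 : (2 * Real.pi * y * Complex.I : ℂ) = ((2 * Real.pi * y : ℝ) : ℂ) * Complex.I := by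
      push_cast; ring
    rw [h5, Complex.exp_mul_I, Complex.normSq_apply, ← Complex.ofReal_cos, ← Complex.ofReal_sin]
    simp only [Complex.add_re, Complex.one_re, Complex.ofReal_re, Complex.mul_re, Complex.I_re,
      mul_zero, Complex.ofReal_im, Complex.I_im, mul_one, sub_self, add_zero, Complex.add_im,
      Complex.one_im, Complex.mul_im, zero_add]
    have h6 : Real.cos (2 * Real.pi * y) = 2 * Real.cos (Real.pi * y) ^ 2 - 1 := by
      rw [mul_assoc, Real.cos_two_mul]
    have h7 := Real.sin_sq_add_cos_sq (2 * Real.pi * y)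
    nlinarith [h6, h7]
  rw [h1, h4]
  have h5 : 2 * |y| ≤ |Real.sin (Real.pi * y)| := by
    have h6 := Real.mul_le_sin (x := Real.pi * |y|) (by positivity)
      (by nlinarith [Real.pi_pos])
    have h7 : 2 / Real.pi * (Real.pi * |y|) = 2 * |y| := by
      field_simp
    rw [h7] at h6
    rcases abs_cases y with ⟨h8, _⟩ | ⟨h8, _⟩
    · rw [h8] at h6 ⊢
      exact h6.trans (le_abs_self _)
    · rw [h8] at h6 ⊢
      have h9 : Real.pi * -y = -(Real.pi * y) := by ring
      rw [h9, Real.sin_neg] at h6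
      exact h6.trans (neg_le_abs _)
  have h6 := Real.sin_sq_add_cos_sq (Real.pi * y)
  have h7 : (2 * ε) ^ 2 ≤ Real.sin (Real.pi * y) ^ 2 := by
    rw [← sq_abs (Real.sin (Real.pi * y))]
    exact pow_le_pow_left₀ (by positivity) (by linarith) 2
  nlinarith

/-- **Density from exponential sums.** -/
theorem dense_of_sums (ε : ℝ) (hε : 0 < ε) : ∃ (K : ℕ) (η : ℝ), 0 < η ∧ η ≤ 1 ∧
    ∀ (N : ℕ) (x : ℕ → ℝ), 1 ≤ N →
      (∀ h : ℕ, 1 ≤ h → h ≤ K → ‖∑ l ∈ range N, e ((h : ℝ) * x l)‖ ≤ η * N) →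
      ∀ y : ℝ, ∃ l, l < N ∧ ∃ z : ℤ, |x l - y - z| < ε := by
  by_cases hε2 : 1 < ε
  · refine ⟨0, 1, one_pos, le_rfl, fun N x hN _ y => ⟨0, by omega, round (x 0 - y), ?_⟩⟩
    have := abs_sub_round (x 0 - y)
    linarith
  push Not at hε2
  -- choice of `K`
  set ε' : ℝ := min ε (1 / 2) with hε'
  have hε'0 : 0 < ε' := lt_min hε (by norm_num)
  have hε'2 : ε' ≤ 1 / 2 := min_le_right _ _
  set r : ℝ := 1 - 4 * (ε' / 2) ^ 2 with hr
  have hr0 : 0 ≤ r := by rw [hr]; nlinarith
  have hr1 : r < 1 := by rw [hr]; nlinarith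
  have hlim := tendsto_self_mul_const_pow_of_lt_one hr0 hr1
  have hev := (hlim.eventually (gt_mem_nhds (show (0:ℝ) < 1 / 4 by norm_num))).and
    (Filter.eventually_ge_atTop 1)
  obtain ⟨K, hK, hK1⟩ := hev.exists
  have hKr : (1:ℝ) ≤ K := by exact_mod_cast hK1
  refine ⟨K, 1 / (4 * K), by positivity, ?_, fun N x hN hx y => ?_⟩
  · rw [div_le_one (by positivity)]; linarith
  have hNr : (1:ℝ) ≤ N := by exact_mod_cast hN
  by_contra hcon
  push Not at hcon
  have hfar : ∀ l, l < N → ∀ z : ℤ, ε' / 2 ≤ |x l - y - z| := by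
    intro l hl z
    have h1 := hcon l hl z
    have h2 : ε' ≤ ε := min_le_left _ _
    linarith
  -- upper bound
  have hup : ∑ l ∈ range N, (‖1 + e (x l - y)‖ ^ 2) ^ K ≤ N * (4 ^ K * r ^ K) := by
    calc ∑ l ∈ range N, (‖1 + e (x l - y)‖ ^ 2) ^ K ≤ ∑ l ∈ range N, (4 ^ K * r ^ K) := by
          refine sum_le_sum fun l hl => ?_
          rw [← mul_pow]
          refine pow_le_pow_left₀ (by positivity) ?_ K
          exact norm_one_add_e (by positivity) (hfar l (mem_range.1 hl))
      _ = _ := by rw [sum_const, card_range, nsmul_eq_mul]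
  -- expansion
  have hexp : ∀ t : ℝ, (((‖1 + e t‖ ^ 2) ^ K : ℝ) : ℂ) =
      ∑ i ∈ range (K + 1), ∑ j ∈ range (K + 1),
        ((K.choose i : ℂ) * (K.choose j : ℂ)) * e (((i : ℝ) - j) * t) := by
    intro t
    have h1 : ((‖1 + e t‖ ^ 2 : ℝ) : ℂ) = (e t + 1) * (e (-t) + 1) := by
      have h2 := Complex.mul_conj' (1 + e t)
      rw [map_add, map_one, conj_e'] at h2
      push_cast
      rw [← h2]
      ring
    push_cast at h1 ⊢
    rw [h1, mul_pow, add_pow, add_pow, sum_mul_sum]
    refine sum_congr rfl fun i hi => sum_congr rfl fun j hj => ?_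
    rw [one_pow, one_pow, ← e_nat_mul', ← e_nat_mul']
    have h3 : e (((i : ℝ) - j) * t) = e (i * t) * e (j * (-t)) := by
      rw [← e_add']; congr 1; ring
    rw [h3]
    ring
  have hsum : ((∑ l ∈ range N, (‖1 + e (x l - y)‖ ^ 2) ^ K : ℝ) : ℂ) =
      ∑ i ∈ range (K + 1), ∑ j ∈ range (K + 1),
        ((K.choose i : ℂ) * (K.choose j : ℂ)) *
          ∑ l ∈ range N, e (((i : ℝ) - j) * (x l - y)) := by
    rw [Complex.ofReal_sum, sum_congr rfl fun l _ => hexp (x l - y), sum_comm]
    refine sum_congr rfl fun i _ => ?_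
    rw [sum_comm]
    refine sum_congr rfl fun j _ => ?_
    rw [mul_sum]
  -- the diagonal
  have hdiag : ∀ i j : ℕ, i ≤ K → j ≤ K → i ≠ j →
      ‖∑ l ∈ range N, e (((i : ℝ) - j) * (x l - y))‖ ≤ 1 / (4 * K) * N := by
    have key : ∀ i j : ℕ, i ≤ K → j < i →
        ‖∑ l ∈ range N, e (((i : ℝ) - j) * (x l - y))‖ ≤ 1 / (4 * K) * N := by
      intro i j hi hj
      have h1 : ∑ l ∈ range N, e (((i : ℝ) - j) * (x l - y)) =
          e (-(((i : ℝ) - j) * y)) * ∑ l ∈ range N, e (((i - j : ℕ) : ℝ) * x l) := by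
        rw [mul_sum]
        refine sum_congr rfl fun l _ => ?_
        rw [← e_add']
        congr 1
        rw [Nat.cast_sub hj.le]
        ring
      rw [h1, norm_mul, norm_e', one_mul]
      exact hx (i - j) (by omega) (by omega)
    intro i j hi hj hij
    rcases Nat.lt_or_ge j i with h | h
    · exact key i j hi h
    · have h1 : ∑ l ∈ range N, e (((i : ℝ) - j) * (x l - y)) =
          (starRingEnd ℂ) (∑ l ∈ range N, e (((j : ℝ) - i) * (x l - y))) := by
        rw [map_sum]
        refine sum_congr rfl fun l _ => ?_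
        rw [conj_e']
        congr 1
        ring
      rw [h1, RCLike.norm_conj]
      exact key j i hj (by omega)
  -- lower bound
  have hlow : (N : ℝ) * (Nat.centralBinom K : ℝ) - 1 / (4 * K) * N * 4 ^ K ≤
      ∑ l ∈ range N, (‖1 + e (x l - y)‖ ^ 2) ^ K := by
    have h1 : ‖(((∑ l ∈ range N, (‖1 + e (x l - y)‖ ^ 2) ^ K : ℝ) : ℂ)) -
        ((N : ℝ) * (Nat.centralBinom K : ℝ) : ℝ)‖ ≤ 1 / (4 * K) * N * 4 ^ K := by
      have h2 : (((N : ℝ) * (Nat.centralBinom K : ℝ) : ℝ) : ℂ) =
          ∑ i ∈ range (K + 1), ∑ j ∈ range (K + 1),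
            ((K.choose i : ℂ) * (K.choose j : ℂ)) * (if i = j then (N : ℂ) else 0) := by
        have h3 : ∀ i ∈ range (K + 1), ∑ j ∈ range (K + 1),
            ((K.choose i : ℂ) * (K.choose j : ℂ)) * (if i = j then (N : ℂ) else 0) =
            ((K.choose i : ℂ) * (K.choose i : ℂ)) * N := by
          intro i hi
          rw [sum_eq_single i]
          · rw [if_pos rfl]
          · intro j _ hj
            rw [if_neg (Ne.symm hj), mul_zero]
          · intro h; exact absurd hi h
        rw [sum_congr rfl h3, ← sum_mul]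
        have h4 : ∑ i ∈ range (K + 1), (K.choose i : ℂ) * (K.choose i : ℂ) =
            (Nat.centralBinom K : ℂ) := by
          have h5 := Nat.sum_range_choose_sq K
          rw [Nat.centralBinom, ← h5]
          push_cast
          refine sum_congr rfl fun i _ => by ring
        rw [h4]
        push_cast
        ring
      rw [hsum, h2, ← sum_sub_distrib]
      refine (norm_sum_le _ _).trans ?_
      have h6 : ∀ i ∈ range (K + 1),
          ‖∑ j ∈ range (K + 1), ((K.choose i : ℂ) * (K.choose j : ℂ)) *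
            ∑ l ∈ range N, e (((i : ℝ) - j) * (x l - y)) -
            ∑ j ∈ range (K + 1),
              ((K.choose i : ℂ) * (K.choose j : ℂ)) * (if i = j then (N : ℂ) else 0)‖ ≤
          ∑ j ∈ range (K + 1), ((K.choose i : ℝ) * (K.choose j : ℝ)) * (1 / (4 * K) * N) := by
        intro i hi
        rw [← sum_sub_distrib]
        refine (norm_sum_le _ _).trans (sum_le_sum fun j hj => ?_)
        rw [← mul_sub, norm_mul, norm_mul, Complex.norm_natCast, Complex.norm_natCast]
        refine mul_le_mul_of_nonneg_left ?_ (by positivity)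
        rw [mem_range] at hi hj
        by_cases hij : i = j
        · subst hij
          rw [if_pos rfl]
          have h7 : ∑ l ∈ range N, e (((i : ℝ) - i) * (x l - y)) = N := by
            rw [sum_congr rfl fun l _ => by
              rw [sub_self, zero_mul, show (0:ℝ) = ((0:ℤ):ℝ) by norm_num, e_int']]
            rw [sum_const, card_range, nsmul_eq_mul, mul_one]
          rw [h7, sub_self, norm_zero]
          positivity
        · rw [if_neg hij, sub_zero]
          exact hdiag i j (by omega) (by omega) hij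
      refine (sum_le_sum h6).trans ?_
      rw [sum_congr rfl fun i _ => (sum_mul _ _ _).symm, ← sum_mul]
      have h8 : ∑ i ∈ range (K + 1), ∑ j ∈ range (K + 1), ((K.choose i : ℝ) * (K.choose j : ℝ)) =
          4 ^ K := by
        rw [← sum_mul_sum]
        have h9 : ∑ i ∈ range (K + 1), (K.choose i : ℝ) = 2 ^ K := by
          exact_mod_cast Nat.sum_range_choose K
        rw [h9, ← mul_pow]
        norm_num
      rw [h8]
      exact le_of_eq (by ring)
    have h2 := (abs_le.1 (by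
      rw [← Complex.ofReal_sub, Complex.norm_real, Real.norm_eq_abs] at h1
      exact h1)).1
    linarith
  have hcb : (4:ℝ) ^ K ≤ 2 * K * Nat.centralBinom K := by
    exact_mod_cast Nat.four_pow_le_two_mul_self_mul_centralBinom K hK1
  have h4K : (0:ℝ) < 4 ^ K := by positivity
  have hfin : (N:ℝ) * (Nat.centralBinom K : ℝ) - 1 / (4 * K) * N * 4 ^ K ≤ N * (4 ^ K * r ^ K) :=
    hlow.trans hup
  have h5 : (Nat.centralBinom K : ℝ) - 1 / (4 * K) * 4 ^ K ≤ 4 ^ K * r ^ K := by
    have h6 : (N:ℝ) * ((Nat.centralBinom K : ℝ) - 1 / (4 * K) * 4 ^ K) ≤ N * (4 ^ K * r ^ K) := by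
      calc (N:ℝ) * ((Nat.centralBinom K : ℝ) - 1 / (4 * K) * 4 ^ K) =
            (N:ℝ) * (Nat.centralBinom K : ℝ) - 1 / (4 * K) * N * 4 ^ K := by ring
        _ ≤ _ := hfin
    exact le_of_mul_le_mul_left h6 (by linarith)
  have h6 : (4:ℝ) ^ K / (2 * K) ≤ Nat.centralBinom K := by
    rw [div_le_iff₀ (by positivity)]
    linarith
  have h7 : (4:ℝ) ^ K / (2 * K) - 1 / (4 * K) * 4 ^ K = 4 ^ K * (1 / (4 * K)) := by
    field_simp
    ring
  have h8 : (4:ℝ) ^ K * (1 / (4 * K)) ≤ 4 ^ K * r ^ K := by linarith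
  have h9 : 1 / (4 * (K:ℝ)) ≤ r ^ K := le_of_mul_le_mul_left h8 h4K
  have h10 : (K:ℝ) * r ^ K < 1 / 4 := hK
  have h11 : (K:ℝ) * (1 / (4 * K)) = 1 / 4 := by field_simp
  have h12 : (K:ℝ) * (1 / (4 * K)) ≤ K * r ^ K := mul_le_mul_of_nonneg_left h9 (by linarith)
  linarith

end Pool.Agent.Y943.Fu
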