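import Pool.Agent.Y943.Fu.Dens

/-!
# The dimension of orbit closures from the number of words

If the closure of the orbit of `x` under `b` has Hausdorff dimension smaller than `s`, then the orbit
has at most `C b ^ (s L)` words of length `L` (Furstenberg).
-/

set_option autoImplicit false

namespace Pool.Agent.Y943.Fu

open Finset Filter MeasureTheory Measure
open scoped ENNReal NNReal

/-- the words of length `L` in the orbit of `x` under multiplication by `b` -/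
def wds (b : ℕ) (x : ℝ) (L : ℕ) : Set ℤ :=
  Set.range (fun n : ℕ => ⌊(b : ℝ) ^ L * Int.fract ((b : ℝ) ^ n * x)⌋)

theorem wds_finite {b : ℕ} (hb : 2 ≤ b) (x : ℝ) (L : ℕ) :
    (wds b x L).Finite ∧ (wds b x L).ncard ≤ b ^ L := by
  have hsub : wds b x L ⊆ ((Finset.range (b ^ L)).image (fun k : ℕ => (k : ℤ)) : Finset ℤ) := by
    rintro _ ⟨n, rfl⟩
    have h0 : (0 : ℝ) < (b : ℝ) ^ L := by positivity
    have h1 : 0 ≤ ⌊(b : ℝ) ^ L * Int.fract ((b : ℝ) ^ n * x)⌋ :=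
      Int.floor_nonneg.2 (mul_nonneg h0.le (Int.fract_nonneg _))
    have h2 : ⌊(b : ℝ) ^ L * Int.fract ((b : ℝ) ^ n * x)⌋ < ((b ^ L : ℕ) : ℤ) := by
      rw [Int.floor_lt]
      push_cast
      have := Int.fract_lt_one ((b : ℝ) ^ n * x)
      nlinarith
    simp only [coe_image, coe_range, Set.mem_image, Set.mem_Iio]
    exact ⟨⌊(b : ℝ) ^ L * Int.fract ((b : ℝ) ^ n * x)⌋.toNat, by omega, by simp [h1]⟩
  refine ⟨(Finset.finite_toSet _).subset hsub, ?_⟩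
  refine (Set.ncard_le_ncard hsub (Finset.finite_toSet _)).trans ?_
  rw [Set.ncard_coe_finset]
  exact Finset.card_image_le.trans (by simp)

/-- the shift -/
theorem fract_shift (b : ℕ) (x : ℝ) (n l : ℕ) :
    Int.fract ((b : ℝ) ^ l * Int.fract ((b : ℝ) ^ n * x)) = Int.fract ((b : ℝ) ^ (n + l) * x) := by
  have h : (b : ℝ) ^ l * Int.fract ((b : ℝ) ^ n * x) =
      (b : ℝ) ^ (n + l) * x - (((b : ℤ) ^ l * ⌊(b : ℝ) ^ n * x⌋ : ℤ) : ℝ) := by
    rw [Int.fract]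
    push_cast
    ring
  rw [h, Int.fract_sub_intCast]

/-- splitting a word -/
theorem floor_split {b : ℕ} (x : ℝ) (n l L : ℕ) (hl : l ≤ L) :
    ⌊(b : ℝ) ^ L * Int.fract ((b : ℝ) ^ n * x)⌋ =
      (b : ℤ) ^ (L - l) * ⌊(b : ℝ) ^ l * Int.fract ((b : ℝ) ^ n * x)⌋ +
        ⌊(b : ℝ) ^ (L - l) * Int.fract ((b : ℝ) ^ (n + l) * x)⌋ := by
  have h1 : (b : ℝ) ^ L * Int.fract ((b : ℝ) ^ n * x) =
      (((b : ℤ) ^ (L - l) * ⌊(b : ℝ) ^ l * Int.fract ((b : ℝ) ^ n * x)⌋ : ℤ) : ℝ) +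
        (b : ℝ) ^ (L - l) * Int.fract ((b : ℝ) ^ (n + l) * x) := by
    rw [← fract_shift, Int.fract, Int.fract]
    push_cast
    have : (b : ℝ) ^ L = (b : ℝ) ^ (L - l) * (b : ℝ) ^ l := by
      rw [← pow_add]
      congr 1
      omega
    rw [this]
    ring
  rw [h1, Int.floor_intCast_add]

/-- words from a cover by cylinders -/
theorem wds_cover {b : ℕ} (hb : 2 ≤ b) (x : ℝ) (J : Finset (ℕ × ℤ))
    (hJ : ∀ n : ℕ, ∃ j ∈ J, ⌊(b : ℝ) ^ j.1 * Int.fract ((b : ℝ) ^ n * x)⌋ = j.2) (L : ℕ)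
    (hL : ∀ j ∈ J, j.1 ≤ L) :
    (wds b x L).ncard ≤ ∑ j ∈ J, (wds b x (L - j.1)).ncard := by
  have hsub : wds b x L ⊆ ⋃ j ∈ J, (fun v : ℤ => (b : ℤ) ^ (L - j.1) * j.2 + v) ''
      wds b x (L - j.1) := by
    rintro _ ⟨n, rfl⟩
    obtain ⟨j, hj, hj2⟩ := hJ n
    simp only [Set.mem_iUnion, Set.mem_image]
    refine ⟨j, hj, _, ⟨n + j.1, rfl⟩, ?_⟩
    simp only
    rw [floor_split x n j.1 L (hL j hj), hj2]
  have hfin : ∀ j ∈ J, ((fun v : ℤ => (b : ℤ) ^ (L - j.1) * j.2 + v) ''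
      wds b x (L - j.1)).Finite := fun j _ => (wds_finite hb x _).1.image _
  refine (Set.ncard_le_ncard hsub (J.finite_toSet.biUnion fun j hj => hfin j hj)).trans ?_
  refine (Finset.set_ncard_biUnion_le J _).trans ?_
  exact Finset.sum_le_sum fun j _ => Set.ncard_image_le (wds_finite hb x _).1

/-- **few words** if there is an economical cover -/
theorem wds_bound {b : ℕ} (hb : 2 ≤ b) (x : ℝ) {s : ℝ} (hs : 0 ≤ s) (J : Finset (ℕ × ℤ))
    (hJ : ∀ n : ℕ, ∃ j ∈ J, ⌊(b : ℝ) ^ j.1 * Int.fract ((b : ℝ) ^ n * x)⌋ = j.2)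
    (hJ1 : ∀ j ∈ J, 1 ≤ j.1) (hsum : ∑ j ∈ J, (b : ℝ) ^ (-(s * j.1)) ≤ 1) :
    ∃ C : ℝ, 0 < C ∧ ∀ L : ℕ, ((wds b x L).ncard : ℝ) ≤ C * (b : ℝ) ^ (s * L) := by
  have hb1 : (1 : ℝ) ≤ b := by exact_mod_cast (by omega : 1 ≤ b)
  have hb0 : (0 : ℝ) < b := by linarith
  set M := J.sup Prod.fst with hM
  have hle : ∀ j ∈ J, j.1 ≤ M := fun j hj => Finset.le_sup (f := Prod.fst) hj
  refine ⟨(b : ℝ) ^ M, by positivity, fun L => ?_⟩
  induction L using Nat.strong_induction_on with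
  | _ L ih =>
    rcases Nat.lt_or_ge L M with h | h
    · have h1 := (wds_finite hb x L).2
      have h2 : ((wds b x L).ncard : ℝ) ≤ (b : ℝ) ^ L := by exact_mod_cast h1
      have h3 : (b : ℝ) ^ L ≤ (b : ℝ) ^ M := pow_le_pow_right₀ hb1 h.le
      have h4 : (1 : ℝ) ≤ (b : ℝ) ^ (s * L) := Real.one_le_rpow hb1 (by positivity)
      have h5 : (0 : ℝ) < (b : ℝ) ^ M := by positivity
      nlinarith
    · have h1 := wds_cover hb x J hJ L (fun j hj => (hle j hj).trans h)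
      have h1' : ((wds b x L).ncard : ℝ) ≤ ∑ j ∈ J, ((wds b x (L - j.1)).ncard : ℝ) := by
        exact_mod_cast h1
      refine h1'.trans ?_
      calc ∑ j ∈ J, ((wds b x (L - j.1)).ncard : ℝ) ≤
          ∑ j ∈ J, (b : ℝ) ^ M * (b : ℝ) ^ (s * L) * (b : ℝ) ^ (-(s * j.1)) := by
            refine Finset.sum_le_sum fun j hj => ?_
            have h2 := hJ1 j hj
            have h3 := hle j hj
            refine (ih (L - j.1) (by omega)).trans (le_of_eq ?_)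
            rw [mul_assoc, ← Real.rpow_add hb0]
            congr 2
            rw [Nat.cast_sub (h3.trans h)]
            ring
        _ = (b : ℝ) ^ M * (b : ℝ) ^ (s * L) * ∑ j ∈ J, (b : ℝ) ^ (-(s * j.1)) := by
            rw [Finset.mul_sum]
        _ ≤ (b : ℝ) ^ M * (b : ℝ) ^ (s * L) * 1 := by gcongr
        _ = (b : ℝ) ^ M * (b : ℝ) ^ (s * L) := mul_one _

end Pool.Agent.Y943.Fu
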