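import Pool.Agent.Y943.Fu.Dim

/-!
# The dimension of orbit closures from the number of words, continued
-/

set_option autoImplicit false

namespace Pool.Agent.Y943.Fu

open Finset Filter MeasureTheory Measure
open scoped ENNReal NNReal

theorem sum_biUnion_le' {ι κ : Type*} [DecidableEq κ] (F : Finset ι) (t : ι → Finset κ) (f : κ → ℝ)
    (hf : ∀ j, 0 ≤ f j) : ∑ j ∈ F.biUnion t, f j ≤ ∑ n ∈ F, ∑ j ∈ t n, f j := by
  classical
  induction F using Finset.induction_on with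
  | empty => simp
  | insert a F ha ih =>
    rw [Finset.biUnion_insert, Finset.sum_insert ha]
    have h1 := Finset.sum_union_inter (s₁ := t a) (s₂ := F.biUnion t) (f := f)
    have h2 : 0 ≤ ∑ j ∈ t a ∩ F.biUnion t, f j := Finset.sum_nonneg fun j _ => hf j
    linarith

/-- economical covers by intervals -/
theorem cover_of_dimH {X : Set ℝ} {s : ℝ≥0} (hs : 0 < s) (h : dimH X < s) {η : ℝ} (hη : 0 < η) :
    ∃ (p ρ : ℕ → ℝ), (∀ n, 0 < ρ n) ∧ X ⊆ ⋃ n, Metric.ball (p n) (ρ n) ∧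
      ∀ F : Finset ℕ, ∑ n ∈ F, ρ n ^ (s : ℝ) ≤ η := by
  classical
  have hs0 : (0 : ℝ) < s := hs
  have h0 := hausdorffMeasure_of_dimH_lt h
  rw [hausdorffMeasure_apply] at h0
  set η' : ℝ := η / (3 * 2 ^ (s : ℝ)) with hη'
  have hη'0 : 0 < η' := by positivity
  have h1 : (⨅ (t : ℕ → Set ℝ) (_ : X ⊆ ⋃ n, t n) (_ : ∀ n, Metric.ediam (t n) ≤ 1),
      ∑' n, ⨆ _ : (t n).Nonempty, Metric.ediam (t n) ^ (s : ℝ)) < ENNReal.ofReal η' := by
    refine lt_of_le_of_lt ?_ (ENNReal.ofReal_pos.2 hη'0)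
    rw [← h0]
    exact le_iSup₂ (f := fun (r : ℝ≥0∞) (_ : 0 < r) =>
      ⨅ (t : ℕ → Set ℝ) (_ : X ⊆ ⋃ n, t n) (_ : ∀ n, Metric.ediam (t n) ≤ r),
        ∑' n, ⨆ _ : (t n).Nonempty, Metric.ediam (t n) ^ (s : ℝ)) 1 zero_lt_one
  simp only [iInf_lt_iff] at h1
  obtain ⟨t, hX, ht, hsum⟩ := h1
  have hfin : ∀ n, Metric.ediam (t n) ≠ ⊤ := fun n => ne_top_of_le_ne_top ENNReal.one_ne_top (ht n)
  set d : ℕ → ℝ := fun n => (Metric.ediam (t n)).toReal with hd
  have hd0 : ∀ n, 0 ≤ d n := fun n => ENNReal.toReal_nonneg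
  have hdsum : ∀ F : Finset ℕ, ∑ n ∈ F, d n ^ (s : ℝ) ≤ η' := by
    intro F
    have h2 : ∑ n ∈ F, Metric.ediam (t n) ^ (s : ℝ) ≤ ENNReal.ofReal η' := by
      refine le_trans ?_ hsum.le
      refine le_trans ?_ (ENNReal.sum_le_tsum F)
      refine Finset.sum_le_sum fun n _ => ?_
      by_cases hn : (t n).Nonempty
      · simp [hn]
      · rw [Set.not_nonempty_iff_eq_empty] at hn
        rw [hn]
        simp [hs0]
    have h3 : ∑ n ∈ F, d n ^ (s : ℝ) = (∑ n ∈ F, Metric.ediam (t n) ^ (s : ℝ)).toReal := by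
      rw [ENNReal.toReal_sum]
      · exact Finset.sum_congr rfl fun n _ => ENNReal.toReal_rpow _ _
      · intro n _
        exact ENNReal.rpow_ne_top_of_nonneg hs0.le (hfin n)
    rw [h3]
    have h4 := ENNReal.toReal_mono ENNReal.ofReal_ne_top h2
    rwa [ENNReal.toReal_ofReal hη'0.le] at h4
  set e : ℕ → ℝ := fun n => (η' * (1 / 2) ^ n) ^ (1 / (s : ℝ)) with he
  have he0 : ∀ n, 0 < e n := fun n => by positivity
  have hes : ∀ n, e n ^ (s : ℝ) = η' * (1 / 2) ^ n := by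
    intro n
    rw [he]
    simp only
    rw [← Real.rpow_mul (by positivity), one_div_mul_cancel hs0.ne', Real.rpow_one]
  set p : ℕ → ℝ := fun n => if hn : (t n).Nonempty then hn.some else 0 with hp
  refine ⟨p, fun n => d n + e n, fun n => by linarith [hd0 n, he0 n], ?_, ?_⟩
  · intro y hy
    obtain ⟨n, hn⟩ := Set.mem_iUnion.1 (hX hy)
    refine Set.mem_iUnion.2 ⟨n, ?_⟩
    have hne : (t n).Nonempty := ⟨y, hn⟩
    have hpn : p n ∈ t n := by
      rw [hp]
      simp only [hne, dif_pos]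
      exact hne.some_mem
    rw [Metric.mem_ball]
    have h5 := Metric.dist_le_diam_of_mem' (hfin n) hn hpn
    have h6 : Metric.diam (t n) = d n := rfl
    have := he0 n
    linarith
  · intro F
    have h7 : ∀ n, (d n + e n) ^ (s : ℝ) ≤ 2 ^ (s : ℝ) * (d n ^ (s : ℝ) + e n ^ (s : ℝ)) := by
      intro n
      rcases le_total (d n) (e n) with h8 | h8
      · calc (d n + e n) ^ (s : ℝ) ≤ (2 * e n) ^ (s : ℝ) :=
              Real.rpow_le_rpow (by linarith [hd0 n, he0 n]) (by linarith) hs0.le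
          _ = 2 ^ (s : ℝ) * e n ^ (s : ℝ) := Real.mul_rpow (by norm_num) (he0 n).le
          _ ≤ _ := by
              have : 0 ≤ d n ^ (s : ℝ) := Real.rpow_nonneg (hd0 n) _
              gcongr
              linarith
      · calc (d n + e n) ^ (s : ℝ) ≤ (2 * d n) ^ (s : ℝ) :=
              Real.rpow_le_rpow (by linarith [hd0 n, he0 n]) (by linarith) hs0.le
          _ = 2 ^ (s : ℝ) * d n ^ (s : ℝ) := Real.mul_rpow (by norm_num) (hd0 n)
          _ ≤ _ := by
              have : 0 ≤ e n ^ (s : ℝ) := Real.rpow_nonneg (he0 n).le _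
              gcongr
              linarith
    have h9 : ∑ n ∈ F, e n ^ (s : ℝ) ≤ 2 * η' := by
      simp_rw [hes]
      rw [← Finset.mul_sum]
      have h10 : ∑ n ∈ F, (1 / 2 : ℝ) ^ n ≤ 2 := by
        have h11 := summable_geometric_two.sum_le_tsum F (fun n _ => by positivity)
        rw [tsum_geometric_two] at h11
        exact h11
      nlinarith
    calc ∑ n ∈ F, (d n + e n) ^ (s : ℝ) ≤
        ∑ n ∈ F, 2 ^ (s : ℝ) * (d n ^ (s : ℝ) + e n ^ (s : ℝ)) :=
          Finset.sum_le_sum fun n _ => h7 n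
      _ = 2 ^ (s : ℝ) * (∑ n ∈ F, d n ^ (s : ℝ) + ∑ n ∈ F, e n ^ (s : ℝ)) := by
          rw [← Finset.mul_sum, Finset.sum_add_distrib]
      _ ≤ 2 ^ (s : ℝ) * (η' + 2 * η') := by
          gcongr
          exact hdsum F
      _ = η := by
          rw [hη']
          field_simp
          ring

/-- **Furstenberg's lemma**: few words in orbits with a closure of small dimension -/
theorem wds_of_dimH {b : ℕ} (hb : 2 ≤ b) (x : ℝ) {s : ℝ≥0} (hs : 0 < s)
    (h : dimH (orb b x) < s) :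
    ∃ C : ℝ, 0 < C ∧ ∀ L : ℕ, ((wds b x L).ncard : ℝ) ≤ C * (b : ℝ) ^ ((s : ℝ) * L) := by
  classical
  have hs0 : (0 : ℝ) < s := hs
  have hb1 : (1 : ℝ) < b := by exact_mod_cast (by omega : 1 < b)
  have hb0 : (0 : ℝ) < b := by linarith
  obtain ⟨p, ρ, hρ, hcov, hsum⟩ := cover_of_dimH hs h (η := 1 / (3 * (b : ℝ) ^ (s : ℝ)))
    (by positivity)
  have hcomp : IsCompact (orb b x) := by
    refine IsCompact.of_isClosed_subset (isCompact_Icc (a := (0 : ℝ)) (b := 1)) isClosed_closure ?_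
    refine closure_minimal ?_ isClosed_Icc
    rintro _ ⟨n, rfl⟩
    exact ⟨Int.fract_nonneg _, (Int.fract_lt_one _).le⟩
  obtain ⟨F, hF⟩ := hcomp.elim_finite_subcover (fun n => Metric.ball (p n) (ρ n))
    (fun n => Metric.isOpen_ball) hcov
  -- the levels
  have hρ1 : ∀ n, ρ n ^ (s : ℝ) ≤ 1 / (3 * (b : ℝ) ^ (s : ℝ)) := by
    intro n
    have := hsum {n}
    simpa using this
  have hρ2 : ∀ n, ρ n < 1 / b := by
    intro n
    by_contra hcon
    push Not at hcon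
    have h1 : (1 / (b : ℝ)) ^ (s : ℝ) ≤ ρ n ^ (s : ℝ) :=
      Real.rpow_le_rpow (by positivity) hcon hs0.le
    have h2 := h1.trans (hρ1 n)
    rw [Real.div_rpow (by norm_num) hb0.le, Real.one_rpow] at h2
    have h3 : (0 : ℝ) < (b : ℝ) ^ (s : ℝ) := by positivity
    rw [div_le_div_iff₀ h3 (by positivity)] at h2
    linarith
  have hlev : ∀ n, ∃ l : ℕ, 1 ≤ l ∧ (1 / (b : ℝ)) ^ (l + 1) < ρ n ∧ ρ n ≤ (1 / (b : ℝ)) ^ l := by
    intro n
    have h1b : 1 / (b : ℝ) < 1 := by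
      rw [div_lt_one hb0]
      exact hb1
    obtain ⟨l, hl1, hl2⟩ := exists_nat_pow_near_of_lt_one (hρ n) ((hρ2 n).le.trans h1b.le)
      (by positivity : (0 : ℝ) < 1 / b) h1b
    refine ⟨l, ?_, hl1, hl2⟩
    by_contra hl
    have : l = 0 := by omega
    subst this
    have := hρ2 n
    simp only [zero_add, pow_one] at hl1
    linarith
  choose l hl1 hl2 hl3 using hlev
  set m : ℕ → ℤ := fun n => ⌊(b : ℝ) ^ l n * p n⌋ with hm
  set J : Finset (ℕ × ℤ) := F.biUnion (fun n => {(l n, m n - 1), (l n, m n), (l n, m n + 1)})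
    with hJ
  refine wds_bound hb x hs0.le J ?_ ?_ ?_
  · intro k
    have hmem : Int.fract ((b : ℝ) ^ k * x) ∈ orb b x := subset_closure ⟨k, rfl⟩
    obtain ⟨n, hnF, hn⟩ : ∃ n ∈ F, Int.fract ((b : ℝ) ^ k * x) ∈ Metric.ball (p n) (ρ n) := by
      have := hF hmem
      simpa using this
    rw [Metric.mem_ball, Real.dist_eq, abs_lt] at hn
    have hbl : (0 : ℝ) < (b : ℝ) ^ l n := by positivity
    have h3 : (b : ℝ) ^ l n * ρ n ≤ 1 := by
      have := hl3 n
      rw [one_div_pow, le_div_iff₀ hbl] at this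
      linarith
    have h4 := Int.floor_le ((b : ℝ) ^ l n * p n)
    have h5 := Int.lt_floor_add_one ((b : ℝ) ^ l n * p n)
    have h6 : m n - 1 ≤ ⌊(b : ℝ) ^ l n * Int.fract ((b : ℝ) ^ k * x)⌋ := by
      rw [Int.le_floor]
      push_cast
      rw [hm]
      nlinarith [hn.1]
    have h7 : ⌊(b : ℝ) ^ l n * Int.fract ((b : ℝ) ^ k * x)⌋ < m n + 2 := by
      rw [Int.floor_lt]
      push_cast
      rw [hm]
      nlinarith [hn.2]
    have h8 : ⌊(b : ℝ) ^ l n * Int.fract ((b : ℝ) ^ k * x)⌋ = m n - 1 ∨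
        ⌊(b : ℝ) ^ l n * Int.fract ((b : ℝ) ^ k * x)⌋ = m n ∨
        ⌊(b : ℝ) ^ l n * Int.fract ((b : ℝ) ^ k * x)⌋ = m n + 1 := by omega
    rcases h8 with h8 | h8 | h8
    · exact ⟨(l n, m n - 1), Finset.mem_biUnion.2 ⟨n, hnF, by simp⟩, h8⟩
    · exact ⟨(l n, m n), Finset.mem_biUnion.2 ⟨n, hnF, by simp⟩, h8⟩
    · exact ⟨(l n, m n + 1), Finset.mem_biUnion.2 ⟨n, hnF, by simp⟩, h8⟩
  · intro j hj
    obtain ⟨n, _, hn⟩ := Finset.mem_biUnion.1 hj
    simp only [Finset.mem_insert, Finset.mem_singleton] at hn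
    rcases hn with rfl | rfl | rfl <;> exact hl1 n
  · refine (sum_biUnion_le' F _ _ (fun j => by positivity)).trans ?_
    have h1 : ∀ n ∈ F, ∑ j ∈ ({(l n, m n - 1), (l n, m n), (l n, m n + 1)} : Finset (ℕ × ℤ)),
        (b : ℝ) ^ (-((s : ℝ) * j.1)) ≤ 3 * (b : ℝ) ^ (s : ℝ) * ρ n ^ (s : ℝ) := by
      intro n _
      rw [Finset.sum_insert, Finset.sum_insert, Finset.sum_singleton]
      · simp only
        have h2 : (b : ℝ) ^ (-((s : ℝ) * l n)) ≤ (b : ℝ) ^ (s : ℝ) * ρ n ^ (s : ℝ) := by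
          have h3 : ((1 / (b : ℝ)) ^ (l n + 1)) ^ (s : ℝ) ≤ ρ n ^ (s : ℝ) :=
            Real.rpow_le_rpow (by positivity) (hl2 n).le hs0.le
          have h4 : (b : ℝ) ^ (-((s : ℝ) * l n)) =
              (b : ℝ) ^ (s : ℝ) * ((1 / (b : ℝ)) ^ (l n + 1)) ^ (s : ℝ) := by
            rw [one_div, inv_pow, Real.inv_rpow (by positivity), ← Real.rpow_natCast,
              ← Real.rpow_mul hb0.le, ← Real.rpow_neg hb0.le, ← Real.rpow_add hb0]
            congr 1
            push_cast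
            ring
          rw [h4]
          gcongr
        linarith
      · simp
      · simp only [Finset.mem_insert, Finset.mem_singleton, Prod.mk.injEq, true_and, not_or]
        constructor <;> omega
    refine (Finset.sum_le_sum h1).trans ?_
    rw [← Finset.mul_sum]
    have h5 := hsum F
    calc 3 * (b : ℝ) ^ (s : ℝ) * ∑ n ∈ F, ρ n ^ (s : ℝ) ≤
        3 * (b : ℝ) ^ (s : ℝ) * (1 / (3 * (b : ℝ) ^ (s : ℝ))) := by gcongr
      _ = 1 := by field_simp

end Pool.Agent.Y943.Fu
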