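import Mathlib

/-!
# Almost all integers: counting lemmas
-/

set_option autoImplicit false

namespace Pool.Agent.Y943.Fu

open Finset Filter

/-- the number of `q ≤ X` with the property `P` -/
noncomputable def cnt (X : ℕ) (P : ℕ → Prop) : ℝ := (({q : ℕ | 1 ≤ q ∧ q ≤ X ∧ P q} : Set ℕ).ncard : ℝ)

theorem fin_cnt (X : ℕ) (P : ℕ → Prop) : ({q : ℕ | 1 ≤ q ∧ q ≤ X ∧ P q} : Set ℕ).Finite :=
  (Set.finite_Icc 1 X).subset fun _ hq => ⟨hq.1, hq.2.1⟩

theorem cnt_nonneg (X : ℕ) (P : ℕ → Prop) : 0 ≤ cnt X P := Nat.cast_nonneg _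

theorem cnt_mono {X : ℕ} {P R : ℕ → Prop} (h : ∀ q, 1 ≤ q → q ≤ X → P q → R q) :
    cnt X P ≤ cnt X R := by
  have h' : ({q : ℕ | 1 ≤ q ∧ q ≤ X ∧ P q} : Set ℕ) ⊆ {q : ℕ | 1 ≤ q ∧ q ≤ X ∧ R q} := by
    rintro q ⟨h1, h2, h3⟩
    exact ⟨h1, h2, h q h1 h2 h3⟩
  unfold cnt
  exact_mod_cast Set.ncard_le_ncard h' (fin_cnt X R)

theorem cnt_or (X : ℕ) (P R : ℕ → Prop) : cnt X (fun q => P q ∨ R q) ≤ cnt X P + cnt X R := by
  unfold cnt
  have h : ({q : ℕ | 1 ≤ q ∧ q ≤ X ∧ (P q ∨ R q)} : Set ℕ) ⊆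
      {q : ℕ | 1 ≤ q ∧ q ≤ X ∧ P q} ∪ {q : ℕ | 1 ≤ q ∧ q ≤ X ∧ R q} := by
    rintro q ⟨h1, h2, h3 | h3⟩
    · exact Or.inl ⟨h1, h2, h3⟩
    · exact Or.inr ⟨h1, h2, h3⟩
  have := (Set.ncard_le_ncard h ((fin_cnt X P).union (fin_cnt X R))).trans (Set.ncard_union_le _ _)
  exact_mod_cast this

theorem cnt_exists {ι : Type*} (X : ℕ) (S : Finset ι) (P : ι → ℕ → Prop) :
    cnt X (fun q => ∃ i ∈ S, P i q) ≤ ∑ i ∈ S, cnt X (P i) := by
  unfold cnt
  have h : ({q : ℕ | 1 ≤ q ∧ q ≤ X ∧ ∃ i ∈ S, P i q} : Set ℕ) ⊆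
      ⋃ i ∈ S, {q : ℕ | 1 ≤ q ∧ q ≤ X ∧ P i q} := by
    rintro q ⟨h1, h2, i, hi, h3⟩
    simp only [Set.mem_iUnion]
    exact ⟨i, hi, h1, h2, h3⟩
  have := (Set.ncard_le_ncard h (S.finite_toSet.biUnion fun i _ => fin_cnt X (P i))).trans
    (Finset.set_ncard_biUnion_le S _)
  exact_mod_cast this

theorem cnt_eq {X : ℕ} {P : ℕ → Prop} [DecidablePred P] :
    cnt X P = (((Icc 1 X).filter P).card : ℝ) := by
  unfold cnt
  congr 1
  rw [← Set.ncard_coe_finset]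
  congr 1
  ext q
  simp only [coe_filter, mem_Icc]
  constructor
  · rintro ⟨h1, h2, h3⟩
    exact ⟨⟨h1, h2⟩, h3⟩
  · rintro ⟨⟨h1, h2⟩, h3⟩
    exact ⟨h1, h2, h3⟩

theorem cnt_dvd (X d : ℕ) : cnt X (fun q => d ∣ q) ≤ X / d := by
  rw [cnt_eq]
  have h1 : ((Icc 1 X).filter (fun q => d ∣ q)).card = X / d := by
    have := Nat.Ioc_filter_dvd_card_eq_div X d
    rw [← this]
    congr 1
  rw [h1]
  exact Nat.cast_div_le

/-- natural density zero -/
def DZ (A : ℕ → Prop) : Prop := ∀ ε : ℝ, 0 < ε → ∃ X₀ : ℕ, ∀ X : ℕ, X₀ ≤ X → cnt X A ≤ ε * X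

theorem DZ.mono {A B : ℕ → Prop} (hB : DZ B) (h : ∀ q, A q → B q) : DZ A := fun ε hε => by
  obtain ⟨X₀, hX⟩ := hB ε hε
  exact ⟨X₀, fun X hX0 => (cnt_mono fun q _ _ => h q).trans (hX X hX0)⟩

theorem DZ.or {A B : ℕ → Prop} (hA : DZ A) (hB : DZ B) : DZ (fun q => A q ∨ B q) := fun ε hε => by
  obtain ⟨X₀, hX⟩ := hA (ε / 2) (by linarith)
  obtain ⟨X₁, hX1⟩ := hB (ε / 2) (by linarith)
  refine ⟨max X₀ X₁, fun X hX0 => ?_⟩
  have h1 := hX X ((le_max_left _ _).trans hX0)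
  have h2 := hX1 X ((le_max_right _ _).trans hX0)
  have h3 := cnt_or X A B
  linarith

/-- the ideal of the sets of density zero is a P-ideal -/
theorem DZ.diag (Z : ℕ → ℕ → Prop) (hZ : ∀ k, DZ (Z k)) :
    ∃ W : ℕ → Prop, DZ W ∧ ∀ k, ∃ Q₀ : ℕ, ∀ q, Q₀ ≤ q → Z k q → W q := by
  have hU : ∀ k : ℕ, DZ (fun q => ∃ i ≤ k, Z i q) := by
    intro k
    induction k with
    | zero =>
      refine (hZ 0).mono fun q ⟨i, hi, h⟩ => ?_
      have : i = 0 := by omega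
      rwa [this] at h
    | succ k ih =>
      refine (ih.or (hZ (k + 1))).mono fun q ⟨i, hi, h⟩ => ?_
      rcases Nat.lt_or_ge i (k + 1) with h1 | h1
      · exact Or.inl ⟨i, by omega, h⟩
      · have : i = k + 1 := by omega
        rw [this] at h
        exact Or.inr h
  have hX : ∀ k : ℕ, ∃ X₀ : ℕ, ∀ X, X₀ ≤ X →
      cnt X (fun q => ∃ i ≤ k, Z i q) ≤ 1 / (k + 1) * X := fun k => hU k _ (by positivity)
  choose X₀ hX₀ using hX
  -- a strictly increasing sequence of thresholds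
  let T : ℕ → ℕ := fun k => (∑ i ∈ range (k + 1), X₀ i) + k
  have hT1 : ∀ k, X₀ k ≤ T k := fun k =>
    (single_le_sum (f := X₀) (fun i _ => Nat.zero_le _) (mem_range.2 (Nat.lt_succ_self k))).trans
      (Nat.le_add_right _ _)
  have hT2 : StrictMono T := by
    refine strictMono_nat_of_lt_succ fun k => ?_
    change (∑ i ∈ range (k + 1), X₀ i) + k < (∑ i ∈ range (k + 1 + 1), X₀ i) + (k + 1)
    rw [sum_range_succ _ (k + 1)]
    omega
  refine ⟨fun q => ∃ k, Z k q ∧ T k ≤ q, ?_, fun k => ⟨T k, fun q hq hz => ⟨k, hz, hq⟩⟩⟩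
  intro ε hε
  obtain ⟨m, hm⟩ := exists_nat_gt (1 / ε)
  refine ⟨T m, fun X hXm => ?_⟩
  -- the largest `k` with `T k ≤ X`
  obtain ⟨k, hk1, hk2, hk3⟩ : ∃ k, m ≤ k ∧ T k ≤ X ∧ X < T (k + 1) := by
    have hex : ∃ k, X < T k := ⟨X + 1, lt_of_lt_of_le (Nat.lt_succ_self X) hT2.le_apply⟩
    classical
    have h1 := Nat.find_spec hex
    have h2 : m < Nat.find hex := by
      by_contra hcon
      push Not at hcon
      have := hT2.monotone hcon
      omega
    refine ⟨Nat.find hex - 1, by omega, ?_, ?_⟩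
    · have := Nat.find_min hex (m := Nat.find hex - 1) (by omega)
      omega
    · have h3 : Nat.find hex - 1 + 1 = Nat.find hex := by omega
      rw [h3]
      exact h1
  have h1 : cnt X (fun q => ∃ k, Z k q ∧ T k ≤ q) ≤ cnt X (fun q => ∃ i ≤ k, Z i q) := by
    refine cnt_mono fun q _ hqX ⟨i, hi, hTi⟩ => ⟨i, ?_, hi⟩
    by_contra hcon
    push Not at hcon
    have := hT2.monotone (by omega : k + 1 ≤ i)
    omega
  refine h1.trans ((hX₀ k X ((hT1 k).trans hk2)).trans ?_)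
  have hmk : (m : ℝ) ≤ k := by exact_mod_cast hk1
  have h2 : 1 / ((k : ℝ) + 1) ≤ ε := by
    rw [div_le_iff₀ (by positivity)]
    rw [div_lt_iff₀ hε] at hm
    nlinarith
  gcongr

/-- density zero in terms of upper bounds with a parameter -/
theorem DZ.of_bound {A : ℕ → Prop}
    (h : ∀ ε : ℝ, 0 < ε → ∃ (B : ℕ → Prop), (∀ q, A q → B q) ∧ ∃ X₀ : ℕ, ∀ X, X₀ ≤ X →
      cnt X B ≤ ε * X) : DZ A := fun ε hε => by
  obtain ⟨B, hB, X₀, hX⟩ := h ε hε
  exact ⟨X₀, fun X hX0 => (cnt_mono fun q _ _ => hB q).trans (hX X hX0)⟩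

/-- divisor function on average -/
theorem sum_tau (X : ℕ) (hX : 1 ≤ X) :
    ∑ q ∈ Icc 1 X, (q.divisors.card : ℝ) ≤ X * (1 + Real.log X) := by
  have h1 : ∀ q ∈ Icc 1 X, (q.divisors.card : ℝ) =
      ∑ d ∈ Icc 1 X, if d ∣ q then (1 : ℝ) else 0 := by
    intro q hq
    rw [mem_Icc] at hq
    rw [← sum_filter, sum_const, nsmul_eq_mul, mul_one]
    congr 2
    ext d
    simp only [Nat.mem_divisors, mem_filter, mem_Icc]
    constructor
    · rintro ⟨h1, h2⟩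
      exact ⟨⟨Nat.pos_of_dvd_of_pos h1 (by omega), (Nat.le_of_dvd (by omega) h1).trans hq.2⟩, h1⟩
    · rintro ⟨_, h2⟩
      exact ⟨h2, by omega⟩
  rw [sum_congr rfl h1, sum_comm]
  have h2 : ∀ d ∈ Icc 1 X, ∑ q ∈ Icc 1 X, (if d ∣ q then (1 : ℝ) else 0) ≤ X * (d : ℝ)⁻¹ := by
    intro d hd
    have := cnt_dvd X d
    rw [cnt_eq, div_eq_mul_inv] at this
    rw [← sum_filter, sum_const, nsmul_eq_mul, mul_one]
    exact this
  refine (sum_le_sum h2).trans ?_
  rw [← mul_sum]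
  have h3 : ∑ d ∈ Icc 1 X, ((d : ℝ))⁻¹ ≤ 1 + Real.log X := by
    have := harmonic_le_one_add_log X
    rw [harmonic_eq_sum_Icc] at this
    push_cast at this
    exact this
  gcongr

theorem two_pow_omega {q : ℕ} (hq : q ≠ 0) : 2 ^ q.primeFactors.card ≤ q.divisors.card := by
  rw [Nat.card_divisors hq]
  calc 2 ^ q.primeFactors.card = ∏ p ∈ q.primeFactors, 2 := by rw [prod_const]
    _ ≤ ∏ p ∈ q.primeFactors, (q.factorization p + 1) := by
      refine prod_le_prod' fun p hp => ?_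
      have : 1 ≤ q.factorization p :=
        (Nat.prime_of_mem_primeFactors hp).factorization_pos_of_dvd hq (Nat.dvd_of_mem_primeFactors hp)
      omega

/-- the sum of the inverses of the `n ≡ 1` modulo `d` -/
theorem sum_class (X d : ℕ) (hd : 1 ≤ d) :
    ∑ n ∈ (Icc 2 X).filter (fun n => d ∣ n - 1), (1 : ℝ) / n ≤ (1 + Real.log X) / d := by
  have h1 : ∑ n ∈ (Icc 2 X).filter (fun n => d ∣ n - 1), (1 : ℝ) / n ≤
      ∑ k ∈ Icc 1 X, (1 : ℝ) / (d * k) := by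
    have hmap : ∀ n ∈ (Icc 2 X).filter (fun n => d ∣ n - 1), (n - 1) / d ∈ Icc 1 X := by
      intro n hn
      rw [mem_filter, mem_Icc] at hn
      rw [mem_Icc]
      obtain ⟨k, hk⟩ := hn.2
      rw [hk, Nat.mul_div_cancel_left _ hd]
      constructor
      · by_contra hcon
        have : k = 0 := by omega
        subst this
        omega
      · have : k ≤ d * k := Nat.le_mul_of_pos_left _ hd
        omega
    have hinj : Set.InjOn (fun n => (n - 1) / d)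
        ((Icc 2 X).filter (fun n => d ∣ n - 1) : Finset ℕ) := by
      intro n hn n' hn' heq
      simp only [coe_filter, mem_Icc] at hn hn'
      simp only at heq
      have e1 := Nat.div_mul_cancel hn.2
      have e2 := Nat.div_mul_cancel hn'.2
      rw [heq] at e1
      have := hn.1
      have := hn'.1
      omega
    calc ∑ n ∈ (Icc 2 X).filter (fun n => d ∣ n - 1), (1 : ℝ) / n ≤
        ∑ n ∈ (Icc 2 X).filter (fun n => d ∣ n - 1), (1 : ℝ) / (d * ((n - 1) / d : ℕ)) := by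
          refine sum_le_sum fun n hn => ?_
          rw [mem_filter, mem_Icc] at hn
          obtain ⟨k, hk⟩ := hn.2
          have hk0 : k ≠ 0 := by
            rintro rfl
            omega
          rw [hk, Nat.mul_div_cancel_left _ hd]
          have h2 : (d : ℝ) * k ≤ n := by
            have : d * k ≤ n := by omega
            exact_mod_cast this
          have hd0 : (0 : ℝ) < d := by exact_mod_cast hd
          have hk1 : (0 : ℝ) < k := by exact_mod_cast Nat.pos_of_ne_zero hk0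
          exact one_div_le_one_div_of_le (by positivity) h2
      _ = ∑ k ∈ ((Icc 2 X).filter (fun n => d ∣ n - 1)).image (fun n => (n - 1) / d),
            (1 : ℝ) / (d * k) := (sum_image (f := fun k : ℕ => (1 : ℝ) / (d * k)) hinj).symm
      _ ≤ ∑ k ∈ Icc 1 X, (1 : ℝ) / (d * k) := by
          refine sum_le_sum_of_subset_of_nonneg ?_ (fun _ _ _ => by positivity)
          intro k hk
          obtain ⟨n, hn, rfl⟩ := mem_image.1 hk
          exact hmap n hn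
  refine h1.trans (le_of_eq_of_le (b := (∑ k ∈ Icc 1 X, ((k : ℝ))⁻¹) / d) ?_ ?_)
  · rw [sum_div]
    refine sum_congr rfl fun k _ => ?_
    rw [one_div, mul_inv, div_eq_mul_inv, mul_comm]
  · have h3 : ∑ k ∈ Icc 1 X, ((k : ℝ))⁻¹ ≤ 1 + Real.log X := by
      have := harmonic_le_one_add_log X
      rw [harmonic_eq_sum_Icc] at this
      push_cast at this
      exact this
    gcongr

end Pool.Agent.Y943.Fu
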