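import Pool.Agent.Y943.Fu.NT1

/-!
# The order of `b` modulo almost all integers
-/

set_option autoImplicit false

namespace Pool.Agent.Y943.Fu

open Finset Filter

theorem gcd_lcm_dvd (P : Finset ℕ) (t : ℕ → ℕ) (u : ℕ) :
    Nat.gcd u (P.lcm t) ∣ ∏ p ∈ P, Nat.gcd u (t p) := by
  classical
  induction P using Finset.induction_on with
  | empty => simp
  | insert a P ha ih =>
    rw [Finset.lcm_insert, prod_insert ha]
    have h1 : Nat.gcd u (GCDMonoid.lcm (t a) (P.lcm t)) ∣ Nat.gcd u (t a * P.lcm t) :=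
      Nat.gcd_dvd_gcd_of_dvd_right u (by
        change Nat.lcm (t a) (P.lcm t) ∣ _
        exact Nat.lcm_dvd_mul _ _)
    exact h1.trans ((Nat.gcd_mul_right_dvd_mul_gcd u (t a) (P.lcm t)).trans
      (Nat.mul_dvd_mul_left _ ih))

/-- divisors of `k` with small gcds have a small product -/
theorem prod_le_of_dvd (P : Finset ℕ) (t : ℕ → ℕ) (k G : ℕ) (hk : 1 ≤ k) (hG : 1 ≤ G)
    (hdvd : ∀ p ∈ P, t p ∣ k) (hgcd : ∀ p ∈ P, ∀ p' ∈ P, p ≠ p' → Nat.gcd (t p) (t p') ≤ G) :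
    ∏ p ∈ P, t p ≤ k * G ^ (P.card ^ 2) := by
  classical
  have key : ∀ P' : Finset ℕ, P' ⊆ P → ∏ p ∈ P', t p ≤ P'.lcm t * G ^ (P'.card ^ 2) := by
    intro P'
    induction P' using Finset.induction_on with
    | empty => simp
    | insert a P' ha ih =>
      intro hsub
      have hsub' : P' ⊆ P := fun p hp => hsub (mem_insert_of_mem hp)
      have haP : a ∈ P := hsub (mem_insert_self _ _)
      have ih' := ih hsub'
      rw [prod_insert ha, Finset.lcm_insert, card_insert_of_notMem ha]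
      have h1 : Nat.gcd (t a) (P'.lcm t) ≤ G ^ P'.card := by
        have h2 := gcd_lcm_dvd P' t (t a)
        have h3 : 0 < ∏ p ∈ P', Nat.gcd (t a) (t p) :=
          prod_pos fun p _ => Nat.gcd_pos_of_pos_left _ (Nat.pos_of_dvd_of_pos (hdvd a haP) hk)
        refine (Nat.le_of_dvd h3 h2).trans ?_
        refine (prod_le_pow_card P' _ G fun p hp => ?_)
        refine hgcd a haP p (hsub' hp) ?_
        rintro rfl
        exact ha hp
      have h4 : t a * P'.lcm t = Nat.gcd (t a) (P'.lcm t) * GCDMonoid.lcm (t a) (P'.lcm t) := by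
        change _ = Nat.gcd (t a) (P'.lcm t) * Nat.lcm (t a) (P'.lcm t)
        exact (Nat.gcd_mul_lcm _ _).symm
      calc t a * ∏ p ∈ P', t p ≤ t a * (P'.lcm t * G ^ (P'.card ^ 2)) :=
            Nat.mul_le_mul_left _ ih'
        _ = Nat.gcd (t a) (P'.lcm t) * GCDMonoid.lcm (t a) (P'.lcm t) * G ^ (P'.card ^ 2) := by
            rw [← mul_assoc, h4]
        _ ≤ G ^ P'.card * GCDMonoid.lcm (t a) (P'.lcm t) * G ^ (P'.card ^ 2) := by gcongr
        _ = GCDMonoid.lcm (t a) (P'.lcm t) * G ^ (P'.card + P'.card ^ 2) := by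
            rw [pow_add]
            ring
        _ ≤ GCDMonoid.lcm (t a) (P'.lcm t) * G ^ ((P'.card + 1) ^ 2) := by
            gcongr
            · nlinarith
  refine (key P subset_rfl).trans ?_
  have h5 : P.lcm t ∣ k := Finset.lcm_dvd hdvd
  exact Nat.mul_le_mul_right _ (Nat.le_of_dvd hk h5)

/-- few primes divide `b ^ t - 1` -/
theorem card_primes_le {b t : ℕ} (hb : 2 ≤ b) (ht : 1 ≤ t) (F : Finset ℕ)
    (hF : ∀ p ∈ F, p.Prime ∧ p ∣ b ^ t - 1) : F.card ≤ b * t := by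
  have h1 : ∏ p ∈ F, p ∣ b ^ t - 1 :=
    Finset.prod_primes_dvd _ (fun p hp => (hF p hp).1.prime) fun p hp => (hF p hp).2
  have hbt : 2 ≤ b ^ t := by
    calc 2 ≤ b := hb
      _ = b ^ 1 := (pow_one b).symm
      _ ≤ b ^ t := Nat.pow_le_pow_right (by omega) ht
  have h2 : 2 ^ F.card ≤ ∏ p ∈ F, p := by
    rw [← prod_const]
    exact prod_le_prod' fun p hp => (hF p hp).1.two_le
  have h3 : ∏ p ∈ F, p ≤ b ^ t - 1 := Nat.le_of_dvd (by omega) h1
  have h4 : b ^ t ≤ 2 ^ (b * t) := by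
    rw [pow_mul]
    exact Nat.pow_le_pow_left (Nat.lt_two_pow_self).le t
  have h5 : 2 ^ F.card ≤ 2 ^ (b * t) := by omega
  exact (Nat.pow_le_pow_iff_right (by norm_num)).1 h5

theorem dvd_pow_iff {b p k : ℕ} (hb : 1 ≤ b) : p ∣ b ^ k - 1 ↔ orderOf (b : ZMod p) ∣ k := by
  rw [orderOf_dvd_iff_pow_eq_one, ← ZMod.natCast_eq_zero_iff, Nat.cast_sub (Nat.one_le_pow _ _ hb)]
  push_cast
  rw [sub_eq_zero]

theorem order_dvd {b p : ℕ} (hp : p.Prime) (hb : ¬ p ∣ b) : orderOf (b : ZMod p) ∣ p - 1 := by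
  have := Fact.mk hp
  rw [orderOf_dvd_iff_pow_eq_one]
  apply ZMod.pow_card_sub_one_eq_one
  rwa [ne_eq, ZMod.natCast_eq_zero_iff]

theorem order_pos {b p : ℕ} (hp : p.Prime) (hb : ¬ p ∣ b) : 1 ≤ orderOf (b : ZMod p) :=
  Nat.pos_of_dvd_of_pos (order_dvd hp hb) (Nat.sub_pos_of_lt hp.one_lt)

open Classical in
/-- the primes modulo which `b` has small order -/
noncomputable def ex (b : ℕ) (θ : ℝ) (p : ℕ) : ℝ :=
  if p.Prime ∧ ¬ p ∣ b ∧ (orderOf (b : ZMod p) : ℝ) < (p : ℝ) ^ θ then (1 : ℝ) / p else 0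

theorem ex_nonneg (b : ℕ) (θ : ℝ) (p : ℕ) : 0 ≤ ex b θ p := by
  unfold ex
  split_ifs <;> positivity

/-- such primes are rare -/
theorem ex_summable {b : ℕ} (hb : 2 ≤ b) {θ : ℝ} (hθ0 : 0 < θ) (hθ : θ < 1 / 2) :
    Summable (ex b θ) := by
  classical
  have hr : 1 - 1 / θ < -1 := by
    have : 2 < 1 / θ := by
      rw [lt_div_iff₀ hθ0]
      linarith
    linarith
  have hs : Summable fun t : ℕ => (b : ℝ) * (t : ℝ) ^ (1 - 1 / θ) :=
    (Real.summable_nat_rpow.2 hr).mul_left _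
  refine summable_of_sum_le (ex_nonneg b θ) (c := ∑' t : ℕ, (b : ℝ) * (t : ℝ) ^ (1 - 1 / θ)) ?_
  intro F
  set E := F.filter (fun p => p.Prime ∧ ¬ p ∣ b ∧ (orderOf (b : ZMod p) : ℝ) < (p : ℝ) ^ θ) with hE
  have h1 : ∑ p ∈ F, ex b θ p = ∑ p ∈ E, (1 : ℝ) / p := by
    rw [hE, sum_filter]
    rfl
  rw [h1]
  have hE2 : ∀ p ∈ E, p.Prime ∧ ¬ p ∣ b ∧ (orderOf (b : ZMod p) : ℝ) < (p : ℝ) ^ θ := fun p hp =>
    (mem_filter.1 hp).2
  have h2 : ∑ p ∈ E, (1 : ℝ) / p ≤ ∑ p ∈ E, ((orderOf (b : ZMod p) : ℕ) : ℝ) ^ (-(1 / θ)) := by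
    refine sum_le_sum fun p hp => ?_
    obtain ⟨hp1, hp2, hp3⟩ := hE2 p hp
    have ht1 : (1 : ℝ) ≤ orderOf (b : ZMod p) := by exact_mod_cast order_pos hp1 hp2
    have hp0 : (0 : ℝ) < p := by exact_mod_cast hp1.pos
    have h3 : ((orderOf (b : ZMod p) : ℕ) : ℝ) ^ (1 / θ) ≤ p := by
      have h4 := Real.rpow_le_rpow (by linarith) hp3.le (by positivity : 0 ≤ 1 / θ)
      rwa [← Real.rpow_mul hp0.le, mul_one_div_cancel hθ0.ne', Real.rpow_one] at h4
    rw [Real.rpow_neg (by linarith), one_div]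
    exact inv_anti₀ (Real.rpow_pos_of_pos (by linarith) _) h3
  refine h2.trans ?_
  rw [Finset.sum_comp (fun t : ℕ => (t : ℝ) ^ (-(1 / θ))) (fun p => orderOf (b : ZMod p))]
  refine le_trans ?_ (hs.sum_le_tsum (E.image fun p => orderOf (b : ZMod p))
    (fun t _ => by positivity))
  refine sum_le_sum fun t ht => ?_
  obtain ⟨p, hp, rfl⟩ := mem_image.1 ht
  obtain ⟨hp1, hp2, hp3⟩ := hE2 p hp
  have ht1 := order_pos hp1 hp2
  set t := orderOf (b : ZMod p)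
  have h5 : (E.filter fun p' => orderOf (b : ZMod p') = t).card ≤ b * t := by
    refine card_primes_le hb ht1 _ fun p' hp' => ?_
    rw [mem_filter] at hp'
    refine ⟨(hE2 p' hp'.1).1, ?_⟩
    rw [dvd_pow_iff (by omega), hp'.2]
  have ht0 : (0 : ℝ) < t := by exact_mod_cast ht1
  rw [nsmul_eq_mul]
  calc ((E.filter fun p' => orderOf (b : ZMod p') = t).card : ℝ) * (t : ℝ) ^ (-(1 / θ)) ≤
      ((b * t : ℕ) : ℝ) * (t : ℝ) ^ (-(1 / θ)) := by
        gcongr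
    _ = b * (t : ℝ) ^ (1 - 1 / θ) := by
        push_cast
        rw [sub_eq_add_neg, Real.rpow_add ht0, Real.rpow_one]
        ring

/-- the structure of a typical integer forces a large order -/
theorem order_large {b y q G W : ℕ} {θ Z : ℝ} (hb : 2 ≤ b) (hy : b ≤ y) (hq : 1 ≤ q) (hG : 1 ≤ G)
    (hθ0 : 0 < θ) (hθ1 : θ ≤ 1) (hZ : 1 ≤ Z)
    (h1 : ∀ p : ℕ, p.Prime → p ≤ y → ((p ^ q.factorization p : ℕ) : ℝ) ≤ Z)
    (h2 : ∀ p : ℕ, p.Prime → y < p → ¬ p ^ 2 ∣ q)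
    (h3 : ∀ p : ℕ, p.Prime → y < p → p ∣ q → (p : ℝ) ^ θ ≤ orderOf (b : ZMod p))
    (h4 : q.primeFactors.card ≤ W)
    (h5 : ∀ p p' : ℕ, p.Prime → p'.Prime → p ≠ p' → p ∣ q → p' ∣ q →
      Nat.gcd (p - 1) (p' - 1) ≤ G) :
    ∀ i k : ℕ, 1 ≤ k → q ∣ b ^ i * (b ^ k - 1) → (q : ℝ) ^ θ ≤ Z ^ y * k * (G : ℝ) ^ (W ^ 2) := by
  intro i k hk hdvd
  set P := q.primeFactors.filter (fun p => y < p) with hP
  set S := q.primeFactors.filter (fun p => ¬ y < p) with hS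
  have hPp : ∀ p ∈ P, p.Prime ∧ y < p ∧ p ∣ q := by
    intro p hp
    rw [hP, mem_filter, Nat.mem_primeFactors] at hp
    exact ⟨hp.1.1, hp.2, hp.1.2.1⟩
  have hSp : ∀ p ∈ S, p.Prime ∧ p ≤ y := by
    intro p hp
    rw [hS, mem_filter, Nat.mem_primeFactors] at hp
    exact ⟨hp.1.1, by omega⟩
  have hnb : ∀ p ∈ P, ¬ p ∣ b := fun p hp hpb => by
    have := Nat.le_of_dvd (by omega) hpb
    have := (hPp p hp).2.1
    omega
  -- the factorisation of `q`
  have hfac : (q : ℝ) = (∏ p ∈ P, (p : ℝ)) * ∏ p ∈ S, ((p ^ q.factorization p : ℕ) : ℝ) := by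
    have e1 : ∏ p ∈ q.primeFactors, p ^ q.factorization p = q :=
      Nat.prod_factorization_pow_eq_self (by omega)
    have e2 := prod_filter_mul_prod_filter_not q.primeFactors (fun p => y < p)
      (fun p => p ^ q.factorization p)
    rw [e1] at e2
    have e3 : ∏ p ∈ P, p ^ q.factorization p = ∏ p ∈ P, p := by
      refine prod_congr rfl fun p hp => ?_
      obtain ⟨a1, a2, a3⟩ := hPp p hp
      have a4 : 1 ≤ q.factorization p := a1.factorization_pos_of_dvd (by omega) a3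
      have a5 : q.factorization p < 2 := by
        by_contra hcon
        push Not at hcon
        exact h2 p a1 a2 ((pow_dvd_pow p hcon).trans (Nat.ordProj_dvd q p))
      have a6 : q.factorization p = 1 := by omega
      rw [a6, pow_one]
    rw [← hP, ← hS, e3] at e2
    have e4 : (((∏ p ∈ P, p) * ∏ p ∈ S, p ^ q.factorization p : ℕ) : ℝ) = q := by
      exact_mod_cast e2
    rw [← e4]
    push_cast
    rfl
  -- the part with the small primes
  have hsmall : ∏ p ∈ S, ((p ^ q.factorization p : ℕ) : ℝ) ≤ Z ^ y := by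
    have hcard : S.card ≤ y := by
      have : S ⊆ Icc 1 y := fun p hp => by
        rw [mem_Icc]
        exact ⟨(hSp p hp).1.one_lt.le, (hSp p hp).2⟩
      simpa using card_le_card this
    calc ∏ p ∈ S, ((p ^ q.factorization p : ℕ) : ℝ) ≤ ∏ _p ∈ S, Z :=
          prod_le_prod (fun p _ => Nat.cast_nonneg _) fun p hp => h1 p (hSp p hp).1 (hSp p hp).2
      _ = Z ^ S.card := by rw [prod_const]
      _ ≤ Z ^ y := pow_le_pow_right₀ hZ hcard
  -- the part with the large primes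
  have hlarge : ∏ p ∈ P, orderOf (b : ZMod p) ≤ k * G ^ (P.card ^ 2) := by
    refine prod_le_of_dvd P (fun p => orderOf (b : ZMod p)) k G hk hG ?_ ?_
    · intro p hp
      obtain ⟨a1, a2, a3⟩ := hPp p hp
      rw [← dvd_pow_iff (by omega)]
      have a4 : p ∣ b ^ i * (b ^ k - 1) := a3.trans hdvd
      rcases (Nat.Prime.dvd_mul a1).1 a4 with a5 | a5
      · exact absurd (a1.dvd_of_dvd_pow a5) (hnb p hp)
      · exact a5
    · intro p hp p' hp' hne
      obtain ⟨a1, a2, a3⟩ := hPp p hp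
      obtain ⟨b1, b2, b3⟩ := hPp p' hp'
      refine le_trans (Nat.le_of_dvd ?_ (Nat.dvd_gcd
        ((Nat.gcd_dvd_left _ _).trans (order_dvd a1 (hnb p hp)))
        ((Nat.gcd_dvd_right _ _).trans (order_dvd b1 (hnb p' hp'))))) (h5 p p' a1 b1 hne a3 b3)
      exact Nat.gcd_pos_of_pos_left _ (Nat.sub_pos_of_lt a1.one_lt)
  have hPcard : P.card ≤ W := (card_filter_le _ _).trans h4
  have hGr : (1 : ℝ) ≤ G := by exact_mod_cast hG
  have hZ0 : (0 : ℝ) < Z := by linarith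
  have hprodp : 0 ≤ ∏ p ∈ P, (p : ℝ) := prod_nonneg fun p _ => Nat.cast_nonneg _
  have hprods : 0 ≤ ∏ p ∈ S, ((p ^ q.factorization p : ℕ) : ℝ) :=
    prod_nonneg fun p _ => Nat.cast_nonneg _
  calc (q : ℝ) ^ θ = (∏ p ∈ P, (p : ℝ)) ^ θ * (∏ p ∈ S, ((p ^ q.factorization p : ℕ) : ℝ)) ^ θ := by
        rw [hfac, Real.mul_rpow hprodp hprods]
    _ ≤ (k * (G : ℝ) ^ (W ^ 2)) * Z ^ y := by
        refine mul_le_mul ?_ ?_ (Real.rpow_nonneg hprods _) (by positivity)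
        · rw [← Real.finsetProd_rpow P _ fun p _ => Nat.cast_nonneg p]
          calc ∏ p ∈ P, (p : ℝ) ^ θ ≤ ∏ p ∈ P, (orderOf (b : ZMod p) : ℝ) :=
                prod_le_prod (fun p _ => by positivity) fun p hp =>
                  h3 p (hPp p hp).1 (hPp p hp).2.1 (hPp p hp).2.2
            _ = ((∏ p ∈ P, orderOf (b : ZMod p) : ℕ) : ℝ) := by push_cast; rfl
            _ ≤ ((k * G ^ (P.card ^ 2) : ℕ) : ℝ) := by exact_mod_cast hlarge
            _ = k * (G : ℝ) ^ (P.card ^ 2) := by push_cast; rfl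
            _ ≤ k * (G : ℝ) ^ (W ^ 2) := by gcongr
        · have hZy : 1 ≤ Z ^ y := one_le_pow₀ hZ
          calc (∏ p ∈ S, ((p ^ q.factorization p : ℕ) : ℝ)) ^ θ ≤ (Z ^ y) ^ θ :=
                Real.rpow_le_rpow hprods hsmall hθ0.le
            _ ≤ (Z ^ y) ^ (1 : ℝ) := Real.rpow_le_rpow_of_exponent_le hZy hθ1
            _ = Z ^ y := Real.rpow_one _
    _ = Z ^ y * k * (G : ℝ) ^ (W ^ 2) := by ring

end Pool.Agent.Y943.Fu
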