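import Pool.Agent.Y943.Fu.NT2

/-!
# The order of `b` modulo almost all integers, continued
-/

set_option autoImplicit false

namespace Pool.Agent.Y943.Fu

open Finset Filter Topology

theorem cnt_sq (X : ℕ) : cnt X (fun q => q ^ 2 ≤ X) ≤ Real.sqrt X := by
  rw [cnt_eq]
  have h1 : (Icc 1 X).filter (fun q => q ^ 2 ≤ X) ⊆ Icc 1 (Nat.sqrt X) := by
    intro q hq
    rw [mem_filter, mem_Icc] at hq
    rw [mem_Icc]
    exact ⟨hq.1.1, Nat.le_sqrt'.2 hq.2⟩
  have h2 := card_le_card h1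
  rw [Nat.card_Icc] at h2
  have h3 : (((Icc 1 X).filter (fun q => q ^ 2 ≤ X)).card : ℝ) ≤ Nat.sqrt X := by
    exact_mod_cast (by omega)
  exact h3.trans (Real.nat_sqrt_le_real_sqrt)

theorem cnt_primepow (X p : ℕ) {Z : ℝ} (hZ : 0 < Z) :
    cnt X (fun q => p.Prime ∧ Z < ((p ^ q.factorization p : ℕ) : ℝ)) ≤ X / Z := by
  by_cases hp : p.Prime
  · have hex : ∃ j : ℕ, Z < ((p ^ j : ℕ) : ℝ) := by
      obtain ⟨j, hj⟩ := pow_unbounded_of_one_lt Z (by exact_mod_cast hp.one_lt : (1 : ℝ) < p)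
      exact ⟨j, by exact_mod_cast hj⟩
    classical
    have h1 := Nat.find_spec hex
    refine (cnt_mono (R := fun q => p ^ Nat.find hex ∣ q) ?_).trans
      ((cnt_dvd X (p ^ Nat.find hex)).trans ?_)
    · intro q _ _ hq
      have h2 : Nat.find hex ≤ q.factorization p := Nat.find_min' hex hq.2
      exact (pow_dvd_pow p h2).trans (Nat.ordProj_dvd q p)
    · exact div_le_div_of_nonneg_left (Nat.cast_nonneg _) hZ h1.le
  · have : cnt X (fun q => p.Prime ∧ Z < ((p ^ q.factorization p : ℕ) : ℝ)) ≤ 0 := by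
      rw [cnt_eq]
      simp [hp]
    exact this.trans (by positivity)

theorem cnt_small (X y : ℕ) {Z : ℝ} (hZ : 0 < Z) :
    cnt X (fun q => ∃ p ∈ Icc 1 y, p.Prime ∧ Z < ((p ^ q.factorization p : ℕ) : ℝ)) ≤
      y / Z * X := by
  refine (cnt_exists X (Icc 1 y) _).trans ((sum_le_sum fun p _ => cnt_primepow X p hZ).trans ?_)
  rw [sum_const, Nat.card_Icc, nsmul_eq_mul]
  simp only [Nat.add_sub_cancel]
  exact le_of_eq (by ring)

theorem cnt_square (X y : ℕ) :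
    cnt X (fun q => ∃ p ∈ Ioo y (X + 1), p ^ 2 ∣ q) ≤ 2 / (y + 1) * X := by
  refine (cnt_exists X (Ioo y (X + 1)) _).trans ((sum_le_sum fun p _ => cnt_dvd X (p ^ 2)).trans ?_)
  have h1 := sum_Ioo_inv_sq_le (α := ℝ) y (X + 1)
  calc ∑ p ∈ Ioo y (X + 1), (X : ℝ) / ((p ^ 2 : ℕ) : ℝ) =
      (∑ p ∈ Ioo y (X + 1), ((p : ℝ) ^ 2)⁻¹) * X := by
        rw [sum_mul]
        refine sum_congr rfl fun p _ => ?_
        push_cast
        rw [div_eq_mul_inv, mul_comm]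
    _ ≤ 2 / (y + 1) * X := by gcongr

theorem cnt_ex (X y b : ℕ) (θ : ℝ) {η : ℝ}
    (hη : ∀ F : Finset ℕ, (∀ p ∈ F, y < p) → ∑ p ∈ F, ex b θ p ≤ η) :
    cnt X (fun q => ∃ p ∈ Ioc y X, (p.Prime ∧ ¬ p ∣ b ∧
      (orderOf (b : ZMod p) : ℝ) < (p : ℝ) ^ θ) ∧ p ∣ q) ≤ η * X := by
  refine (cnt_exists X (Ioc y X) _).trans ?_
  have h1 : ∀ p ∈ Ioc y X, cnt X (fun q => (p.Prime ∧ ¬ p ∣ b ∧
      (orderOf (b : ZMod p) : ℝ) < (p : ℝ) ^ θ) ∧ p ∣ q) ≤ ex b θ p * X := by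
    intro p _
    by_cases hp : p.Prime ∧ ¬ p ∣ b ∧ (orderOf (b : ZMod p) : ℝ) < (p : ℝ) ^ θ
    · have h2 : ex b θ p = 1 / p := by
        unfold ex
        rw [if_pos hp]
      rw [h2]
      refine (cnt_mono (R := fun q => p ∣ q) fun q _ _ hq => hq.2).trans ((cnt_dvd X p).trans ?_)
      exact le_of_eq (by ring)
    · refine (le_of_eq ?_ : _ ≤ (0 : ℝ)).trans (mul_nonneg (ex_nonneg _ _ _) (Nat.cast_nonneg _))
      unfold cnt
      have : ({q : ℕ | 1 ≤ q ∧ q ≤ X ∧ ((p.Prime ∧ ¬ p ∣ b ∧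
          (orderOf (b : ZMod p) : ℝ) < (p : ℝ) ^ θ) ∧ p ∣ q)} : Set ℕ) = ∅ := by
        ext q
        simp only [Set.mem_ofPred_eq, Set.mem_empty_iff_false, iff_false]
        exact fun h => hp h.2.2.1
      rw [this]
      simp
  refine (sum_le_sum h1).trans ?_
  rw [← sum_mul]
  have := hη (Ioc y X) fun p hp => (mem_Ioc.1 hp).1
  gcongr

theorem cnt_tau (X : ℕ) (hX : 1 ≤ X) {T : ℝ} (hT : 0 < T) :
    cnt X (fun q => T < (q.divisors.card : ℝ)) ≤ (1 + Real.log X) / T * X := by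
  classical
  rw [cnt_eq]
  have h1 : (((Icc 1 X).filter (fun q => T < (q.divisors.card : ℝ))).card : ℝ) * T ≤
      ∑ q ∈ Icc 1 X, (q.divisors.card : ℝ) := by
    calc (((Icc 1 X).filter (fun q => T < (q.divisors.card : ℝ))).card : ℝ) * T =
        ∑ _q ∈ (Icc 1 X).filter (fun q => T < (q.divisors.card : ℝ)), T := by
          rw [sum_const, nsmul_eq_mul]
      _ ≤ ∑ q ∈ (Icc 1 X).filter (fun q => T < (q.divisors.card : ℝ)), (q.divisors.card : ℝ) :=
          sum_le_sum fun q hq => (mem_filter.1 hq).2.le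
      _ ≤ ∑ q ∈ Icc 1 X, (q.divisors.card : ℝ) :=
          sum_le_sum_of_subset_of_nonneg (filter_subset _ _) fun _ _ _ => Nat.cast_nonneg _
  have h2 := h1.trans (sum_tau X hX)
  rw [div_mul_eq_mul_div, le_div_iff₀ hT]
  linarith

theorem cnt_pairs (X G : ℕ) (hG : 1 ≤ G) :
    cnt X (fun q => ∃ d ∈ Icc G X, ∃ n ∈ (Icc 2 X).filter (fun n => d ∣ n - 1),
      ∃ n' ∈ (Icc 2 X).filter (fun n => d ∣ n - 1), n * n' ∣ q) ≤
      2 * (1 + Real.log X) ^ 2 / G * X := by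
  have hX0 : (0 : ℝ) ≤ X := Nat.cast_nonneg _
  refine (cnt_exists X (Icc G X) _).trans ?_
  have h1 : ∀ d ∈ Icc G X, cnt X (fun q => ∃ n ∈ (Icc 2 X).filter (fun n => d ∣ n - 1),
      ∃ n' ∈ (Icc 2 X).filter (fun n => d ∣ n - 1), n * n' ∣ q) ≤
      ((1 + Real.log X) / d) ^ 2 * X := by
    intro d hd
    rw [mem_Icc] at hd
    have h2 : ∀ n ∈ (Icc 2 X).filter (fun n => d ∣ n - 1),
        cnt X (fun q => ∃ n' ∈ (Icc 2 X).filter (fun n => d ∣ n - 1), n * n' ∣ q) ≤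
          (1 : ℝ) / n * ((1 + Real.log X) / d) * X := by
      intro n _
      refine (cnt_exists X _ _).trans ((sum_le_sum fun n' _ => cnt_dvd X (n * n')).trans ?_)
      calc ∑ n' ∈ (Icc 2 X).filter (fun n => d ∣ n - 1), (X : ℝ) / ((n * n' : ℕ) : ℝ) =
          (1 : ℝ) / n * (∑ n' ∈ (Icc 2 X).filter (fun n => d ∣ n - 1), (1 : ℝ) / n') * X := by
            rw [mul_sum, sum_mul]
            refine sum_congr rfl fun n' _ => ?_
            push_cast
            rw [one_div_mul_one_div, div_mul_eq_mul_div, one_mul]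
        _ ≤ _ := by
            have := sum_class X d (hG.trans hd.1)
            gcongr
    refine (cnt_exists X _ _).trans ((sum_le_sum h2).trans ?_)
    rw [← sum_mul, ← sum_mul]
    have h3 := sum_class X d (hG.trans hd.1)
    have h4 : 0 ≤ (1 + Real.log X) / d := by
      have : 0 ≤ Real.log X := Real.log_natCast_nonneg X
      positivity
    calc (∑ n ∈ (Icc 2 X).filter (fun n => d ∣ n - 1), (1 : ℝ) / n) * ((1 + Real.log X) / d) * X ≤
        ((1 + Real.log X) / d) * ((1 + Real.log X) / d) * X := by gcongr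
      _ = _ := by ring
  refine (sum_le_sum h1).trans ?_
  have h5 := sum_Ioo_inv_sq_le (α := ℝ) (G - 1) (X + 1)
  have h6 : Ioo (G - 1) (X + 1) = Icc G X := by
    ext d
    simp only [mem_Ioo, mem_Icc]
    omega
  rw [h6, Nat.cast_sub hG] at h5
  push_cast at h5
  rw [sub_add_cancel] at h5
  calc ∑ d ∈ Icc G X, ((1 + Real.log X) / d) ^ 2 * X =
      (1 + Real.log X) ^ 2 * (∑ d ∈ Icc G X, ((d : ℝ) ^ 2)⁻¹) * X := by
        rw [mul_sum, sum_mul]
        refine sum_congr rfl fun d _ => ?_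
        rw [div_pow, div_eq_mul_inv]
    _ ≤ (1 + Real.log X) ^ 2 * (2 / G) * X := by gcongr
    _ = 2 * (1 + Real.log X) ^ 2 / G * X := by ring

/-- **the order of `b` modulo `q` is at least `q ^ θ` for almost all `q`** if `θ < 1/2` -/
theorem dz_bad {b : ℕ} (hb : 2 ≤ b) {θ : ℝ} (hθ0 : 0 < θ) (hθ : θ < 1 / 2) :
    DZ (fun q => ¬ ∀ i k : ℕ, 1 ≤ k → q ∣ b ^ i * (b ^ k - 1) → (q : ℝ) ^ θ ≤ k) := by
  intro ε hε
  set θ' : ℝ := (θ + 1 / 2) / 2 with hθ'
  have hθ'1 : θ < θ' := by rw [hθ']; linarith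
  have hθ'2 : θ' < 1 / 2 := by rw [hθ']; linarith
  have hθ'0 : 0 < θ' := hθ0.trans hθ'1
  set δ : ℝ := (θ' - θ) / 4 with hδ
  have hδ0 : 0 < δ := by rw [hδ]; linarith
  -- the exceptional primes
  obtain ⟨s0, hs0⟩ := summable_iff_vanishing_norm.1 (ex_summable hb hθ'0 hθ'2) (ε / 8)
    (by linarith)
  obtain ⟨m, hm⟩ := exists_nat_gt (16 / ε)
  set y : ℕ := b + s0.sup id + m with hy
  have hyb : b ≤ y := by omega
  have hys : ∀ p ∈ s0, p ≤ y := fun p hp => by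
    have : p ≤ s0.sup id := Finset.le_sup (f := id) hp
    omega
  have hym : (m : ℝ) ≤ y := by exact_mod_cast (by omega : m ≤ y)
  have hy0 : (0 : ℝ) < y := by exact_mod_cast (by omega : 0 < y)
  have hη : ∀ F : Finset ℕ, (∀ p ∈ F, y < p) → ∑ p ∈ F, ex b θ' p ≤ ε / 8 := by
    intro F hF
    have h1 := hs0 F (Finset.disjoint_left.2 fun p hp hp2 => by
      have := hF p hp
      have := hys p hp2
      omega)
    exact (le_abs_self _).trans h1.le
  -- the asymptotic conditions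
  have hLt : Tendsto (fun X : ℕ => Real.log X) atTop atTop :=
    Real.tendsto_log_atTop.comp tendsto_natCast_atTop_atTop
  have c0 : ∀ᶠ X : ℕ in atTop, 8 / ε ≤ Real.sqrt X :=
    (Real.tendsto_sqrt_atTop.comp tendsto_natCast_atTop_atTop).eventually_ge_atTop _
  have c1 : ∀ᶠ X : ℕ in atTop, 8 * y / ε + 1 ≤ (X : ℝ) ^ (δ / y) :=
    ((tendsto_rpow_atTop (by positivity)).comp tendsto_natCast_atTop_atTop).eventually_ge_atTop _
  have c4 : ∀ᶠ X : ℕ in atTop, 64 / ε + 8 ≤ Real.log X := hLt.eventually_ge_atTop _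
  have c6 : ∀ᶠ X : ℕ in atTop, 36 * Real.log (Real.log X) ^ 3 ≤ δ * Real.log X := by
    have h1 := (Real.isLittleO_pow_log_id_atTop (n := 3)).comp_tendsto hLt
    have h2 := h1.bound (by positivity : 0 < δ / 36)
    filter_upwards [h2, hLt.eventually_ge_atTop 1] with X hX hX2
    simp only [Function.comp, id] at hX
    rw [Real.norm_eq_abs, Real.norm_eq_abs, abs_of_nonneg (by linarith : 0 ≤ Real.log X)] at hX
    have := (le_abs_self _).trans hX
    linarith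
  obtain ⟨X₀, hX₀⟩ := eventually_atTop.1 (c0.and (c1.and (c4.and c6)))
  refine ⟨max X₀ 1, fun X hX => ?_⟩
  obtain ⟨d0, d1, d4, d6⟩ := hX₀ X ((le_max_left _ _).trans hX)
  have hX1 : 1 ≤ X := (le_max_right _ _).trans hX
  have hXr : (1 : ℝ) ≤ X := by exact_mod_cast hX1
  have hX0 : (0 : ℝ) < X := by linarith
  set L := Real.log X with hL
  have hL8 : 8 ≤ L := by
    have : 0 < 64 / ε := by positivity
    linarith
  have hLε : 64 / ε ≤ L := by linarith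
  set Z : ℝ := (X : ℝ) ^ (δ / y) with hZ
  have hZ1 : 1 ≤ Z := by
    have : 0 < 8 * y / ε := by positivity
    linarith
  have hZy : Z ^ y = (X : ℝ) ^ δ := by
    rw [hZ, ← Real.rpow_natCast, ← Real.rpow_mul hX0.le]
    congr 1
    field_simp
  set G : ℕ := ⌈L ^ 3⌉₊ with hG
  have hG1 : 1 ≤ G := Nat.one_le_ceil_iff.2 (by positivity)
  have hGL : L ^ 3 ≤ G := Nat.le_ceil _
  have hGL2 : (G : ℝ) ≤ L ^ 4 := by
    have h1 := (Nat.ceil_lt_add_one (by positivity : 0 ≤ L ^ 3)).le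
    have h2 : (1 : ℝ) ≤ L ^ 3 := one_le_pow₀ (by linarith)
    have h3 : L ^ 4 = L * L ^ 3 := by ring
    nlinarith
  set W : ℕ := ⌊3 * Real.log L⌋₊ with hW
  have hlogL : 0 ≤ Real.log L := Real.log_nonneg (by linarith)
  have hGW : (G : ℝ) ^ (W ^ 2) ≤ (X : ℝ) ^ δ := by
    have hG0 : (0 : ℝ) < G := by exact_mod_cast hG1
    have h1 : (W : ℝ) ≤ 3 * Real.log L := Nat.floor_le (by positivity)
    have h2 : Real.log G ≤ 4 * Real.log L := by
      have := Real.log_le_log hG0 hGL2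
      rw [Real.log_pow] at this
      exact_mod_cast this
    have h3 : Real.log ((G : ℝ) ^ (W ^ 2)) ≤ Real.log ((X : ℝ) ^ δ) := by
      rw [Real.log_pow, Real.log_rpow hX0]
      push_cast
      have h4 : 0 ≤ Real.log G := Real.log_nonneg (by exact_mod_cast hG1)
      calc (W : ℝ) ^ 2 * Real.log G ≤ (3 * Real.log L) ^ 2 * (4 * Real.log L) := by gcongr
        _ = 36 * Real.log L ^ 3 := by ring
        _ ≤ δ * L := d6
    exact (Real.log_le_log_iff (by positivity) (by positivity)).1 h3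
  -- the exceptional events
  have key : ∀ q, 1 ≤ q → q ≤ X →
      (¬ ∀ i k : ℕ, 1 ≤ k → q ∣ b ^ i * (b ^ k - 1) → (q : ℝ) ^ θ ≤ k) →
      (q ^ 2 ≤ X ∨ (∃ p ∈ Icc 1 y, p.Prime ∧ Z < ((p ^ q.factorization p : ℕ) : ℝ))) ∨
      ((∃ p ∈ Ioo y (X + 1), p ^ 2 ∣ q) ∨ (∃ p ∈ Ioc y X, (p.Prime ∧ ¬ p ∣ b ∧
        (orderOf (b : ZMod p) : ℝ) < (p : ℝ) ^ θ') ∧ p ∣ q)) ∨
      (L ^ 2 < (q.divisors.card : ℝ) ∨ (∃ d ∈ Icc G X,
        ∃ n ∈ (Icc 2 X).filter (fun n => d ∣ n - 1),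
        ∃ n' ∈ (Icc 2 X).filter (fun n => d ∣ n - 1), n * n' ∣ q)) := by
    intro q hq1 hqX hbad
    by_contra hcon
    push Not at hcon
    obtain ⟨⟨e0, e1⟩, ⟨e2, e3⟩, e4, e5⟩ := hcon
    apply hbad
    intro i k hk hdvd
    have hqr : (1 : ℝ) ≤ q := by exact_mod_cast hq1
    have hq0 : (0 : ℝ) < q := by linarith
    have hle : ∀ p : ℕ, p ∣ q → p ≤ X := fun p hp => (Nat.le_of_dvd hq1 hp).trans hqX
    have main := order_large (b := b) (y := y) (q := q) (G := G) (W := W) (θ := θ') (Z := Z) hb hyb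
      hq1 hG1 hθ'0 (by linarith) hZ1
      (fun p hp hpy => not_lt.1 fun hlt => by
        have := e1 p (mem_Icc.2 ⟨hp.one_lt.le, hpy⟩) hp
        linarith)
      (fun p hp hpy hdv => e2 p (mem_Ioo.2 ⟨hpy, by
        have := hle p ((dvd_pow_self p two_ne_zero).trans hdv)
        omega⟩) hdv)
      (fun p hp hpy hdv => not_lt.1 fun hlt =>
        e3 p (mem_Ioc.2 ⟨hpy, hle p hdv⟩) ⟨hp, fun hpb => by
          have := Nat.le_of_dvd (by omega) hpb
          omega, hlt⟩ hdv)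
      (by
        rw [hW]
        apply Nat.le_floor
        have h1 : ((2 ^ q.primeFactors.card : ℕ) : ℝ) ≤ q.divisors.card := by
          exact_mod_cast two_pow_omega (by omega : q ≠ 0)
        have h2 := h1.trans e4
        push_cast at h2
        have h3 := Real.log_le_log (by positivity) h2
        rw [Real.log_pow, Real.log_pow] at h3
        push_cast at h3
        have h4 := Real.log_two_gt_d9
        have h5 : (0 : ℝ) ≤ q.primeFactors.card := Nat.cast_nonneg _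
        nlinarith)
      (fun p p' hp hp' hne hpq hpq' => by
        by_contra hlt
        push Not at hlt
        have hg := Nat.gcd_dvd_left (p - 1) (p' - 1)
        have hg' := Nat.gcd_dvd_right (p - 1) (p' - 1)
        have hp2 := hp.two_le
        have hp2' := hp'.two_le
        have hpX := hle p hpq
        have hpX' := hle p' hpq'
        have hgle := Nat.le_of_dvd (by omega) hg
        refine e5 _ (mem_Icc.2 ⟨hlt.le, by omega⟩) p
          (mem_filter.2 ⟨mem_Icc.2 ⟨hp2, hpX⟩, hg⟩) p'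
          (mem_filter.2 ⟨mem_Icc.2 ⟨hp2', hpX'⟩, hg'⟩) ?_
        exact ((Nat.coprime_primes hp hp').2 hne).mul_dvd_of_dvd_of_dvd hpq hpq') i k hk hdvd
    rw [hZy] at main
    have hk0 : (0 : ℝ) ≤ k := Nat.cast_nonneg _
    have hXd : (X : ℝ) ^ δ ≤ (q : ℝ) ^ (2 * δ) := by
      have h1 : (X : ℝ) ≤ (q : ℝ) ^ 2 := by exact_mod_cast e0.le
      calc (X : ℝ) ^ δ ≤ ((q : ℝ) ^ 2) ^ δ := Real.rpow_le_rpow hX0.le h1 hδ0.le
        _ = (q : ℝ) ^ (2 * δ) := by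
          rw [← Real.rpow_natCast, ← Real.rpow_mul hq0.le]
          norm_num
    have h6 : (q : ℝ) ^ θ' ≤ k * (q : ℝ) ^ (4 * δ) := by
      calc (q : ℝ) ^ θ' ≤ (X : ℝ) ^ δ * k * (G : ℝ) ^ (W ^ 2) := main
        _ ≤ (q : ℝ) ^ (2 * δ) * k * (q : ℝ) ^ (2 * δ) := by
            gcongr
            exact hGW.trans hXd
        _ = k * ((q : ℝ) ^ (2 * δ) * (q : ℝ) ^ (2 * δ)) := by ring
        _ = k * (q : ℝ) ^ (4 * δ) := by
            rw [← Real.rpow_add hq0]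
            ring_nf
    have h7 : (q : ℝ) ^ θ' = (q : ℝ) ^ θ * (q : ℝ) ^ (4 * δ) := by
      rw [← Real.rpow_add hq0]
      congr 1
      rw [hδ]
      ring
    rw [h7] at h6
    exact le_of_mul_le_mul_right h6 (by positivity)
  refine (cnt_mono key).trans ?_
  have b1 := cnt_or X (fun q => q ^ 2 ≤ X ∨
    (∃ p ∈ Icc 1 y, p.Prime ∧ Z < ((p ^ q.factorization p : ℕ) : ℝ)))
    (fun q => ((∃ p ∈ Ioo y (X + 1), p ^ 2 ∣ q) ∨ (∃ p ∈ Ioc y X, (p.Prime ∧ ¬ p ∣ b ∧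
        (orderOf (b : ZMod p) : ℝ) < (p : ℝ) ^ θ') ∧ p ∣ q)) ∨
      (L ^ 2 < (q.divisors.card : ℝ) ∨ (∃ d ∈ Icc G X,
        ∃ n ∈ (Icc 2 X).filter (fun n => d ∣ n - 1),
        ∃ n' ∈ (Icc 2 X).filter (fun n => d ∣ n - 1), n * n' ∣ q)))
  have b2 := cnt_or X (fun q => q ^ 2 ≤ X)
    (fun q => ∃ p ∈ Icc 1 y, p.Prime ∧ Z < ((p ^ q.factorization p : ℕ) : ℝ))
  have b3 := cnt_or X (fun q => (∃ p ∈ Ioo y (X + 1), p ^ 2 ∣ q) ∨ (∃ p ∈ Ioc y X, (p.Prime ∧
        ¬ p ∣ b ∧ (orderOf (b : ZMod p) : ℝ) < (p : ℝ) ^ θ') ∧ p ∣ q))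
    (fun q => L ^ 2 < (q.divisors.card : ℝ) ∨ (∃ d ∈ Icc G X,
        ∃ n ∈ (Icc 2 X).filter (fun n => d ∣ n - 1),
        ∃ n' ∈ (Icc 2 X).filter (fun n => d ∣ n - 1), n * n' ∣ q))
  have b4 := cnt_or X (fun q => ∃ p ∈ Ioo y (X + 1), p ^ 2 ∣ q)
    (fun q => ∃ p ∈ Ioc y X, (p.Prime ∧ ¬ p ∣ b ∧
        (orderOf (b : ZMod p) : ℝ) < (p : ℝ) ^ θ') ∧ p ∣ q)
  have b5 := cnt_or X (fun q => L ^ 2 < (q.divisors.card : ℝ))
    (fun q => ∃ d ∈ Icc G X, ∃ n ∈ (Icc 2 X).filter (fun n => d ∣ n - 1),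
        ∃ n' ∈ (Icc 2 X).filter (fun n => d ∣ n - 1), n * n' ∣ q)
  have u0 : cnt X (fun q => q ^ 2 ≤ X) ≤ ε / 8 * X := by
    refine (cnt_sq X).trans ?_
    have h1 : Real.sqrt X * Real.sqrt X = X := Real.mul_self_sqrt hX0.le
    have h2 : 1 ≤ ε / 8 * Real.sqrt X := by
      rw [div_le_iff₀ hε] at d0
      linarith
    calc Real.sqrt X = 1 * Real.sqrt X := (one_mul _).symm
      _ ≤ ε / 8 * Real.sqrt X * Real.sqrt X := by gcongr
      _ = ε / 8 * X := by rw [mul_assoc, h1]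
  have u1 : cnt X (fun q => ∃ p ∈ Icc 1 y, p.Prime ∧ Z < ((p ^ q.factorization p : ℕ) : ℝ)) ≤
      ε / 8 * X := by
    refine (cnt_small X y (by linarith)).trans ?_
    have h1 : (y : ℝ) / Z ≤ ε / 8 := by
      rw [div_le_iff₀ (by linarith)]
      have h2 : 8 * (y : ℝ) / ε ≤ Z := by linarith
      rw [div_le_iff₀ hε] at h2
      linarith
    gcongr
  have u2 : cnt X (fun q => ∃ p ∈ Ioo y (X + 1), p ^ 2 ∣ q) ≤ ε / 8 * X := by
    refine (cnt_square X y).trans ?_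
    have h1 : 2 / ((y : ℝ) + 1) ≤ ε / 8 := by
      rw [div_le_iff₀ (by positivity)]
      rw [div_lt_iff₀ hε] at hm
      have h2 := mul_le_mul_of_nonneg_left hym hε.le
      linarith
    gcongr
  have u3 := cnt_ex X y b θ' hη
  have u4 : cnt X (fun q => L ^ 2 < (q.divisors.card : ℝ)) ≤ ε / 8 * X := by
    refine (cnt_tau X hX1 (by positivity)).trans ?_
    have h1 : (1 + L) / L ^ 2 ≤ ε / 8 := by
      rw [div_le_iff₀ (by positivity)]
      rw [div_le_iff₀ hε] at hLε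
      have h2 := mul_le_mul_of_nonneg_right hLε (by linarith : (0 : ℝ) ≤ L)
      have h3 : ε / 8 * L ^ 2 = L * ε * L / 8 := by ring
      rw [h3]
      linarith
    gcongr
  have u5 : cnt X (fun q => ∃ d ∈ Icc G X, ∃ n ∈ (Icc 2 X).filter (fun n => d ∣ n - 1),
        ∃ n' ∈ (Icc 2 X).filter (fun n => d ∣ n - 1), n * n' ∣ q) ≤ ε / 8 * X := by
    refine (cnt_pairs X G hG1).trans ?_
    have hG0 : (0 : ℝ) < G := by exact_mod_cast hG1
    have h1 : 2 * (1 + L) ^ 2 / G ≤ ε / 8 := by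
      have h2 : 2 * (1 + L) ^ 2 / G ≤ 2 * (1 + L) ^ 2 / L ^ 3 :=
        div_le_div_of_nonneg_left (by positivity) (by positivity) hGL
      refine h2.trans ?_
      rw [div_le_iff₀ (by positivity)]
      rw [div_le_iff₀ hε] at hLε
      have h3 : (1 + L) ^ 2 ≤ 2 * L ^ 2 := by nlinarith
      have h4 : ε / 8 * L ^ 3 = (L * ε) / 8 * L ^ 2 := by ring
      rw [h4]
      have h5 : 0 < L ^ 2 := by positivity
      have h6 := mul_le_mul_of_nonneg_right hLε h5.le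
      linarith
    gcongr
  have : 0 ≤ ε / 8 * X := by positivity
  linarith

end Pool.Agent.Y943.Fu
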