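import Pool.Agent.Y943.Fu.NT3

/-!
# Almost all integers have a good prime factor
-/

set_option autoImplicit false

namespace Pool.Agent.Y943.Fu

open Finset Filter Topology

/-- the factorisation of an integer without large square factors -/
theorem fac_bound {y q : ℕ} {Z : ℝ} (hq : 1 ≤ q) (hZ : 1 ≤ Z)
    (h1 : ∀ p : ℕ, p.Prime → p ≤ y → ((p ^ q.factorization p : ℕ) : ℝ) ≤ Z)
    (h2 : ∀ p : ℕ, p.Prime → y < p → ¬ p ^ 2 ∣ q) :
    (q : ℝ) ≤ (∏ p ∈ q.primeFactors.filter (fun p => y < p), (p : ℝ)) * Z ^ y := by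
  set P := q.primeFactors.filter (fun p => y < p) with hP
  set S := q.primeFactors.filter (fun p => ¬ y < p) with hS
  have hPp : ∀ p ∈ P, p.Prime ∧ y < p ∧ p ∣ q := by
    intro p hp
    rw [hP, mem_filter, Nat.mem_primeFactors] at hp
    exact ⟨hp.1.1, hp.2, hp.1.2.1⟩
  have hSp : ∀ p ∈ S, p.Prime ∧ p ≤ y := by
    intro p hp
    rw [hS, mem_filter, Nat.mem_primeFactors] at hp
    exact ⟨hp.1.1, by omega⟩
  have hfac : (q : ℝ) = (∏ p ∈ P, (p : ℝ)) * ∏ p ∈ S, ((p ^ q.factorization p : ℕ) : ℝ) := by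
    have e1 : ∏ p ∈ q.primeFactors, p ^ q.factorization p = q :=
      Nat.prod_factorization_pow_eq_self (by omega)
    have e2 := prod_filter_mul_prod_filter_not q.primeFactors (fun p => y < p)
      (fun p => p ^ q.factorization p)
    rw [e1] at e2
    have e3 : ∏ p ∈ P, p ^ q.factorization p = ∏ p ∈ P, p := by
      refine prod_congr rfl fun p hp => ?_
      obtain ⟨a1, a2, a3⟩ := hPp p hp
      have a4 : 1 ≤ q.factorization p := a1.factorization_pos_of_dvd (by omega) a3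
      have a5 : q.factorization p < 2 := by
        by_contra hcon
        push Not at hcon
        exact h2 p a1 a2 ((pow_dvd_pow p hcon).trans (Nat.ordProj_dvd q p))
      have a6 : q.factorization p = 1 := by omega
      rw [a6, pow_one]
    rw [← hP, ← hS, e3] at e2
    have e4 : (((∏ p ∈ P, p) * ∏ p ∈ S, p ^ q.factorization p : ℕ) : ℝ) = q := by
      exact_mod_cast e2
    rw [← e4]
    push_cast
    rfl
  have hsmall : ∏ p ∈ S, ((p ^ q.factorization p : ℕ) : ℝ) ≤ Z ^ y := by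
    have hcard : S.card ≤ y := by
      have : S ⊆ Icc 1 y := fun p hp => by
        rw [mem_Icc]
        exact ⟨(hSp p hp).1.one_lt.le, (hSp p hp).2⟩
      simpa using card_le_card this
    calc ∏ p ∈ S, ((p ^ q.factorization p : ℕ) : ℝ) ≤ ∏ _p ∈ S, Z :=
          prod_le_prod (fun p _ => Nat.cast_nonneg _) fun p hp => h1 p (hSp p hp).1 (hSp p hp).2
      _ = Z ^ S.card := by rw [prod_const]
      _ ≤ Z ^ y := pow_le_pow_right₀ hZ hcard
  have hprodp : 0 ≤ ∏ p ∈ P, (p : ℝ) := prod_nonneg fun p _ => Nat.cast_nonneg _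
  calc (q : ℝ) = (∏ p ∈ P, (p : ℝ)) * ∏ p ∈ S, ((p ^ q.factorization p : ℕ) : ℝ) := hfac
    _ ≤ (∏ p ∈ P, (p : ℝ)) * Z ^ y := by gcongr

/-- a large prime factor -/
theorem exists_large_prime {y q W : ℕ} {Z Y : ℝ} (hq : 1 ≤ q) (hZ : 1 ≤ Z) (hY : 1 ≤ Y)
    (h1 : ∀ p : ℕ, p.Prime → p ≤ y → ((p ^ q.factorization p : ℕ) : ℝ) ≤ Z)
    (h2 : ∀ p : ℕ, p.Prime → y < p → ¬ p ^ 2 ∣ q) (h4 : q.primeFactors.card ≤ W)
    (h7 : Y ^ W * Z ^ y < q) : ∃ p : ℕ, p.Prime ∧ y < p ∧ p ∣ q ∧ Y < p := by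
  by_contra hcon
  push Not at hcon
  have h8 := fac_bound hq hZ h1 h2
  have h9 : ∏ p ∈ q.primeFactors.filter (fun p => y < p), (p : ℝ) ≤ Y ^ W := by
    calc ∏ p ∈ q.primeFactors.filter (fun p => y < p), (p : ℝ) ≤
        ∏ _p ∈ q.primeFactors.filter (fun p => y < p), Y := by
          refine prod_le_prod (fun p _ => Nat.cast_nonneg _) fun p hp => ?_
          rw [mem_filter, Nat.mem_primeFactors] at hp
          exact hcon p hp.1.1 hp.2 hp.1.2.1
      _ = Y ^ (q.primeFactors.filter (fun p => y < p)).card := by rw [prod_const]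
      _ ≤ Y ^ W := pow_le_pow_right₀ hY ((card_filter_le _ _).trans h4)
  have h10 : (0 : ℝ) ≤ Z ^ y := by positivity
  have h11 := mul_le_mul_of_nonneg_right h9 h10
  linarith

/-- the exponent: `r ∣ b ^ n₀ (b ^ D - 1)` for `D = ∏ φ(l ^ e)` -/
theorem dvd_exponent {b r n₀ : ℕ} (hb : 1 ≤ b) (hr : 1 ≤ r) (hn₀ : r < 2 ^ n₀) :
    r ∣ b ^ n₀ * (b ^ (∏ l ∈ r.primeFactors.filter (fun l => ¬ l ∣ b),
      Nat.totient (l ^ r.factorization l)) - 1) := by
  rw [Nat.dvd_iff_prime_pow_dvd_dvd]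
  intro l k hl hk
  rcases Nat.eq_zero_or_pos k with rfl | hk0
  · simp
  have hlr : l ∣ r := (dvd_pow_self l hk0.ne').trans hk
  have hk2 : k ≤ r.factorization l := (hl.pow_dvd_iff_le_factorization (by omega)).1 hk
  by_cases hlb : l ∣ b
  · refine Dvd.dvd.mul_right ?_ _
    have h1 : k ≤ n₀ := by
      by_contra hcon
      push Not at hcon
      have h2 : l ^ k ≤ r := Nat.le_of_dvd hr hk
      have h3 : 2 ^ n₀ ≤ l ^ k := by
        calc 2 ^ n₀ ≤ 2 ^ k := Nat.pow_le_pow_right (by norm_num) hcon.le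
          _ ≤ l ^ k := Nat.pow_le_pow_left hl.two_le k
      omega
    exact (pow_dvd_pow l h1).trans (pow_dvd_pow_of_dvd hlb n₀)
  · refine Dvd.dvd.mul_left ?_ _
    refine (pow_dvd_pow l hk2).trans ?_
    have h4 : l ∈ r.primeFactors.filter (fun l => ¬ l ∣ b) := by
      rw [mem_filter, Nat.mem_primeFactors]
      exact ⟨⟨hl, hlr, by omega⟩, hlb⟩
    have h5 : Nat.totient (l ^ r.factorization l) ∣
        ∏ l ∈ r.primeFactors.filter (fun l => ¬ l ∣ b), Nat.totient (l ^ r.factorization l) :=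
      dvd_prod_of_mem (fun l => Nat.totient (l ^ r.factorization l)) h4
    have h6 : Nat.Coprime b (l ^ r.factorization l) :=
      Nat.Coprime.pow_right _ ((Nat.Prime.coprime_iff_not_dvd hl).2 hlb).symm
    have h7 := Nat.ModEq.pow_totient h6
    obtain ⟨m, hm⟩ := h5
    rw [hm, pow_mul]
    have h8 : b ^ Nat.totient (l ^ r.factorization l) - 1 ∣
        (b ^ Nat.totient (l ^ r.factorization l)) ^ m - 1 := by
      have := Nat.sub_dvd_pow_sub_pow (b ^ Nat.totient (l ^ r.factorization l)) 1 m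
      rwa [one_pow] at this
    refine dvd_trans ?_ h8
    exact (Nat.modEq_iff_dvd' (Nat.one_le_pow _ _ hb)).1 h7.symm

/-- the exponent is at most `r` and has a small gcd with `p - 1` -/
theorem exponent_le {b r : ℕ} (hr : 1 ≤ r) :
    1 ≤ (∏ l ∈ r.primeFactors.filter (fun l => ¬ l ∣ b), Nat.totient (l ^ r.factorization l)) ∧
    (∏ l ∈ r.primeFactors.filter (fun l => ¬ l ∣ b), Nat.totient (l ^ r.factorization l)) ≤ r := by
  constructor
  · refine Nat.pos_of_ne_zero (prod_ne_zero_iff.2 fun l hl => ?_)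
    rw [mem_filter, Nat.mem_primeFactors] at hl
    exact (Nat.totient_pos.2 (pow_pos hl.1.1.pos _)).ne'
  · calc (∏ l ∈ r.primeFactors.filter (fun l => ¬ l ∣ b), Nat.totient (l ^ r.factorization l)) ≤
        ∏ l ∈ r.primeFactors.filter (fun l => ¬ l ∣ b), l ^ r.factorization l :=
          prod_le_prod' fun l _ => Nat.totient_le _
      _ ≤ ∏ l ∈ r.primeFactors, l ^ r.factorization l := by
          refine prod_le_prod_of_subset_of_one_le' (filter_subset _ _) fun l hl _ => ?_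
          rw [Nat.mem_primeFactors] at hl
          exact Nat.one_le_pow _ _ hl.1.pos
      _ = r := Nat.prod_factorization_pow_eq_self (by omega)

theorem gcd_prod_le {P : Finset ℕ} {f : ℕ → ℕ} {u : ℕ} (hu : 1 ≤ u) :
    Nat.gcd u (∏ l ∈ P, f l) ≤ ∏ l ∈ P, Nat.gcd u (f l) := by
  classical
  have h : Nat.gcd u (∏ l ∈ P, f l) ∣ ∏ l ∈ P, Nat.gcd u (f l) := by
    induction P using Finset.induction_on with
    | empty => simp
    | insert a P ha ih =>
      rw [prod_insert ha, prod_insert ha]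
      exact (Nat.gcd_mul_right_dvd_mul_gcd u (f a) _).trans (Nat.mul_dvd_mul_left _ ih)
  exact Nat.le_of_dvd (prod_pos fun l _ => Nat.gcd_pos_of_pos_left _ hu) h

theorem gcd_exponent_le {b r p q G W : ℕ} (hp : p.Prime) (hr : 1 ≤ r) (hq : q = p * r)
    (h4 : q.primeFactors.card ≤ W) (hG : 1 ≤ G) (hpr : ¬ p ∣ r)
    (h5 : ∀ p p' : ℕ, p.Prime → p'.Prime → p ≠ p' → p ∣ q → p' ∣ q →
      Nat.gcd (p - 1) (p' - 1) ≤ G)
    (h6 : ∀ d : ℕ, d ∣ p - 1 → p * d ∣ q → d ≤ G) :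
    Nat.gcd (p - 1) (∏ l ∈ r.primeFactors.filter (fun l => ¬ l ∣ b),
      Nat.totient (l ^ r.factorization l)) ≤ G ^ (W + 1) := by
  have hp1 : 1 ≤ p - 1 := Nat.sub_pos_of_lt hp.one_lt
  set P := r.primeFactors.filter (fun l => ¬ l ∣ b) with hP
  have hPp : ∀ l ∈ P, l.Prime ∧ l ∣ r := fun l hl => by
    rw [hP, mem_filter, Nat.mem_primeFactors] at hl
    exact ⟨hl.1.1, hl.1.2.1⟩
  have h7 : ∀ l ∈ P, Nat.totient (l ^ r.factorization l) =
      l ^ (r.factorization l - 1) * (l - 1) := fun l hl =>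
    Nat.totient_prime_pow (hPp l hl).1 ((hPp l hl).1.factorization_pos_of_dvd (by omega)
      (hPp l hl).2)
  refine (gcd_prod_le hp1).trans ?_
  have h8 : ∀ l ∈ P, Nat.gcd (p - 1) (Nat.totient (l ^ r.factorization l)) ≤
      Nat.gcd (p - 1) (l ^ (r.factorization l - 1)) * G := by
    intro l hl
    rw [h7 l hl]
    have h9 := Nat.gcd_mul_right_dvd_mul_gcd (p - 1) (l ^ (r.factorization l - 1)) (l - 1)
    refine (Nat.le_of_dvd (Nat.mul_pos (Nat.gcd_pos_of_pos_left _ hp1)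
      (Nat.gcd_pos_of_pos_left _ hp1)) h9).trans ?_
    refine Nat.mul_le_mul_left _ (h5 p l hp (hPp l hl).1 ?_ ?_ ?_)
    · rintro rfl
      exact hpr (hPp p hl).2
    · rw [hq]
      exact dvd_mul_right _ _
    · rw [hq]
      exact (hPp l hl).2.mul_left _
  refine (prod_le_prod' h8).trans ?_
  rw [prod_mul_distrib, prod_const, pow_succ, mul_comm]
  have hcard : P.card ≤ W := by
    refine le_trans (card_le_card ?_) h4
    intro l hl
    rw [Nat.mem_primeFactors]
    refine ⟨(hPp l hl).1, ?_, ?_⟩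
    · rw [hq]
      exact (hPp l hl).2.mul_left _
    · rw [hq]
      exact Nat.mul_ne_zero hp.ne_zero (by omega)
  refine Nat.mul_le_mul (Nat.pow_le_pow_right hG hcard) ?_
  -- the product of the gcds with the prime powers
  apply h6
  · refine Finset.prod_dvd_of_isRelPrime ?_ fun l _ => Nat.gcd_dvd_left _ _
    intro l hl l' hl' hne
    refine Nat.coprime_iff_isRelPrime.1 ?_
    exact Nat.Coprime.coprime_dvd_left (Nat.gcd_dvd_right _ _)
      (Nat.Coprime.coprime_dvd_right (Nat.gcd_dvd_right _ _)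
        (Nat.Coprime.pow _ _ ((Nat.coprime_primes (hPp l hl).1 (hPp l' hl').1).2 hne)))
  · rw [hq]
    refine Nat.mul_dvd_mul_left _ ?_
    calc ∏ l ∈ P, Nat.gcd (p - 1) (l ^ (r.factorization l - 1)) ∣
        ∏ l ∈ P, l ^ (r.factorization l - 1) :=
          Finset.prod_dvd_prod_of_dvd _ _ fun l _ => Nat.gcd_dvd_right _ _
      _ ∣ ∏ l ∈ P, l ^ r.factorization l :=
          Finset.prod_dvd_prod_of_dvd _ _ fun l _ => pow_dvd_pow _ (Nat.sub_le _ _)
      _ ∣ ∏ l ∈ r.primeFactors, l ^ r.factorization l :=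
          Finset.prod_dvd_prod_of_subset _ _ _ (filter_subset _ _)
      _ = r := Nat.prod_factorization_pow_eq_self (by omega)

theorem cnt_dp (X G : ℕ) (hG : 1 ≤ G) :
    cnt X (fun q => ∃ d ∈ Icc G X, ∃ n ∈ (Icc 2 X).filter (fun n => d ∣ n - 1), n * d ∣ q) ≤
      2 * (1 + Real.log X) / G * X := by
  have hX0 : (0 : ℝ) ≤ X := Nat.cast_nonneg _
  have hlog : 0 ≤ Real.log X := Real.log_natCast_nonneg X
  refine (cnt_exists X (Icc G X) _).trans ?_
  have h1 : ∀ d ∈ Icc G X, cnt X (fun q => ∃ n ∈ (Icc 2 X).filter (fun n => d ∣ n - 1),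
      n * d ∣ q) ≤ (1 + Real.log X) * ((d : ℝ) ^ 2)⁻¹ * X := by
    intro d hd
    rw [mem_Icc] at hd
    refine (cnt_exists X _ _).trans ((sum_le_sum fun n _ => cnt_dvd X (n * d)).trans ?_)
    have h3 := sum_class X d (hG.trans hd.1)
    calc ∑ n ∈ (Icc 2 X).filter (fun n => d ∣ n - 1), (X : ℝ) / ((n * d : ℕ) : ℝ) =
        (∑ n ∈ (Icc 2 X).filter (fun n => d ∣ n - 1), (1 : ℝ) / n) * ((d : ℝ))⁻¹ * X := by
          rw [sum_mul, sum_mul]
          refine sum_congr rfl fun n _ => ?_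
          push_cast
          rw [div_eq_mul_inv, mul_inv, one_div]
          ring
      _ ≤ ((1 + Real.log X) / d) * ((d : ℝ))⁻¹ * X := by gcongr
      _ = _ := by
          rw [div_eq_mul_inv, pow_two, mul_inv]
          ring
  refine (sum_le_sum h1).trans ?_
  have h5 := sum_Ioo_inv_sq_le (α := ℝ) (G - 1) (X + 1)
  have h6 : Ioo (G - 1) (X + 1) = Icc G X := by
    ext d
    simp only [mem_Ioo, mem_Icc]
    omega
  rw [h6, Nat.cast_sub hG] at h5
  push_cast at h5
  rw [sub_add_cancel] at h5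
  calc ∑ d ∈ Icc G X, (1 + Real.log X) * ((d : ℝ) ^ 2)⁻¹ * X =
      (1 + Real.log X) * (∑ d ∈ Icc G X, ((d : ℝ) ^ 2)⁻¹) * X := by
        rw [mul_sum, sum_mul]
    _ ≤ (1 + Real.log X) * (2 / G) * X := by gcongr
    _ = 2 * (1 + Real.log X) / G * X := by ring

end Pool.Agent.Y943.Fu
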