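import Pool.Agent.Y943.Fu.Orb
import Pool.Agent.TH869.LPS.WeylQ

/-!
# Powers of `b` modulo smooth integers: short intervals of exponents
-/

set_option autoImplicit false

namespace Pool.Agent.Y943.Fu

open Finset Filter Polynomial Pool.Agent.H332R2.Lit

/-- the valuations of `B ^ M - 1` at the primes of `s` -/
theorem dvd_iff_smooth {s : ℕ} {B : ℤ} (hB : 2 ≤ B) (hs : ∀ p : ℕ, p.Prime → p ∣ s → (p : ℤ) ∣ B - 1)
    (h4 : 2 ∣ s → (4 : ℤ) ∣ B - 1) {g : ℕ} (hgs : ∀ p : ℕ, p.Prime → p ∣ g → p ∣ s) (M j : ℕ) :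
    ((g : ℤ) ∣ (B ^ M - 1) ^ j ↔ (g : ℤ) ∣ ((B - 1) * M) ^ j) := by
  have key : ∀ p : ℕ, p.Prime → p ∣ s →
      emultiplicity (p : ℤ) ((B ^ M - 1) ^ j) = emultiplicity (p : ℤ) (((B - 1) * M) ^ j) := by
    intro p hp hps
    have hpB := hs p hp hps
    have hpint : Prime (p : ℤ) := Nat.prime_iff_prime_int.1 hp
    have hnB : ¬ (p : ℤ) ∣ B := by
      intro h1
      have h2 : (p : ℤ) ∣ 1 := by
        have := dvd_sub h1 hpB
        simpa using this
      exact hpint.not_isUnit (isUnit_of_dvd_one h2)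
    have hmul : emultiplicity (p : ℤ) (B ^ M - 1 ^ M) = emultiplicity (p : ℤ) (B - 1) +
        emultiplicity (p : ℤ) (M : ℤ) := by
      rcases hp.eq_two_or_odd' with rfl | hodd
      · have := Int.two_pow_sub_pow' M (x := B) (y := 1) (h4 hps) (by exact_mod_cast hnB)
        exact_mod_cast this
      · have := Int.emultiplicity_pow_sub_pow hp hodd (x := B) (y := 1) hpB hnB M
        rw [this]
        congr 1
        exact (Int.natCast_emultiplicity p M).symm
    rw [one_pow] at hmul
    rw [emultiplicity_pow hpint, emultiplicity_pow hpint, hmul, emultiplicity_mul hpint]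
  constructor
  · intro h
    have h0 : g ∣ (((B - 1) * M) ^ j).natAbs := by
      rw [Nat.dvd_iff_prime_pow_dvd_dvd]
      intro p e hp he
      rcases Nat.eq_zero_or_pos e with rfl | he0
      · simp
      have hpg : p ∣ g := (dvd_pow_self p he0.ne').trans he
      rw [← Int.natCast_dvd]
      push_cast
      rw [pow_dvd_iff_le_emultiplicity, ← key p hp (hgs p hp hpg), ← pow_dvd_iff_le_emultiplicity]
      exact (by exact_mod_cast he : ((p : ℤ) ^ e) ∣ (g : ℤ)).trans h
    exact Int.natCast_dvd.2 h0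
  · intro h
    have h0 : g ∣ ((B ^ M - 1) ^ j).natAbs := by
      rw [Nat.dvd_iff_prime_pow_dvd_dvd]
      intro p e hp he
      rcases Nat.eq_zero_or_pos e with rfl | he0
      · simp
      have hpg : p ∣ g := (dvd_pow_self p he0.ne').trans he
      rw [← Int.natCast_dvd]
      push_cast
      rw [pow_dvd_iff_le_emultiplicity, key p hp (hgs p hp hpg), ← pow_dvd_iff_le_emultiplicity]
      exact (by exact_mod_cast he : ((p : ℤ) ^ e) ∣ (g : ℤ)).trans h
    exact Int.natCast_dvd.2 h0

/-- a small `M` with `q ∣ M ^ k` -/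
theorem exists_root (k s : ℕ) (hk : 1 ≤ k) (hs1 : 1 ≤ s) : ∀ q : ℕ, 1 ≤ q →
    (∀ p : ℕ, p.Prime → p ∣ q → p ∣ s) → ∃ M : ℕ, 1 ≤ M ∧ q ∣ M ^ k ∧ M ^ k ≤ q * s ^ k := by
  intro q
  induction q using Nat.strong_induction_on with
  | _ q ih =>
    intro hq hqs
    by_cases hp : ∃ p : ℕ, p.Prime ∧ p ^ k ∣ q
    · obtain ⟨p, hp, q', rfl⟩ := hp
      have hpk : 1 < p ^ k := Nat.one_lt_pow (by omega) hp.one_lt
      have hq' : 1 ≤ q' := by
        rcases Nat.eq_zero_or_pos q' with h | h
        · simp [h] at hq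
        · exact h
      obtain ⟨M, hM1, hM2, hM3⟩ := ih q' (by nlinarith) hq'
        (fun r hr hrq => hqs r hr (hrq.mul_left _))
      refine ⟨p * M, Nat.mul_pos hp.pos hM1, ?_, ?_⟩
      · rw [mul_pow]
        exact mul_dvd_mul_left _ hM2
      · rw [mul_pow, mul_assoc]
        exact Nat.mul_le_mul_left _ hM3
    · push Not at hp
      refine ⟨s, hs1, ?_, ?_⟩
      · rw [Nat.dvd_iff_prime_pow_dvd_dvd]
        intro p e hpp he
        rcases Nat.eq_zero_or_pos e with rfl | he0
        · simp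
        have hpq : p ∣ q := (dvd_pow_self p he0.ne').trans he
        have hek : e ≤ k := by
          by_contra hlt
          push Not at hlt
          exact hp p hpp ((pow_dvd_pow p hlt.le).trans he)
        exact (pow_dvd_pow p hek).trans (pow_dvd_pow_of_dvd (hqs p hpp hpq) k)
      · exact Nat.le_mul_of_pos_left _ hq

/-- truncation of the binomial expansion modulo `q` -/
theorem trunc (A q : ℤ) (k : ℕ) (hA : q ∣ A ^ k) (l : ℕ) :
    q ∣ (1 + A) ^ l - ∑ i ∈ range k, A ^ i * (l.choose i : ℤ) := by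
  have h1 : (1 + A) ^ l = ∑ i ∈ range (k + (l + 1)), A ^ i * (l.choose i : ℤ) := by
    rw [add_comm 1 A, add_pow]
    have h2 : ∑ i ∈ range (k + (l + 1)), A ^ i * (l.choose i : ℤ) =
        ∑ i ∈ range (l + 1), A ^ i * (l.choose i : ℤ) := by
      symm
      apply sum_subset
      · intro i hi
        rw [mem_range] at hi ⊢
        omega
      · intro i _ hi
        rw [mem_range] at hi
        rw [Nat.choose_eq_zero_of_lt (by omega)]
        simp
    rw [h2]
    refine sum_congr rfl fun i _ => ?_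
    rw [one_pow, mul_one]
  rw [h1, sum_range_add, add_sub_cancel_left]
  refine dvd_sum fun i _ => ?_
  rw [pow_add]
  exact ((hA.mul_right _).mul_right _)

/-- the polynomial `∑_{i < k} a i * binomial(X, i)` -/
noncomputable def binPoly (k : ℕ) (a : ℕ → ℝ) : ℝ[X] :=
  ∑ i ∈ range k, Polynomial.C (a i / (i.factorial : ℝ)) * descPochhammer ℝ i

theorem binPoly_eval (k : ℕ) (a : ℕ → ℝ) (l : ℕ) :
    (binPoly k a).eval (l : ℝ) = ∑ i ∈ range k, a i * (l.choose i : ℝ) := by
  unfold binPoly
  rw [eval_finset_sum]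
  refine sum_congr rfl fun i _ => ?_
  rw [eval_mul, eval_C, descPochhammer_eval_eq_descFactorial, Nat.descFactorial_eq_factorial_mul_choose]
  have : (i.factorial : ℝ) ≠ 0 := by exact_mod_cast i.factorial_ne_zero
  push_cast
  field_simp

theorem binPoly_natDegree (d : ℕ) (a : ℕ → ℝ) : (binPoly (d + 2) a).natDegree ≤ d + 1 := by
  unfold binPoly
  refine natDegree_sum_le_of_forall_le _ _ fun i hi => ?_
  refine (natDegree_C_mul_le _ _).trans ?_
  rw [descPochhammer_natDegree]
  have := mem_range.1 hi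
  omega

theorem binPoly_coeff (d : ℕ) (a : ℕ → ℝ) :
    (binPoly (d + 2) a).coeff (d + 1) = a (d + 1) / ((d + 1).factorial : ℝ) := by
  unfold binPoly
  rw [finset_sum_coeff, sum_range_succ, sum_eq_zero, zero_add, coeff_C_mul]
  · have h1 : (descPochhammer ℝ (d + 1)).coeff (d + 1) = 1 := by
      have h2 := monic_descPochhammer ℝ (d + 1)
      have h3 := h2.coeff_natDegree
      rwa [descPochhammer_natDegree] at h3
    rw [h1, mul_one]
  · intro i hi
    rw [coeff_C_mul, coeff_eq_zero_of_natDegree_lt, mul_zero]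
    rw [descPochhammer_natDegree]
    exact mem_range.1 hi

end Pool.Agent.Y943.Fu
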