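import Pool.Agent.Y943.Fu.Smooth

/-!
# Powers of `b` modulo smooth integers `q` are dense already for exponents up to `q ^ δ`
-/

set_option autoImplicit false

namespace Pool.Agent.Y943.Fu

open Finset Filter Polynomial Pool.Agent.H332R2.Lit

/-- One modulus: the exponents `t M l`. Here `B = b ^ t`, `A = B ^ M - 1`, `D = q / gcd(q, A^(k-1))`. -/
theorem one_modulus (d : ℕ) (ε : ℝ) (hε : 0 < ε) : ∃ T : ℕ, 1 ≤ T ∧
    ∀ (A : ℤ) (q D : ℕ) (c g : ℤ), 1 ≤ q → T ≤ D → (q : ℤ) ∣ A ^ (d + 2) →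
      (q : ℤ) = D * g → g ∣ A ^ (d + 1) → IsCoprime (c * (A ^ (d + 1) / g)) (D : ℤ) →
      ∀ y : ℝ, ∃ l : ℕ, l < T * D ∧ ∃ z : ℤ,
        |((1 + A : ℤ) : ℝ) ^ l * (c / q) - y - z| < ε := by
  obtain ⟨K, η, hη, hη1, hD⟩ := dense_of_sums ε hε
  obtain ⟨C, hC1, hW⟩ := Pool.Agent.TH869.LPS.weylQ d
  set M0 : ℝ := C * (1 / η) ^ C with hM0
  have hηi : 1 ≤ 1 / η := by rw [le_div_iff₀ hη]; linarith
  have hM01 : 1 ≤ M0 := by
    rw [hM0]
    have h1 : (1:ℝ) ≤ C := by exact_mod_cast hC1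
    have h2 : (1:ℝ) ≤ (1 / η) ^ C := one_le_pow₀ hηi
    nlinarith
  set F : ℕ := (d + 1).factorial with hF
  have hF1 : 1 ≤ F := Nat.succ_le_of_lt (Nat.factorial_pos _)
  have hF1r : (1:ℝ) ≤ F := by exact_mod_cast hF1
  obtain ⟨T, hT⟩ := exists_nat_gt (M0 * (K + 1) * F)
  have hTr1 : (1:ℝ) < T := by
    refine lt_of_le_of_lt ?_ hT
    have h1 : (1:ℝ) ≤ (K:ℝ) + 1 := by
      have : (0:ℝ) ≤ K := Nat.cast_nonneg _
      linarith
    calc (1:ℝ) = 1 * 1 * 1 := by norm_num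
      _ ≤ M0 * (K + 1) * F := by gcongr
  have hT1 : 1 ≤ T := by
    have : 1 < T := by exact_mod_cast hTr1
    omega
  refine ⟨T, hT1, fun A q D c g hq hTD hqA hqD hg hco y => ?_⟩
  have hD1 : 1 ≤ D := hT1.trans hTD
  have hDr : (1:ℝ) ≤ D := by exact_mod_cast hD1
  have hN1 : 1 ≤ T * D := Nat.mul_pos hT1 hD1
  have hg0 : g ≠ 0 := by
    rintro rfl
    rw [mul_zero] at hqD
    have : q = 0 := by exact_mod_cast hqD
    omega
  obtain ⟨a', ha'⟩ := hg
  have hga' : A ^ (d + 1) / g = a' := by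
    rw [ha', Int.mul_ediv_cancel_left _ hg0]
  rw [hga'] at hco
  have hqr : (0:ℝ) < q := by exact_mod_cast hq
  have hDpos : (0:ℝ) < D := by linarith
  have hgr : (g:ℝ) ≠ 0 := by exact_mod_cast hg0
  have hqDr : (q:ℝ) = D * g := by exact_mod_cast hqD
  refine hD (T * D) (fun l => ((1 + A : ℤ) : ℝ) ^ l * (c / q)) hN1 (fun h hh1 hhK => ?_) y
  -- the polynomial
  set a : ℕ → ℝ := fun i => (h : ℝ) * c * (A : ℝ) ^ i / q with ha
  have heval : ∀ l : ℕ, e ((h : ℝ) * (((1 + A : ℤ) : ℝ) ^ l * (c / q))) =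
      e ((binPoly (d + 2) a).eval (l : ℝ)) := by
    intro l
    apply e_periodic
    obtain ⟨w, hw⟩ := trunc A q (d + 2) hqA l
    refine ⟨h * c * w, ?_⟩
    rw [binPoly_eval]
    have h1 : ((1 + A : ℤ) : ℝ) ^ l = (∑ i ∈ range (d + 2), (A:ℝ) ^ i * (l.choose i : ℝ)) +
        q * w := by
      have h2 : ((1 + A) ^ l : ℤ) = (∑ i ∈ range (d + 2), A ^ i * (l.choose i : ℤ)) + q * w := by
        rw [← hw]; ring
      exact_mod_cast h2
    rw [h1, ha]
    have h3 : ∑ i ∈ range (d + 2), (h : ℝ) * c * (A : ℝ) ^ i / q * (l.choose i : ℝ) =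
        (h * c / q) * ∑ i ∈ range (d + 2), (A : ℝ) ^ i * (l.choose i : ℝ) := by
      rw [mul_sum]
      exact sum_congr rfl fun i _ => by ring
    simp only
    rw [h3]
    push_cast
    field_simp
    ring
  rw [sum_congr rfl fun l _ => heval l]
  have hWd := hW η hη hη1 (binPoly (d + 2) a) (binPoly_natDegree d a) (T * D) hN1
  push_cast at hWd
  refine (hWd fun m hm1 hm2 => ?_).trans (by push_cast; exact le_rfl)
  rw [binPoly_coeff, ← hF]
  -- the leading coefficient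
  have hFr : (0:ℝ) < F := by linarith
  have hα : (m:ℝ) * (a (d + 1) / (F:ℝ)) = ((m * h * (c * a') : ℤ) : ℝ) / (D * F) := by
    have h1 : (A:ℝ) ^ (d + 1) = g * a' := by exact_mod_cast ha'
    rw [ha]
    simp only
    rw [h1, hqDr]
    push_cast
    field_simp
  rw [hα]
  set u : ℤ := m * h * (c * a') with hu
  set ρ : ℤ := round (((u : ℤ) : ℝ) / (D * F)) with hρ
  have hne : u - ρ * (D * F) ≠ 0 := by
    intro h0
    have h1 : (D : ℤ) ∣ (c * a') * (m * h) := by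
      have h2 : (c * a') * (m * h) = ρ * (D * F) := by
        have : (c * a') * (m * h) = u := by rw [hu]; ring
        rw [this]; linarith
      rw [h2]
      exact ⟨ρ * F, by ring⟩
    have h2 : (D : ℤ) ∣ (m * h : ℤ) := hco.symm.dvd_of_dvd_mul_left h1
    have h3 : D ∣ m * h := by exact_mod_cast h2
    have h4 : D ≤ m * h := Nat.le_of_dvd (Nat.mul_pos hm1 hh1) h3
    have h5 : (D:ℝ) ≤ m * h := by exact_mod_cast h4
    have h6 : (T:ℝ) ≤ D := by exact_mod_cast hTD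
    have h7 : (h:ℝ) ≤ K := by exact_mod_cast hhK
    have h8 : (m:ℝ) * h ≤ M0 * (K + 1) * F := by
      calc (m:ℝ) * h ≤ M0 * (K + 1) := by
            apply mul_le_mul hm2 (by linarith) (Nat.cast_nonneg _) (by linarith)
        _ ≤ M0 * (K + 1) * F := by
            apply le_mul_of_one_le_right _ hF1r
            have : (0:ℝ) ≤ K := Nat.cast_nonneg _
            nlinarith
    linarith
  have h1 : (1:ℝ) ≤ |((u - ρ * (D * F) : ℤ) : ℝ)| := by
    rw [← Int.cast_abs]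
    exact_mod_cast Int.one_le_abs hne
  have h2 : ((u : ℤ) : ℝ) / (D * F) - ρ = ((u - ρ * (D * F) : ℤ) : ℝ) / (D * F) := by
    push_cast
    field_simp
  rw [h2, abs_div, abs_of_pos (show (0:ℝ) < D * F by positivity)]
  calc M0 / (T * D) ≤ 1 / (D * F) := by
        rw [div_le_div_iff₀ (by positivity) (by positivity)]
        have h3 : M0 * F ≤ T := by
          have h4 : M0 * F ≤ M0 * (K + 1) * F := by
            have : (0:ℝ) ≤ K := Nat.cast_nonneg _
            have : M0 * 1 ≤ M0 * (K + 1) := by nlinarith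
            nlinarith
          linarith
        nlinarith
    _ ≤ _ := div_le_div_of_nonneg_right h1 (by positivity)

end Pool.Agent.Y943.Fu
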