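import Pool.Agent.H435R3.HBK.App

/-!
# Exponential sums over subgroups of moderate size
-/

set_option autoImplicit false

namespace Pool.Agent.Y943.Fu

open Finset Filter Topology
open scoped ComplexConjugate

section

variable {p : ℕ} [Fact p.Prime]

theorem parseval (r : ZMod p → ℂ) :
    ∑ a : ZMod p, ‖∑ z, r z * ZMod.stdAddChar (a * z)‖ ^ 2 = p * ∑ z, ‖r z‖ ^ 2 := by
  have h : ∀ a : ZMod p, ((‖∑ z, r z * ZMod.stdAddChar (a * z)‖ ^ 2 : ℝ) : ℂ) =
      ∑ z, ∑ w, r z * conj (r w) * ZMod.stdAddChar (a * (z - w)) := by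
    intro a
    rw [← Complex.normSq_eq_norm_sq, ← Complex.mul_conj, map_sum, Finset.sum_mul_sum]
    refine sum_congr rfl fun z _ => sum_congr rfl fun w _ => ?_
    have h0 : conj (r w * ZMod.stdAddChar (N := p) (a * w)) =
        conj (r w) * ZMod.stdAddChar (N := p) (-(a * w)) := by
      rw [map_mul (starRingEnd ℂ), AddChar.map_neg_eq_conj]
    rw [h0, mul_sub, sub_eq_add_neg, AddChar.map_add_eq_mul]
    ring
  have h2 : ((∑ a : ZMod p, ‖∑ z, r z * ZMod.stdAddChar (a * z)‖ ^ 2 : ℝ) : ℂ) =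
      ((p * ∑ z, ‖r z‖ ^ 2 : ℝ) : ℂ) := by
    rw [Complex.ofReal_sum]
    simp_rw [h]
    rw [sum_comm]
    have h3 : ∀ z : ZMod p, ∑ a : ZMod p, ∑ w, r z * conj (r w) * ZMod.stdAddChar (a * (z - w)) =
        p * (r z * conj (r z)) := by
      intro z
      rw [sum_comm]
      have h4 : ∀ w : ZMod p, ∑ a : ZMod p, r z * conj (r w) * ZMod.stdAddChar (a * (z - w)) =
          if w = z then p * (r z * conj (r z)) else 0 := by
        intro w
        rw [← mul_sum, AddChar.sum_mulShift (z - w) (ZMod.isPrimitive_stdAddChar p)]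
        by_cases hw : w = z
        · subst hw
          simp only [sub_self, if_true, ZMod.card]
          ring
        · rw [if_neg hw, if_neg (sub_ne_zero.2 (Ne.symm hw))]
          simp
      simp_rw [h4]
      simp
    simp_rw [h3]
    rw [← mul_sum]
    push_cast
    congr 1
    refine sum_congr rfl fun z _ => ?_
    rw [Complex.mul_conj, Complex.normSq_eq_norm_sq]
    push_cast
    rfl
  exact_mod_cast h2

/-- the subgroup generated by `g` -/
noncomputable def HH (g : ZMod p) : Finset (ZMod p) := (range (orderOf g)).image (fun l => g ^ l)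

theorem inj_pow (g : ZMod p) : Set.InjOn (fun l => g ^ l) (range (orderOf g) : Set ℕ) := by
  intro i hi j hj h
  rw [coe_range, Set.mem_Iio] at hi hj
  exact pow_injOn_Iio_orderOf hi hj h

theorem card_HH (g : ZMod p) : (HH g).card = orderOf g := by
  unfold HH
  rw [card_image_of_injOn (inj_pow g), card_range]

theorem sum_HH (g a : ZMod p) : ∑ x ∈ HH g, ZMod.stdAddChar (a * x) =
    ∑ l ∈ range (orderOf g), ZMod.stdAddChar (N := p) (a * g ^ l) := by
  unfold HH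
  rw [sum_image (inj_pow g)]

theorem mul_HH {g : ZMod p} (hg : 1 ≤ orderOf g) (x : ZMod p) (hx : x ∈ HH g) : g * x ∈ HH g := by
  unfold HH at hx ⊢
  obtain ⟨l, hl, rfl⟩ := mem_image.1 hx
  rw [mem_range] at hl
  rcases Nat.lt_or_ge (l + 1) (orderOf g) with h | h
  · exact mem_image.2 ⟨l + 1, mem_range.2 h, pow_succ' g l⟩
  · have : l + 1 = orderOf g := by omega
    refine mem_image.2 ⟨0, mem_range.2 (by omega), ?_⟩
    rw [← pow_succ', this, pow_orderOf_eq_one, pow_zero]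

/-- invariance of the sum -/
theorem sum_shift {g : ZMod p} (hg0 : g ≠ 0) (hg : 1 ≤ orderOf g) (a : ZMod p) :
    ∑ x ∈ HH g, ZMod.stdAddChar (a * g * x) = ∑ x ∈ HH g, ZMod.stdAddChar (N := p) (a * x) := by
  have h1 : (HH g).image (fun x => g * x) = HH g := by
    apply eq_of_subset_of_card_le
    · intro x hx
      obtain ⟨z, hz, rfl⟩ := mem_image.1 hx
      exact mul_HH hg z hz
    · rw [card_image_of_injective _ (mul_right_injective₀ hg0)]
  conv_rhs => rw [← h1]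
  rw [sum_image (fun x _ z _ h => mul_right_injective₀ hg0 h)]
  exact sum_congr rfl fun x _ => by rw [mul_assoc]

theorem sum_shift_pow {g : ZMod p} (hg0 : g ≠ 0) (hg : 1 ≤ orderOf g) (a : ZMod p) (j : ℕ) :
    ∑ x ∈ HH g, ZMod.stdAddChar (a * g ^ j * x) =
      ∑ x ∈ HH g, ZMod.stdAddChar (N := p) (a * x) := by
  induction j with
  | zero => simp
  | succ j ih =>
    rw [pow_succ, ← mul_assoc, sum_shift hg0 hg, ih]

/-- a value is attained `orderOf g` times -/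
theorem order_mul_le {g : ZMod p} (hg0 : g ≠ 0) (hg : 1 ≤ orderOf g) {a : ZMod p} (ha : a ≠ 0)
    (k : ℕ) : (orderOf g : ℝ) * ‖∑ x ∈ HH g, ZMod.stdAddChar (N := p) (a * x)‖ ^ k ≤
      ∑ a' : ZMod p, ‖∑ x ∈ HH g, ZMod.stdAddChar (N := p) (a' * x)‖ ^ k := by
  have hinj : Set.InjOn (fun j => a * g ^ j) (range (orderOf g) : Set ℕ) := fun i hi j hj h =>
    inj_pow g hi hj (mul_left_cancel₀ ha h)
  have h0 : ∀ j ∈ range (orderOf g),
      ‖∑ x ∈ HH g, ZMod.stdAddChar (N := p) (a * g ^ j * x)‖ ^ k =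
        ‖∑ x ∈ HH g, ZMod.stdAddChar (N := p) (a * x)‖ ^ k := fun j _ => by
    rw [sum_shift_pow hg0 hg a j]
  calc (orderOf g : ℝ) * ‖∑ x ∈ HH g, ZMod.stdAddChar (N := p) (a * x)‖ ^ k =
      ∑ j ∈ range (orderOf g), ‖∑ x ∈ HH g, ZMod.stdAddChar (N := p) (a * g ^ j * x)‖ ^ k := by
        rw [sum_congr rfl h0, sum_const, card_range, nsmul_eq_mul]
    _ = ∑ a' ∈ (range (orderOf g)).image (fun j => a * g ^ j),
          ‖∑ x ∈ HH g, ZMod.stdAddChar (N := p) (a' * x)‖ ^ k := by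
        rw [sum_image hinj]
    _ ≤ _ := sum_le_sum_of_subset_of_nonneg (subset_univ _) fun _ _ _ => by positivity

/-- the number of representations as a difference -/
noncomputable def rp (g z : ZMod p) : ℝ := ((((HH g) ×ˢ (HH g)).filter fun w => w.1 - w.2 = z).card : ℝ)

theorem rp_nonneg (g z : ZMod p) : 0 ≤ rp g z := Nat.cast_nonneg _

theorem norm_sq_eq (g a : ZMod p) :
    ((‖∑ x ∈ HH g, ZMod.stdAddChar (N := p) (a * x)‖ ^ 2 : ℝ) : ℂ) =
      ∑ z, (rp g z : ℂ) * ZMod.stdAddChar (a * z) := by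
  rw [← Complex.normSq_eq_norm_sq, ← Complex.mul_conj, map_sum, Finset.sum_mul_sum, ← sum_product']
  have h1 : ∀ w ∈ (HH g) ×ˢ (HH g), ZMod.stdAddChar (a * w.1) * conj (ZMod.stdAddChar (a * w.2)) =
      ZMod.stdAddChar (N := p) (a * (w.1 - w.2)) := by
    intro w _
    rw [← AddChar.map_neg_eq_conj, mul_sub, sub_eq_add_neg, AddChar.map_add_eq_mul]
  rw [sum_congr rfl h1, ← sum_fiberwise_of_maps_to (s := (HH g) ×ˢ (HH g)) (t := univ)
    (g := fun w => w.1 - w.2) (fun _ _ => mem_univ _)]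
  refine sum_congr rfl fun z _ => ?_
  rw [sum_congr rfl (g := fun _ => ZMod.stdAddChar (N := p) (a * z)) fun w hw => by
    rw [(mem_filter.1 hw).2], sum_const, nsmul_eq_mul]
  unfold rp
  push_cast
  rfl

theorem fourth (g : ZMod p) : ∑ a : ZMod p, ‖∑ x ∈ HH g, ZMod.stdAddChar (N := p) (a * x)‖ ^ 4 =
    p * ∑ z, rp g z ^ 2 := by
  have h1 : ∀ a : ZMod p, ‖∑ x ∈ HH g, ZMod.stdAddChar (N := p) (a * x)‖ ^ 4 =
      ‖∑ z, (rp g z : ℂ) * ZMod.stdAddChar (a * z)‖ ^ 2 := by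
    intro a
    rw [← norm_sq_eq g a, Complex.norm_real, Real.norm_eq_abs, sq_abs, ← pow_mul]
  simp_rw [h1]
  rw [parseval]
  congr 1
  refine sum_congr rfl fun z _ => ?_
  rw [Complex.norm_real, Real.norm_eq_abs, sq_abs]

theorem second (g : ZMod p) : ∑ a : ZMod p, ‖∑ x ∈ HH g, ZMod.stdAddChar (N := p) (a * x)‖ ^ 2 =
    p * orderOf g := by
  have h1 : ∀ a : ZMod p, ∑ x ∈ HH g, ZMod.stdAddChar (N := p) (a * x) =
      ∑ z, (if z ∈ HH g then (1 : ℂ) else 0) * ZMod.stdAddChar (a * z) := by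
    intro a
    simp only [ite_mul, one_mul, zero_mul]
    rw [Finset.sum_ite_mem univ (HH g), univ_inter]
  simp_rw [h1]
  rw [parseval]
  congr 1
  rw [← card_HH g]
  have h2 : ∀ z : ZMod p, ‖(if z ∈ HH g then (1 : ℂ) else 0)‖ ^ 2 =
      if z ∈ HH g then (1 : ℝ) else 0 := by
    intro z
    split_ifs <;> simp
  simp_rw [h2]
  simp

theorem sum_rp (g : ZMod p) : ∑ z, rp g z = (orderOf g : ℝ) ^ 2 := by
  unfold rp
  rw [← Nat.cast_sum, ← card_eq_sum_card_fiberwise (fun _ _ => mem_univ _), card_product, card_HH]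
  push_cast
  ring

theorem rp_zero (g : ZMod p) : rp g 0 ≤ orderOf g := by
  unfold rp
  rw [← card_HH g]
  have : (((HH g) ×ˢ (HH g)).filter fun w => w.1 - w.2 = 0).card ≤ (HH g).card := by
    refine card_le_card_of_injOn (fun w => w.1) ?_ ?_
    · intro w hw
      rw [mem_coe, mem_filter, mem_product] at hw
      exact hw.1.1
    · intro w hw w' hw' h
      rw [mem_coe, mem_filter, sub_eq_zero] at hw hw'
      exact Prod.ext h (by rw [← hw.2, ← hw'.2]; exact h)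
  exact_mod_cast this

/-- the energy of a subgroup -/
theorem energy_le {g : ZMod p} (hg : 1 ≤ orderOf g) (ht : orderOf g ^ 4 < p ^ 3) :
    ∑ z, rp g z ^ 2 ≤ 8 * ((orderOf g : ℝ) ^ (2 / 3 : ℝ) * (orderOf g : ℝ) ^ 2) := by
  set t : ℝ := ((orderOf g : ℕ) : ℝ) with htdef
  have ht1 : (1 : ℝ) ≤ t := by
    rw [htdef]
    exact_mod_cast hg
  have hR : ∀ z : ZMod p, z ≠ 0 → rp g z ≤ 7 * t ^ (2 / 3 : ℝ) := by
    intro z hz
    refine Pool.Agent.H435R3.HBK.rep_le (orderOf g) hg ht (HH g) 1 one_ne_zero ?_ z hz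
    intro x hx
    unfold HH at hx
    obtain ⟨l, _, rfl⟩ := mem_image.1 hx
    rw [← pow_mul, mul_comm, pow_mul, pow_orderOf_eq_one, one_pow]
  have h1 : ∀ z : ZMod p, rp g z ^ 2 ≤ (if z = 0 then t ^ 2 else 0) + 7 * t ^ (2 / 3 : ℝ) * rp g z := by
    intro z
    have h2 := rp_nonneg g z
    split_ifs with hz
    · subst hz
      have h3 := rp_zero g
      have h4 : 0 ≤ 7 * t ^ (2 / 3 : ℝ) * rp g 0 := by positivity
      have h5 : rp g 0 ^ 2 ≤ t ^ 2 := pow_le_pow_left₀ h2 h3 2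
      linarith
    · have h3 := hR z hz
      rw [zero_add, pow_two]
      gcongr
  refine (sum_le_sum fun z _ => h1 z).trans ?_
  rw [sum_add_distrib, ← mul_sum, sum_rp, sum_ite_eq' univ 0 (fun _ => t ^ 2), if_pos (mem_univ _)]
  have h6 : 1 ≤ t ^ (2 / 3 : ℝ) := Real.one_le_rpow ht1 (by norm_num)
  have h7 : 0 < t ^ 2 := by positivity
  rw [← htdef]
  nlinarith

end

/-- **sums over subgroups with at least `p ^ 0.45` elements are small** -/
theorem sum_small (η : ℝ) (hη : 0 < η) : ∃ P₀ : ℕ, ∀ p : ℕ, P₀ ≤ p → ∀ [Fact p.Prime], ∀ g : ZMod p,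
    g ≠ 0 → 1 ≤ orderOf g → (p : ℝ) ^ (0.45 : ℝ) ≤ orderOf g → ∀ a : ZMod p, a ≠ 0 →
    ‖∑ l ∈ range (orderOf g), ZMod.stdAddChar (N := p) (a * g ^ l)‖ ≤ η * orderOf g := by
  have e1 : ∀ᶠ p : ℕ in atTop, 8 / η ^ 4 ≤ (p : ℝ) ^ (0.05 : ℝ) :=
    ((tendsto_rpow_atTop (by norm_num)).comp tendsto_natCast_atTop_atTop).eventually_ge_atTop _
  have e2 : ∀ᶠ p : ℕ in atTop, 1 / η ^ 2 ≤ (p : ℝ) ^ (1 / 2 : ℝ) :=
    ((tendsto_rpow_atTop (by norm_num)).comp tendsto_natCast_atTop_atTop).eventually_ge_atTop _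
  obtain ⟨P₀, hP₀⟩ := eventually_atTop.1 (e1.and e2)
  refine ⟨P₀, fun p hpP hp g hg0 hg ht a ha => ?_⟩
  obtain ⟨f1, f2⟩ := hP₀ p hpP
  have hp0 : (0 : ℝ) < p := by exact_mod_cast hp.out.pos
  set t : ℝ := ((orderOf g : ℕ) : ℝ) with htdef
  have ht1 : (1 : ℝ) ≤ t := by
    rw [htdef]
    exact_mod_cast hg
  have ht0 : 0 < t := by linarith
  rw [← sum_HH]
  set S := ‖∑ x ∈ HH g, ZMod.stdAddChar (N := p) (a * x)‖ with hS
  have hS0 : 0 ≤ S := norm_nonneg _
  by_cases hcase : orderOf g ^ 4 < p ^ 3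
  · have h1 := order_mul_le hg0 hg ha 4
    rw [fourth, ← hS, ← htdef] at h1
    have h2 := energy_le hg hcase
    rw [← htdef] at h2
    have h3 : t * S ^ 4 ≤ p * (8 * (t ^ (2 / 3 : ℝ) * t ^ 2)) :=
      h1.trans (mul_le_mul_of_nonneg_left h2 hp0.le)
    have h4 : 8 * (p : ℝ) ≤ η ^ 4 * t ^ (7 / 3 : ℝ) := by
      have h5 : (p : ℝ) ^ (1.05 : ℝ) ≤ t ^ (7 / 3 : ℝ) := by
        calc (p : ℝ) ^ (1.05 : ℝ) = ((p : ℝ) ^ (0.45 : ℝ)) ^ (7 / 3 : ℝ) := by
              rw [← Real.rpow_mul hp0.le]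
              norm_num
          _ ≤ t ^ (7 / 3 : ℝ) := Real.rpow_le_rpow (by positivity) ht (by norm_num)
      have h6 : (p : ℝ) ^ (1.05 : ℝ) = p * (p : ℝ) ^ (0.05 : ℝ) := by
        nth_rewrite 2 [← Real.rpow_one (p : ℝ)]
        rw [← Real.rpow_add hp0]
        norm_num
      rw [div_le_iff₀ (by positivity)] at f1
      have h7 : 8 * (p : ℝ) ≤ η ^ 4 * (p * (p : ℝ) ^ (0.05 : ℝ)) := by
        have := mul_le_mul_of_nonneg_left f1 hp0.le
        linarith
      rw [← h6] at h7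
      have h8 := mul_le_mul_of_nonneg_left h5 (by positivity : 0 ≤ η ^ 4)
      linarith
    have h9 : S ^ 4 ≤ (η * t) ^ 4 := by
      have h10 : t * S ^ 4 ≤ t * (η * t) ^ 4 := by
        calc t * S ^ 4 ≤ p * (8 * (t ^ (2 / 3 : ℝ) * t ^ 2)) := h3
          _ = 8 * p * (t ^ (2 / 3 : ℝ) * t ^ 2) := by ring
          _ ≤ η ^ 4 * t ^ (7 / 3 : ℝ) * (t ^ (2 / 3 : ℝ) * t ^ 2) := by gcongr
          _ = η ^ 4 * (t ^ (7 / 3 : ℝ) * t ^ (2 / 3 : ℝ)) * t ^ 2 := by ring
          _ = t * (η * t) ^ 4 := by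
              rw [← Real.rpow_add ht0]
              have : t ^ ((7 / 3 : ℝ) + 2 / 3) = t ^ 3 := by
                rw [← Real.rpow_natCast]
                norm_num
              rw [this]
              ring
      exact le_of_mul_le_mul_left h10 ht0
    exact (pow_le_pow_iff_left₀ hS0 (by positivity) (by norm_num)).1 h9
  · have h1 := order_mul_le hg0 hg ha 2
    rw [second, ← hS, ← htdef] at h1
    have h2 : S ^ 2 ≤ p := by
      have : t * S ^ 2 ≤ t * p := by linarith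
      exact le_of_mul_le_mul_left this ht0
    have h3 : (p : ℝ) ^ 3 ≤ t ^ 4 := by
      push Not at hcase
      rw [htdef]
      exact_mod_cast hcase
    have h4 : (p : ℝ) ^ (3 / 2 : ℝ) ≤ t ^ 2 := by
      have h5 := Real.rpow_le_rpow (by positivity) h3 (by norm_num : (0 : ℝ) ≤ 1 / 2)
      rw [← Real.rpow_natCast, ← Real.rpow_natCast, ← Real.rpow_mul hp0.le,
        ← Real.rpow_mul ht0.le] at h5
      have h6 : t ^ 2 = t ^ (((4 : ℕ) : ℝ) * (1 / 2)) := by
        rw [← Real.rpow_natCast]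
        norm_num
      rw [h6]
      refine le_trans (le_of_eq ?_) h5
      norm_num
    have h7 : (p : ℝ) ≤ η ^ 2 * (p : ℝ) ^ (3 / 2 : ℝ) := by
      have h8 : (p : ℝ) ^ (3 / 2 : ℝ) = p * (p : ℝ) ^ (1 / 2 : ℝ) := by
        nth_rewrite 2 [← Real.rpow_one (p : ℝ)]
        rw [← Real.rpow_add hp0]
        norm_num
      rw [h8]
      rw [div_le_iff₀ (by positivity)] at f2
      have := mul_le_mul_of_nonneg_left f2 hp0.le
      linarith
    have h9 : S ^ 2 ≤ (η * t) ^ 2 := by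
      have := mul_le_mul_of_nonneg_left h4 (by positivity : 0 ≤ η ^ 2)
      rw [mul_pow]
      linarith
    exact (pow_le_pow_iff_left₀ hS0 (by positivity) (by norm_num)).1 h9

end Pool.Agent.Y943.Fu
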